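import Mathlib.Algebra.Algebra.Hom.Rat
import Mathlib.RingTheory.Flat.TorsionFree
import Mathlib.Topology.LocallyConstant.Basic
import Mathlib.FieldTheory.KrullTopology
import Mathlib.AlgebraicGeometry.EllipticCurve.Affine.Point
import Mathlib.NumberTheory.Padics.PadicNumbers
import Mathlib.RingTheory.SimpleRing.Principal
import Mathlib.RingTheory.Henselian
import Mathlib.RingTheory.RegularLocalRing.Defs

namespace Pool.Agent.MP_a43263_nt

section
variable {G A : Type} [Group G] [TopologicalSpace G] [AddCommGroup A] (ρ : G → A →+ A)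

/-- Continuous (locally constant) 1-cocycles of a topological group `G` acting through `ρ` on a
discrete abelian group `A`. -/
def Z1 : AddSubgroup (G → A) where
  carrier := {c | IsLocallyConstant c ∧ ∀ σ τ, c (σ * τ) = c σ + ρ σ (c τ)}
  zero_mem' := ⟨IsLocallyConstant.const 0, by simp⟩
  add_mem' := fun {c d} hc hd => ⟨hc.1.add hd.1, fun σ τ => by
    simp only [Pi.add_apply, hc.2 σ τ, hd.2 σ τ, map_add]; abel⟩
  neg_mem' := fun {c} hc => ⟨hc.1.neg, fun σ τ => by
    simp only [Pi.neg_apply, hc.2 σ τ, map_neg]; abel⟩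

/-- 1-coboundaries. -/
def B1 {G : Type} (ρ : G → A →+ A) : AddSubgroup (G → A) where
  carrier := {c | ∃ P : A, ∀ σ, c σ = ρ σ P - P}
  zero_mem' := ⟨0, by simp⟩
  add_mem' := fun {c d} ⟨P, hP⟩ ⟨Q, hQ⟩ => ⟨P + Q, fun σ => by
    simp only [Pi.add_apply, hP σ, hQ σ, map_add]; abel⟩
  neg_mem' := fun {c} ⟨P, hP⟩ => ⟨-P, fun σ => by
    simp only [Pi.neg_apply, hP σ, map_neg]; abel⟩

/-- The continuous cohomology group `H¹(G, A)`. -/
def H1 : Type := Z1 ρ ⧸ (B1 ρ).addSubgroupOf (Z1 ρ)

/-- The quotient group structure on `H¹(G, A)`. -/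
instance instAddCommGroupH1 : AddCommGroup (H1 ρ) := QuotientAddGroup.Quotient.addCommGroup _

/-- The class of a cocycle. -/
def H1.mk (c : Z1 ρ) : H1 ρ := QuotientAddGroup.mk c

end

open Classical

/-- The group of `K`-points of the Weierstrass curve `W`. -/
abbrev Pt (W : WeierstrassCurve ℚ) (K : Type) [Field K] [Algebra ℚ K] : Type :=
  (W.baseChange K).toAffine.Point

/-- The map on points induced by a field homomorphism. -/
noncomputable def ptMap (W : WeierstrassCurve ℚ) {K L : Type} [Field K] [Algebra ℚ K] [Field L]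
    [Algebra ℚ L] [DecidableEq K] [DecidableEq L] (f : K →+* L) : Pt W K →+ Pt W L :=
  WeierstrassCurve.Affine.Point.map (W' := W.toAffine) f.toRatAlgHom

/-- The action of the absolute Galois group of `ℚ` on the geometric points. -/
noncomputable abbrev ac (W : WeierstrassCurve ℚ) (σ : AlgebraicClosure ℚ ≃ₐ[ℚ] AlgebraicClosure ℚ) :
    Pt W (AlgebraicClosure ℚ) →+ Pt W (AlgebraicClosure ℚ) :=
  ptMap W (σ : AlgebraicClosure ℚ →+* AlgebraicClosure ℚ)

instance instIsAlgebraicQbar : Algebra.IsAlgebraic ℚ (AlgebraicClosure ℚ) :=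
  AlgebraicClosure.isAlgebraic ℚ

/-- A fixed embedding of the algebraic closure of `ℚ` in the algebraic closure of `K`. -/
noncomputable def emb (K : Type) [Field K] [CharZero K] :
    AlgebraicClosure ℚ →+* AlgebraicClosure K :=
  (IsAlgClosed.lift : AlgebraicClosure ℚ →ₐ[ℚ] AlgebraicClosure K)

/-- The restriction of the cocycle `c` to the absolute Galois group of `K` is a coboundary in
`W(AlgebraicClosure K)`; here `τ` is the restriction of `σ` along the fixed embedding. -/
def LocTriv (W : WeierstrassCurve ℚ) (K : Type) [Field K] [CharZero K]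
    (c : (AlgebraicClosure ℚ ≃ₐ[ℚ] AlgebraicClosure ℚ) → Pt W (AlgebraicClosure ℚ)) : Prop :=
  ∃ R : Pt W (AlgebraicClosure K), ∀ (σ : AlgebraicClosure K ≃ₐ[K] AlgebraicClosure K)
    (τ : AlgebraicClosure ℚ ≃ₐ[ℚ] AlgebraicClosure ℚ), (∀ x, emb K (τ x) = σ (emb K x)) →
      ptMap W (emb K) (c τ) = ptMap W (σ : AlgebraicClosure K →+* AlgebraicClosure K) R - R

/-- The Galois cohomology group `H¹(ℚ, W)`. -/
def H1Q (W : WeierstrassCurve ℚ) : Type := H1 (ac W)

/-- The group structure on `H¹(ℚ, W)`. -/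
noncomputable instance instAddCommGroupH1Q (W : WeierstrassCurve ℚ) : AddCommGroup (H1Q W) :=
  instAddCommGroupH1 (ac W)

/-- The Tate-Shafarevich group: classes that are trivial over `ℝ` and over every `ℚ_[p]`. -/
def Sha (W : WeierstrassCurve ℚ) : Set (H1Q W) :=
  {x | ∃ c : Z1 (ac W), H1.mk (ac W) c = x ∧ LocTriv W ℝ c ∧
    ∀ (p : ℕ) [Fact p.Prime], LocTriv W ℚ_[p] c}

end Pool.Agent.MP_a43263_nt
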