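import Mathlib.FieldTheory.Galois.Infinite
import Mathlib.FieldTheory.PurelyInseparable.Basic
import Mathlib.RingTheory.PiTensorProduct
import Pool.Agent.MP_a43263_nt.Defs

-- ======== part 0: formerly Pool.Agent.MP_a43263_nt.H90
section MrgPart0

namespace Pool.Agent.MP_a43263_nt

open Classical

/-- the algebraic closure of `ℚ` -/
abbrev Qbar : Type := AlgebraicClosure ℚ

instance : IsAlgClosure ℚ Qbar := ⟨inferInstance, inferInstance⟩

theorem h90 (H : Subgroup (Qbar ≃ₐ[ℚ] Qbar)) (c : (Qbar ≃ₐ[ℚ] Qbar) → Qbar)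
    (hc0 : ∀ σ ∈ H, c σ ≠ 0) (hc : ∀ σ ∈ H, ∀ τ ∈ H, c (σ * τ) = c σ * σ (c τ))
    (L : IntermediateField ℚ Qbar) [FiniteDimensional ℚ L]
    (hL : ∀ σ ∈ H, σ ∈ L.fixingSubgroup → c σ = 1) :
    ∃ β : Qbar, β ≠ 0 ∧ ∀ σ ∈ H, σ β = c σ * β := by
  let res : (Qbar ≃ₐ[ℚ] Qbar) → (L →ₐ[ℚ] Qbar) := fun σ => (σ : Qbar →ₐ[ℚ] Qbar).comp L.val
  let d : (L →ₐ[ℚ] Qbar) → Qbar := fun i =>
    if h : ∃ σ ∈ H, res σ = i then c h.choose else 0
  have hd : ∀ σ ∈ H, d (res σ) = c σ := by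
    intro σ hσ
    have h : ∃ σ' ∈ H, res σ' = res σ := ⟨σ, hσ, rfl⟩
    simp only [d, dif_pos h]
    obtain ⟨h1, h2⟩ := h.choose_spec
    set σ' := h.choose
    have hm : σ⁻¹ * σ' ∈ H := H.mul_mem (H.inv_mem hσ) h1
    have : c (σ⁻¹ * σ') = 1 := by
      refine hL _ hm ?_
      rw [IntermediateField.mem_fixingSubgroup_iff]
      intro x hx
      have : σ' x = σ x := DFunLike.congr_fun h2 ⟨x, hx⟩
      rw [AlgEquiv.mul_apply, this]
      exact σ.symm_apply_apply x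
    have e := hc σ hσ _ hm
    rw [this, mul_inv_cancel_left] at e
    simpa using e
  let mv : (Qbar ≃ₐ[ℚ] Qbar) → (L →ₐ[ℚ] Qbar) ≃ (L →ₐ[ℚ] Qbar) := fun τ =>
    { toFun := fun i => (τ : Qbar →ₐ[ℚ] Qbar).comp i
      invFun := fun i => (τ.symm : Qbar →ₐ[ℚ] Qbar).comp i
      left_inv := fun i => by ext x; simp
      right_inv := fun i => by ext x; simp }
  have hmv : ∀ τ ∈ H, ∀ i, d (mv τ i) = c τ * τ (d i) := by
    intro τ hτ i
    by_cases h : ∃ σ ∈ H, res σ = i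
    · obtain ⟨σ, hσ, rfl⟩ := h
      have : mv τ (res σ) = res (τ * σ) := by ext x; simp [mv, res]
      rw [this, hd _ (H.mul_mem hτ hσ), hd _ hσ, hc τ hτ σ hσ]
    · have h' : ¬∃ σ ∈ H, res σ = mv τ i := by
        rintro ⟨σ, hσ, e⟩
        refine h ⟨τ⁻¹ * σ, H.mul_mem (H.inv_mem hτ) hσ, ?_⟩
        ext x
        have : σ x = τ (i x) := DFunLike.congr_fun e x
        change (τ⁻¹ * σ) x = i x
        rw [AlgEquiv.mul_apply, this]
        exact τ.symm_apply_apply _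
      simp [d, dif_neg h, dif_neg h']
  let _ : Fintype (L →ₐ[ℚ] Qbar) := Fintype.ofFinite _
  obtain ⟨x, hx⟩ : ∃ x : L, ∑ i, d i * i x ≠ 0 := by
    by_contra hcon
    push Not at hcon
    have := Fintype.linearIndependent_iff.1 (linearIndependent_algHom_toLinearMap ℚ L Qbar) d
      (by ext x; simpa using hcon x) (res 1)
    rw [hd 1 H.one_mem] at this
    exact hc0 1 H.one_mem this
  refine ⟨(∑ i, d i * i x)⁻¹, inv_ne_zero hx, fun σ hσ => ?_⟩
  have e : ∑ i, d i * i x = c σ * σ (∑ i, d i * i x) := by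
    rw [map_sum, Finset.mul_sum, ← Equiv.sum_comp (mv σ)]
    refine Finset.sum_congr rfl fun i _ => ?_
    rw [hmv σ hσ, map_mul, mul_assoc]
    rfl
  have h1 := hc0 σ hσ
  have h2 : σ (∑ i, d i * i x) ≠ 0 := (map_ne_zero σ).2 hx
  rw [map_inv₀]
  conv_rhs => rw [e]
  field_simp

theorem exists_level {A : Type*} (c : (Qbar ≃ₐ[ℚ] Qbar) → A) (hc : IsLocallyConstant c) :
    ∃ L : IntermediateField ℚ Qbar, FiniteDimensional ℚ L ∧
      ∀ σ ∈ L.fixingSubgroup, c σ = c 1 := by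
  obtain ⟨L, h1, h2⟩ := (krullTopology_mem_nhds_one_iff ℚ Qbar _).1 (hc.eventually_eq 1)
  exact ⟨L, h1, fun σ hσ => h2 hσ⟩

theorem rat_of_fixed {x : Qbar} (h : ∀ σ : Qbar ≃ₐ[ℚ] Qbar, σ x = x) : ∃ q : ℚ, (q : Qbar) = x := by
  obtain ⟨q, hq⟩ := (InfiniteGalois.mem_range_algebraMap_iff_fixed (k := ℚ) x).2 h
  exact ⟨q, by simpa using hq⟩

theorem exists_res (K : Type) [Field K] [CharZero K]
    (σ : AlgebraicClosure K ≃ₐ[K] AlgebraicClosure K) :
    ∃ τ : Qbar ≃ₐ[ℚ] Qbar, ∀ x, emb K (τ x) = σ (emb K x) := by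
  let _ : Algebra Qbar (AlgebraicClosure K) := (emb K).toAlgebra
  have : IsScalarTower ℚ Qbar (AlgebraicClosure K) :=
    IsScalarTower.of_algebraMap_eq' (Subsingleton.elim _ _)
  let σ' : AlgebraicClosure K ≃ₐ[ℚ] AlgebraicClosure K :=
    AlgEquiv.ofRingEquiv (f := σ.toRingEquiv) (fun q => by simp)
  exact ⟨σ'.restrictNormal Qbar, fun x => σ'.restrictNormal_commutes Qbar x⟩

theorem local_point (K : Type) [Field K] [CharZero K] {g0 g1 g2 ρ : AlgebraicClosure K}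
    {A B β : K} (hρ : ρ ≠ 0) (hβ : ρ ^ 3 = algebraMap K _ β)
    (e : g0 ^ 3 + g1 ^ 3 + algebraMap K _ B * g2 ^ 3 = 3 * algebraMap K _ A * g0 * g1 * g2)
    (hne : ¬(g0 = 0 ∧ g1 = 0 ∧ g2 = 0))
    (h : ∀ σ : AlgebraicClosure K ≃ₐ[K] AlgebraicClosure K, ∃ u k, σ ρ = u * ρ ∧
      σ g0 = k * (u * g0) ∧ σ g1 = k * (u ^ 2 * g1) ∧ σ g2 = k * g2) :
    ∃ X Y Z : K, ¬(X = 0 ∧ Y = 0 ∧ Z = 0) ∧
      β * X ^ 3 + β ^ 2 * Y ^ 3 + B * Z ^ 3 = 3 * A * β * X * Y * Z := by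
  have h' : ∀ σ : AlgebraicClosure K ≃ₐ[K] AlgebraicClosure K, ∃ k,
      σ (g0 / ρ) = k * (g0 / ρ) ∧ σ (g1 / ρ ^ 2) = k * (g1 / ρ ^ 2) ∧ σ g2 = k * g2 := by
    intro σ
    obtain ⟨u, k, e1, e2, e3, e4⟩ := h σ
    have hu : u ≠ 0 := by
      rintro rfl
      exact hρ (by simpa using e1)
    refine ⟨k, ?_, ?_, e4⟩
    · rw [map_div₀, e1, e2]; field_simp
    · rw [map_div₀, map_pow, e1, e3]; field_simp
  obtain ⟨t, ht, htf⟩ : ∃ t : AlgebraicClosure K, t ≠ 0 ∧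
      (t = g0 / ρ ∨ t = g1 / ρ ^ 2 ∨ t = g2) := by
    by_contra hcon
    push Not at hcon
    refine hne ⟨?_, ?_, ?_⟩
    · by_contra h0; exact (hcon _ (div_ne_zero h0 hρ)).1 rfl
    · by_contra h0; exact (hcon _ (div_ne_zero h0 (pow_ne_zero _ hρ))).2.1 rfl
    · by_contra h0; exact (hcon _ h0).2.2 rfl
  have hfix : ∀ v, (v = g0 / ρ ∨ v = g1 / ρ ^ 2 ∨ v = g2) → ∃ x, algebraMap K _ x = v / t := by
    intro v hv
    refine (InfiniteGalois.mem_range_algebraMap_iff_fixed (k := K) _).2 fun σ => ?_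
    obtain ⟨k, e1, e2, e3⟩ := h' σ
    have a1 : σ v = k * v := by rcases hv with rfl | rfl | rfl <;> assumption
    have a2 : σ t = k * t := by rcases htf with rfl | rfl | rfl <;> assumption
    have hk : k ≠ 0 := by
      rintro rfl
      exact ht (by simpa using a2)
    rw [map_div₀, a1, a2]; field_simp
  obtain ⟨X, hX⟩ := hfix _ (.inl rfl)
  obtain ⟨Y, hY⟩ := hfix _ (.inr (.inl rfl))
  obtain ⟨Z, hZ⟩ := hfix _ (.inr (.inr rfl))
  refine ⟨X, Y, Z, ?_, ?_⟩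
  · rintro ⟨rfl, rfl, rfl⟩
    refine hne ⟨?_, ?_, ?_⟩
    · simpa [ht, hρ] using hX.symm
    · simpa [ht, hρ] using hY.symm
    · simpa [ht] using hZ.symm
  · apply (algebraMap K (AlgebraicClosure K)).injective
    simp only [map_add, map_mul, map_pow, hX, hY, hZ, ← hβ, map_ofNat]
    field_simp
    linear_combination e

end Pool.Agent.MP_a43263_nt

end MrgPart0

-- ======== part 1: formerly Pool.Agent.MP_a43263_nt.Rep
section MrgPart1

namespace Pool.Agent.MP_a43263_nt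

open WeierstrassCurve WeierstrassCurve.Affine

variable {F : Type*} [Field F]

/-- the curve is `y^2 + 3 a x y + b y = x^3` and is smooth -/
structure IsW (V : WeierstrassCurve.Affine F) (a b : F) : Prop where
  h1 : V.a₁ = 3 * a
  h2 : V.a₂ = 0
  h3 : V.a₃ = b
  h4 : V.a₄ = 0
  h6 : V.a₆ = 0
  hb : b ≠ 0
  hc : a ^ 3 - b ≠ 0
  three : (3 : F) ≠ 0

/-- projective coordinates of a point -/
def Rep {V : WeierstrassCurve.Affine F} : V.Point → F → F → F → Prop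
  | .zero, X, Y, Z => X = 0 ∧ Y ≠ 0 ∧ Z = 0
  | .some x y _, X, Y, Z => X = x * Z ∧ Y = y * Z ∧ Z ≠ 0

variable {V : WeierstrassCurve.Affine F} {a b : F}

theorem IsW.delta (h : IsW V a b) : V.Δ ≠ 0 := by
  have : V.Δ = 3 ^ 3 * b ^ 3 * (a ^ 3 - b) := by
    simp only [Δ, b₂, b₄, b₆, b₈, h.h1, h.h2, h.h3, h.h4, h.h6]; ring
  rw [this]
  exact mul_ne_zero (mul_ne_zero (pow_ne_zero _ h.three) (pow_ne_zero _ h.hb)) h.hc

theorem IsW.eqn (h : IsW V a b) {x y : F} (hP : V.Nonsingular x y) :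
    y ^ 2 + 3 * a * x * y + b * y = x ^ 3 := by
  have := (equation_iff _ _).1 hP.1
  rw [h.h1, h.h2, h.h3, h.h4, h.h6] at this
  linear_combination this

theorem IsW.ns (h : IsW V a b) {x y : F} (e : y ^ 2 + 3 * a * x * y + b * y = x ^ 3) :
    V.Nonsingular x y := by
  rw [← equation_iff_nonsingular_of_Δ_ne_zero h.delta, equation_iff, h.h1, h.h2, h.h3, h.h4, h.h6]
  linear_combination e

theorem exists_rep (P : V.Point) : ∃ X Y Z, Rep P X Y Z := by
  rcases P with _ | ⟨x, y, h⟩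
  · exact ⟨0, 1, 0, rfl, one_ne_zero, rfl⟩
  · exact ⟨x, y, 1, by simp, by simp, one_ne_zero⟩

theorem rep_zero {X Y Z : F} : Rep (0 : V.Point) X Y Z ↔ X = 0 ∧ Y ≠ 0 ∧ Z = 0 := Iff.rfl

theorem rep_some {x y X Y Z : F} {h : V.Nonsingular x y} :
    Rep (.some x y h) X Y Z ↔ X = x * Z ∧ Y = y * Z ∧ Z ≠ 0 := Iff.rfl

theorem IsW.rep_exists (h : IsW V a b) {X Y Z : F}
    (e : Y ^ 2 * Z + 3 * a * X * Y * Z + b * Y * Z ^ 2 = X ^ 3)
    (hne : ¬(X = 0 ∧ Y = 0 ∧ Z = 0)) : ∃ P : V.Point, Rep P X Y Z := by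
  by_cases hZ : Z = 0
  · subst hZ
    have hX : X = 0 := pow_eq_zero_iff (three_ne_zero) |>.1 (by linear_combination -e)
    exact ⟨0, hX, fun hY => hne ⟨hX, hY, rfl⟩, rfl⟩
  · refine ⟨.some (X / Z) (Y / Z) (h.ns ?_), by field_simp, by field_simp, hZ⟩
    field_simp
    linear_combination e

theorem Rep.smul {P : V.Point} {X Y Z k : F} (h : Rep P X Y Z) (hk : k ≠ 0) :
    Rep P (k * X) (k * Y) (k * Z) := by
  rcases P with _ | ⟨x, y, hP⟩
  · obtain ⟨h1, h2, h3⟩ := h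
    exact ⟨by simp [h1], mul_ne_zero hk h2, by simp [h3]⟩
  · obtain ⟨h1, h2, h3⟩ := h
    exact ⟨by rw [h1]; ring, by rw [h2]; ring, mul_ne_zero hk h3⟩

theorem Rep.prop {P : V.Point} {X Y Z X' Y' Z' : F} (h : Rep P X Y Z) (h' : Rep P X' Y' Z') :
    ∃ k : F, k ≠ 0 ∧ X' = k * X ∧ Y' = k * Y ∧ Z' = k * Z := by
  rcases P with _ | ⟨x, y, hP⟩
  · obtain ⟨h1, h2, h3⟩ := h
    obtain ⟨h1', h2', h3'⟩ := h'
    exact ⟨Y' / Y, div_ne_zero h2' h2, by simp [h1, h1'], by field_simp, by simp [h3, h3']⟩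
  · obtain ⟨h1, h2, h3⟩ := h
    obtain ⟨h1', h2', h3'⟩ := h'
    exact ⟨Z' / Z, div_ne_zero h3' h3, by rw [h1, h1']; field_simp, by rw [h2, h2']; field_simp,
      by field_simp⟩

theorem Rep.unique {P Q : V.Point} {X Y Z : F} (h : Rep P X Y Z) (h' : Rep Q X Y Z) : P = Q := by
  rcases P with _ | ⟨x, y, hP⟩ <;> rcases Q with _ | ⟨x', y', hQ⟩
  · rfl
  · exact absurd h.2.2 h'.2.2
  · exact absurd h'.2.2 h.2.2
  · obtain ⟨h1, h2, h3⟩ := h
    obtain ⟨h1', h2', -⟩ := h'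
    have e1 : x = x' := mul_right_cancel₀ h3 (h1.symm.trans h1')
    have e2 : y = y' := mul_right_cancel₀ h3 (h2.symm.trans h2')
    subst e1 e2
    rfl

theorem Rep.ne {P : V.Point} {X Y Z : F} (h : Rep P X Y Z) : ¬(X = 0 ∧ Y = 0 ∧ Z = 0) := by
  rcases P with _ | ⟨x, y, hP⟩
  · exact fun h' => h.2.1 h'.2.1
  · exact fun h' => h.2.2 h'.2.2

theorem Rep.eq_zero_iff {P : V.Point} {X Y Z : F} (h : Rep P X Y Z) : P = 0 ↔ Z = 0 := by
  rcases P with _ | ⟨x, y, hP⟩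
  · exact ⟨fun _ => h.2.2, fun _ => rfl⟩
  · exact ⟨fun h' => absurd h' (Point.some_ne_zero _), fun h' => absurd h' h.2.2⟩

theorem IsW.rep_on (hW : IsW V a b) {P : V.Point} {X Y Z : F} (h : Rep P X Y Z) :
    Y ^ 2 * Z + 3 * a * X * Y * Z + b * Y * Z ^ 2 = X ^ 3 := by
  rcases P with _ | ⟨x, y, hP⟩
  · obtain ⟨h1, -, h3⟩ := h
    simp [h1, h3]
  · obtain ⟨rfl, rfl, -⟩ := h
    linear_combination Z ^ 3 * hW.eqn hP

theorem IsW.rep_neg (hW : IsW V a b) {P : V.Point} {X Y Z : F} (h : Rep P X Y Z) :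
    Rep (-P) X (-Y - 3 * a * X - b * Z) Z := by
  rcases P with _ | ⟨x, y, hP⟩
  · obtain ⟨h1, h2, h3⟩ := h
    exact ⟨h1, by simpa [h1, h3] using h2, h3⟩
  · obtain ⟨rfl, rfl, h3⟩ := h
    refine ⟨rfl, ?_, h3⟩
    rw [negY, hW.h1, hW.h3]; ring

/-- polar form -/
def pol (a b X Y Z X' Y' Z' : F) : F :=
  (3 * a * Y * Z - 3 * X ^ 2) * X' + (2 * Y * Z + 3 * a * X * Z + b * Z ^ 2) * Y' +
    (Y ^ 2 + 3 * a * X * Y + 2 * b * Y * Z) * Z'

theorem IsW.chord [DecidableEq F] (hW : IsW V a b) {P Q : V.Point} {X Y Z X' Y' Z' l m : F}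
    (h : Rep P X Y Z) (h' : Rep Q X' Y' Z') (hPQ : P ≠ Q)
    (e : l * pol a b X Y Z X' Y' Z' + m * pol a b X' Y' Z' X Y Z = 0) (hlm : ¬(l = 0 ∧ m = 0)) :
    Rep (-(P + Q)) (l * X + m * X') (l * Y + m * Y') (l * Z + m * Z') := by
  unfold pol at e
  rcases P with _ | ⟨x, y, hP⟩ <;> rcases Q with _ | ⟨x', y', hQ⟩
  · exact absurd rfl hPQ
  · obtain ⟨rfl, h2, rfl⟩ := h
    obtain ⟨rfl, rfl, h3'⟩ := h'
    have hm : m ≠ 0 := by
      rintro rfl
      refine hlm ⟨?_, rfl⟩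
      have : l * (Y ^ 2 * Z') = 0 := by linear_combination e
      exact (mul_eq_zero.1 this).resolve_right (mul_ne_zero (pow_ne_zero _ h2) h3')
    rw [← Point.zero_def, zero_add, Point.neg_some]
    refine ⟨by ring, ?_, by simpa using ⟨hm, h3'⟩⟩
    rw [negY, hW.h1, hW.h3]
    apply mul_left_cancel₀ (mul_ne_zero h2 h3')
    linear_combination e
  · obtain ⟨rfl, h2, rfl⟩ := h'
    obtain ⟨rfl, rfl, h3⟩ := h
    have hl : l ≠ 0 := by
      rintro rfl
      refine hlm ⟨rfl, ?_⟩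
      have : m * (Y' ^ 2 * Z) = 0 := by linear_combination e
      exact (mul_eq_zero.1 this).resolve_right (mul_ne_zero (pow_ne_zero _ h2) h3)
    rw [← Point.zero_def, add_zero, Point.neg_some]
    refine ⟨by ring, ?_, by simpa using ⟨hl, h3⟩⟩
    rw [negY, hW.h1, hW.h3]
    apply mul_left_cancel₀ (mul_ne_zero h2 h3)
    linear_combination e
  · obtain ⟨rfl, rfl, h3⟩ := h
    obtain ⟨rfl, rfl, h3'⟩ := h'
    have e1 := hW.eqn hP
    have e2 := hW.eqn hQ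
    set L := l * Z with hL
    set M := m * Z' with hM
    have hLM : ¬(L = 0 ∧ M = 0) := fun hh =>
      hlm ⟨(mul_eq_zero.1 hh.1).resolve_right h3, (mul_eq_zero.1 hh.2).resolve_right h3'⟩
    have e' : L * pol a b x y 1 x' y' 1 + M * pol a b x' y' 1 x y 1 = 0 := by
      unfold pol
      apply mul_left_cancel₀ (mul_ne_zero h3 h3')
      rw [hL, hM]
      linear_combination e
    unfold pol at e'
    have t1 : l * (x * Z) + m * (x' * Z') = L * x + M * x' := by rw [hL, hM]; ring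
    have t2 : l * (y * Z) + m * (y' * Z') = L * y + M * y' := by rw [hL, hM]; ring
    rw [t1, t2]
    clear_value L M
    by_cases hx : x = x'
    · subst hx
      have hy : y ≠ y' := by rintro rfl; exact hPQ rfl
      have hy' : y = V.negY x y' := (Y_eq_of_X_eq hP.1 hQ.1 rfl).resolve_left hy
      rw [Point.add_of_Y_eq rfl hy', neg_zero]
      rw [negY, hW.h1, hW.h3] at hy'
      have hs : L + M = 0 := by
        apply mul_left_cancel₀ (pow_ne_zero 2 (sub_ne_zero.2 hy))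
        subst hy'
        linear_combination -e' + 3 * (L + M) * e2
      have hM' : M = -L := by linear_combination hs
      subst hM'
      refine ⟨by ring, ?_, by ring⟩
      intro h0
      have : L * (y - y') = 0 := by linear_combination h0
      rcases mul_eq_zero.1 this with h | h
      · exact hLM ⟨h, by simp [h]⟩
      · exact hy (sub_eq_zero.1 h)
    · have hd : x - x' ≠ 0 := sub_ne_zero.2 hx
      rw [Point.add_of_X_ne' hx, neg_neg]
      have hs : L + M ≠ 0 := by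
        intro hs
        have hM' : M = -L := by linear_combination hs
        subst hM'
        have : L * (x - x') ^ 3 = 0 := by linear_combination e' + L * e2 - L * e1
        rcases mul_eq_zero.1 this with h | h
        · exact hLM ⟨h, by simp [h]⟩
        · exact hd (pow_eq_zero_iff three_ne_zero |>.1 h)
      have hX : L * x + M * x' = V.addX x x' (V.slope x x' y y') * (L + M) := by
        rw [slope_of_X_ne hx, addX, hW.h1, hW.h2]
        field_simp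
        grind
      refine ⟨hX, ?_, hs⟩
      rw [negAddY, add_mul, mul_assoc, sub_mul, ← hX, slope_of_X_ne hx]
      field_simp
      ring

section
variable {K L : Type*} [Field K] [Field L] [Algebra ℚ K] [Algebra ℚ L] [DecidableEq K]
  [DecidableEq L] {W : WeierstrassCurve ℚ}

theorem Rep.map (f : K →ₐ[ℚ] L) {P : (W.baseChange K).toAffine.Point} {X Y Z : K}
    (h : Rep P X Y Z) : Rep (Point.map (W' := W.toAffine) f P) (f X) (f Y) (f Z) := by
  rcases P with _ | ⟨x, y, hP⟩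
  · obtain ⟨h1, h2, h3⟩ := h
    exact ⟨by simp [h1], by simpa using h2, by simp [h3]⟩
  · obtain ⟨h1, h2, h3⟩ := h
    exact ⟨by simp [h1], by simp [h2], by simpa using h3⟩

end

end Pool.Agent.MP_a43263_nt

end MrgPart1

-- ======== part 2: formerly Pool.Agent.MP_a43263_nt.Hess
section MrgPart2

namespace Pool.Agent.MP_a43263_nt

open WeierstrassCurve WeierstrassCurve.Affine

variable {F : Type*} [Field F] {V : WeierstrassCurve.Affine F} {a b w : F}

/-- Hessian coordinates -/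
def HRep (a b w : F) (P : V.Point) (r s z : F) : Prop :=
  Rep P (-(b * z)) (b * (w * r + w ^ 2 * s + a * z)) (r + s + a * z)

theorem HRep.smul {P : V.Point} {r s z k : F} (h : HRep a b w P r s z) (hk : k ≠ 0) :
    HRep a b w P (k * r) (k * s) (k * z) := by
  have := Rep.smul h hk
  unfold HRep
  convert this using 1 <;> ring

theorem HRep.unique {P Q : V.Point} {r s z : F} (h : HRep a b w P r s z)
    (h' : HRep a b w Q r s z) : P = Q := Rep.unique h h'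

theorem HRep.ne {P : V.Point} {r s z : F} (h : HRep a b w P r s z) :
    ¬(r = 0 ∧ s = 0 ∧ z = 0) := by
  rintro ⟨rfl, rfl, rfl⟩
  exact Rep.ne h (by simp)

theorem w_ne_one (h3 : (3 : F) ≠ 0) (hw : w ^ 2 + w + 1 = 0) : w - 1 ≠ 0 := by
  intro h
  have : w = 1 := by linear_combination h
  subst this
  exact h3 (by linear_combination hw)

theorem w_ne_zero (hw : w ^ 2 + w + 1 = 0) : w ≠ 0 := by
  rintro rfl
  simp at hw

theorem cube_root_cases (hw : w ^ 2 + w + 1 = 0) {u : F} (hu : u ^ 3 = 1) :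
    u = 1 ∨ u = w ∨ u = w ^ 2 := by
  have : (u - 1) * ((u - w) * (u - w ^ 2)) = 0 := by grind
  rcases mul_eq_zero.1 this with h | h
  · exact .inl (sub_eq_zero.1 h)
  · rcases mul_eq_zero.1 h with h | h
    · exact .inr (.inl (sub_eq_zero.1 h))
    · exact .inr (.inr (sub_eq_zero.1 h))

theorem IsW.hprop (hW : IsW V a b) (hw : w ^ 2 + w + 1 = 0) {P : V.Point} {r s z r' s' z' : F}
    (h : HRep a b w P r s z) (h' : HRep a b w P r' s' z') :
    ∃ k : F, k ≠ 0 ∧ r' = k * r ∧ s' = k * s ∧ z' = k * z := by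
  obtain ⟨k, hk, e1, e2, e3⟩ := Rep.prop h h'
  have e1' : z' = k * z := mul_left_cancel₀ hW.hb (by linear_combination -e1)
  have e2' : w * r' + w ^ 2 * s' + a * z' = k * (w * r + w ^ 2 * s + a * z) :=
    mul_left_cancel₀ hW.hb (by linear_combination e2)
  refine ⟨k, hk, ?_, ?_, e1'⟩
  · apply mul_left_cancel₀ hW.three
    grind
  · apply mul_left_cancel₀ hW.three
    grind

theorem IsW.exists_hrep (hW : IsW V a b) (hw : w ^ 2 + w + 1 = 0) (P : V.Point) :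
    ∃ r s z, HRep a b w P r s z := by
  obtain ⟨X, Y, Z, h⟩ := exists_rep P
  refine ⟨b * Z + w ^ 2 * Y + w * (-Y - 3 * a * X - b * Z),
    b * Z + w * Y + w ^ 2 * (-Y - 3 * a * X - b * Z), -3 * X, ?_⟩
  have := h.smul (mul_ne_zero hW.three hW.hb)
  unfold HRep
  convert this using 1 <;> grind

theorem IsW.hon (hW : IsW V a b) (hw : w ^ 2 + w + 1 = 0) {P : V.Point} {r s z : F}
    (h : HRep a b w P r s z) : r ^ 3 + s ^ 3 + (a ^ 3 - b) * z ^ 3 = 3 * a * r * s * z := by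
  have := hW.rep_on h
  apply mul_left_cancel₀ (pow_ne_zero 2 hW.hb)
  grind

theorem IsW.hrep_exists (hW : IsW V a b) (hw : w ^ 2 + w + 1 = 0) {r s z : F}
    (e : r ^ 3 + s ^ 3 + (a ^ 3 - b) * z ^ 3 = 3 * a * r * s * z)
    (hne : ¬(r = 0 ∧ s = 0 ∧ z = 0)) : ∃ P : V.Point, HRep a b w P r s z := by
  refine hW.rep_exists (by grind) ?_
  rintro ⟨h1, h2, h3⟩
  have hz : z = 0 := (mul_eq_zero.1 (neg_eq_zero.1 h1)).resolve_left hW.hb
  have h2' := (mul_eq_zero.1 h2).resolve_left hW.hb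
  subst hz
  refine hne ⟨?_, ?_, rfl⟩
  · apply mul_left_cancel₀ hW.three
    grind
  · apply mul_left_cancel₀ hW.three
    grind

theorem IsW.hneg (hW : IsW V a b) (hw : w ^ 2 + w + 1 = 0) {P : V.Point} {r s z : F}
    (h : HRep a b w P r s z) : HRep a b w (-P) s r z := by
  have := hW.rep_neg h
  unfold HRep
  convert this using 1 <;> grind

theorem hrep_swap (hw : w ^ 2 + w + 1 = 0) {P : V.Point} {r s z : F}
    (h : HRep a b w P r s z) : HRep a b (w ^ 2) P s r z := by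
  unfold HRep at *
  convert h using 1 <;> grind

theorem IsW.hrep_zero (hW : IsW V a b) (hw : w ^ 2 + w + 1 = 0) :
    HRep a b w (0 : V.Point) 1 (-1) 0 := by
  refine ⟨by simp, mul_ne_zero hW.hb ?_, by simp⟩
  have := mul_ne_zero (w_ne_zero hw) (w_ne_one hW.three hw)
  intro h
  exact this (by linear_combination -h)

theorem IsW.g01_ne (hW : IsW V a b) (hw : w ^ 2 + w + 1 = 0) {P : V.Point} {r s z : F}
    (h : HRep a b w P r s z) : ¬((a ^ 3 - b) * z ^ 3 + w ^ 2 * r ^ 3 + w * s ^ 3 = 0 ∧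
      (a ^ 3 - b) * z ^ 3 + w * r ^ 3 + w ^ 2 * s ^ 3 = 0) := by
  rintro ⟨e1, e2⟩
  have hon := hW.hon hw h
  have e3 : r ^ 3 = s ^ 3 :=
    mul_left_cancel₀ (mul_ne_zero (w_ne_zero hw) (w_ne_one hW.three hw)) (by grind)
  have e4 : (a ^ 3 - b) * z ^ 3 = r ^ 3 := by grind
  have e5 : r ^ 3 = a * r * s * z := mul_left_cancel₀ hW.three (by grind)
  have e6 : (r ^ 3) ^ 2 * (b * z ^ 3) = 0 := by
    have : (r ^ 3) ^ 3 = a ^ 3 * z ^ 3 * (r ^ 3) ^ 2 := by
      calc (r ^ 3) ^ 3 = (a * r * s * z) ^ 3 := by rw [← e5]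
        _ = a ^ 3 * z ^ 3 * r ^ 3 * s ^ 3 := by ring
        _ = _ := by rw [← e3]; ring
    linear_combination (-(r ^ 3) ^ 2) * e4 - this
  have hr : r = 0 := by
    by_contra hr
    have hz : z = 0 := by
      simpa [hr, hW.hb] using e6
    subst hz
    exact pow_ne_zero 3 hr (by linear_combination -e4)
  subst hr
  refine h.ne ⟨rfl, pow_eq_zero_iff three_ne_zero |>.1 (by linear_combination -e3), ?_⟩
  simpa [hW.hc] using e4

/-- polar form in Hessian coordinates -/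
def hpol (a b r s z r' s' z' : F) : F :=
  (r ^ 2 - a * s * z) * r' + (s ^ 2 - a * r * z) * s' + ((a ^ 3 - b) * z ^ 2 - a * r * s) * z'

variable [DecidableEq F]

theorem IsW.hchord (hW : IsW V a b) (hw : w ^ 2 + w + 1 = 0) {P Q : V.Point}
    {r s z r' s' z' l m : F} (h : HRep a b w P r s z) (h' : HRep a b w Q r' s' z') (hPQ : P ≠ Q)
    (e : l * hpol a b r s z r' s' z' + m * hpol a b r' s' z' r s z = 0) (hlm : ¬(l = 0 ∧ m = 0)) :
    HRep a b w (P + Q) (l * s + m * s') (l * r + m * r') (l * z + m * z') := by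
  have := hW.chord (l := l) (m := m) h h' hPQ (by unfold pol; unfold hpol at e; grind) hlm
  rw [← neg_neg (P + Q)]
  apply hW.hneg hw
  unfold HRep
  convert this using 1 <;> ring

theorem IsW.tr1_aux (hW : IsW V a b) (hw : w ^ 2 + w + 1 = 0) {P S : V.Point} {r s z u : F}
    (hu : u ^ 3 = 1) (hS : HRep a b w S 1 (-u) 0) (h : HRep a b w P r s z) (hPS : P ≠ S) :
    HRep a b w (P + S) (u * r) (u ^ 2 * s) z := by
  have := hW.hchord hw (l := 1) (m := u ^ 2 * s - r) h hS hPS (by unfold hpol; grind) (by simp)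
  convert this using 1 <;> grind

theorem IsW.tr2_aux (hW : IsW V a b) (hw : w ^ 2 + w + 1 = 0) {P S : V.Point} {r s z c : F}
    (hc : c ^ 3 = a ^ 3 - b) (hS : HRep a b w S 0 (-c) 1) (h : HRep a b w P r s z) (hPS : P ≠ S) :
    HRep a b w (P + S) (c ^ 2 * z) (c * r) s := by
  have hc0 : c ≠ 0 := by rintro rfl; exact hW.hc (by linear_combination -hc)
  have := hW.hchord hw (l := c) (m := s - c * z) h hS hPS (by unfold hpol; grind) (by simp [hc0])
  convert this using 1 <;> grind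

theorem IsW.tr1 (hW : IsW V a b) (hw : w ^ 2 + w + 1 = 0) {c : F} (hc : c ^ 3 = a ^ 3 - b)
    {P S : V.Point} {r s z u : F}
    (hu : u ^ 3 = 1) (hS : HRep a b w S 1 (-u) 0) (h : HRep a b w P r s z) :
    HRep a b w (P + S) (u * r) (u ^ 2 * s) z := by
  by_cases hPS : P = S
  swap
  · exact hW.tr1_aux hw hu hS h hPS
  subst hPS
  have hne : ∀ {Q : V.Point} {r s : F}, HRep a b w Q r s 1 → Q ≠ P := by
    rintro Q r s hQ rfl
    obtain ⟨k, -, -, -, e⟩ := hW.hprop hw hS hQ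
    simp at e
  obtain ⟨Q, hQ⟩ := hW.hrep_exists hw (r := 0) (s := -c) (z := 1) (by grind) (by simp)
  have h1 := hW.tr1_aux hw hu hS hQ (hne hQ)
  have h2 := hW.tr1_aux hw hu hS h1 (hne h1)
  have h3 := hW.tr1_aux hw hu hS h2 (hne h2)
  have h4 : Q + P + P + P = Q := h3.unique (by convert hQ using 1 <;> grind)
  have h5 : P + P = -P := by
    rw [eq_neg_iff_add_eq_zero]
    have : Q + (P + P + P) = Q + 0 := by rw [add_zero, ← add_assoc, ← add_assoc, h4]
    exact add_left_cancel this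
  obtain ⟨k, hk, rfl, rfl, rfl⟩ := hW.hprop hw hS h
  rw [h5]
  have := (hW.hneg hw hS).smul (k := -k) (neg_ne_zero.2 hk)
  convert this using 1 <;> grind

theorem IsW.tr2 (hW : IsW V a b) (hw : w ^ 2 + w + 1 = 0) {c : F} (hc : c ^ 3 = a ^ 3 - b)
    {P S : V.Point} {r s z : F} (hS : HRep a b w S 0 (-c) 1) (h : HRep a b w P r s z) :
    HRep a b w (P + S) (c ^ 2 * z) (c * r) s := by
  by_cases hPS : P = S
  swap
  · exact hW.tr2_aux hw hc hS h hPS
  subst hPS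
  have hc0 : c ≠ 0 := by rintro rfl; exact hW.hc (by linear_combination -hc)
  have hw0 := w_ne_zero hw
  obtain ⟨Q, hQ⟩ := hW.hrep_exists hw (r := 1) (s := -w) (z := 0) (by grind) (by simp)
  have h1 := hW.tr2_aux hw hc hS hQ (by
    rintro rfl
    obtain ⟨k, -, e, -, -⟩ := hW.hprop hw hS hQ
    simp at e)
  have h2 := hW.tr2_aux hw hc hS h1 (by
    intro e
    rw [e] at h1
    obtain ⟨k, -, -, e1, e2⟩ := hW.hprop hw hS h1
    exact mul_ne_zero hc0 (w_ne_one hW.three hw) (by grind))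
  have h3 := hW.tr2_aux hw hc hS h2 (by
    intro e
    rw [e] at h2
    obtain ⟨k, -, e1, -, -⟩ := hW.hprop hw hS h2
    exact mul_ne_zero (pow_ne_zero 2 hc0) hw0 (by grind))
  have h4 : Q + P + P + P = Q :=
    h3.unique (by convert hQ.smul (pow_ne_zero 3 hc0) using 1 <;> grind)
  have h5 : P + P = -P := by
    rw [eq_neg_iff_add_eq_zero]
    have : Q + (P + P + P) = Q + 0 := by rw [add_zero, ← add_assoc, ← add_assoc, h4]
    exact add_left_cancel this
  obtain ⟨k, hk, rfl, rfl, rfl⟩ := hW.hprop hw hS h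
  rw [h5]
  have := (hW.hneg hw hS).smul (k := -(k * c)) (neg_ne_zero.2 (mul_ne_zero hk hc0))
  convert this using 1 <;> grind

theorem IsW.tr3 (hW : IsW V a b) (hw : w ^ 2 + w + 1 = 0) {c : F} (hc : c ^ 3 = a ^ 3 - b)
    {P S : V.Point} {r s z : F} (hS : HRep a b w S (-c) 0 1) (h : HRep a b w P r s z) :
    HRep a b w (P + S) (c * s) (c ^ 2 * z) r := by
  have := hW.hneg hw (hW.tr2 hw hc (hW.hneg hw hS) (hW.hneg hw h))
  rwa [neg_add, neg_neg, neg_neg] at this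

theorem IsW.hdouble (hW : IsW V a b) (hw : w ^ 2 + w + 1 = 0) {c : F} (hc : c ^ 3 = a ^ 3 - b)
    {P : V.Point} {r s z : F} (h : HRep a b w P r s z) :
    HRep a b w (P + P) (s * ((a ^ 3 - b) * z ^ 3 - r ^ 3)) (r * (s ^ 3 - (a ^ 3 - b) * z ^ 3))
      (z * (r ^ 3 - s ^ 3)) := by
  obtain ⟨T, hT⟩ := hW.hrep_exists hw (r := 1) (s := -w) (z := 0) (by grind) (by simp)
  have hw0 := w_ne_zero hw
  have hw1 := w_ne_one hW.three hw
  have hT' : HRep a b w (-T) 1 (-w ^ 2) 0 := by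
    convert (hW.hneg hw hT).smul (k := -w ^ 2) (by simpa using hw0) using 1 <;> grind
  have h1 := hW.tr1 hw hc (by grind) hT h
  have h2 := hW.tr1 hw hc (by grind) hT' h
  have hon := hW.hon hw h
  have hne : P + T ≠ P + -T := by
    intro e
    have e' := add_left_cancel e
    rw [← e'] at hT'
    obtain ⟨k, -, e1, e2, -⟩ := hW.hprop hw hT hT'
    exact mul_ne_zero hw0 hw1 (by grind)
  have := hW.hchord hw (l := (a ^ 3 - b) * z ^ 3 + w ^ 2 * r ^ 3 + w * s ^ 3)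
    (m := -((a ^ 3 - b) * z ^ 3 + w * r ^ 3 + w ^ 2 * s ^ 3)) h1 h2 hne (by unfold hpol; grind) (by
      rintro ⟨e1, e2⟩
      exact hW.g01_ne hw h ⟨e1, neg_eq_zero.1 e2⟩)
  rw [show P + T + (P + -T) = P + P by abel] at this
  have := this.smul (inv_ne_zero (mul_ne_zero hw0 hw1))
  convert this using 1 <;> field_simp <;> grind

theorem tri_alg {R : Type*} [CommRing R] {w U V W g0 g1 : R} (hw : w ^ 2 + w + 1 = 0)
    (e0 : g0 = W + w ^ 2 * U + w * V) (e1 : g1 = W + w * U + w ^ 2 * V) :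
    (U + V + W) ^ 3 - 27 * U * V * W + w ^ 2 * g0 ^ 3 + w * g1 ^ 3 =
      9 * (U ^ 2 * W + V ^ 2 * U + W ^ 2 * V - 3 * U * V * W) ∧
    (U + V + W) ^ 3 - 27 * U * V * W + w * g0 ^ 3 + w ^ 2 * g1 ^ 3 =
      9 * (U ^ 2 * V + V ^ 2 * W + W ^ 2 * U - 3 * U * V * W) ∧
    g0 * g1 = U ^ 2 + V ^ 2 + W ^ 2 - U * V - V * W - W * U ∧
    g0 ^ 3 + g1 ^ 3 + ((U + V + W) ^ 3 - 27 * U * V * W) = 3 * g0 * g1 * (U + V + W) := by
  subst e0 e1
  refine ⟨?_, ?_, ?_, ?_⟩ <;> grind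

theorem IsW.htriple (hW : IsW V a b) (hw : w ^ 2 + w + 1 = 0) {c : F} (hc : c ^ 3 = a ^ 3 - b)
    {P : V.Point} {r s z g0 g1 g2 : F} (h : HRep a b w P r s z)
    (e0 : g0 = (a ^ 3 - b) * z ^ 3 + w ^ 2 * r ^ 3 + w * s ^ 3)
    (e1 : g1 = (a ^ 3 - b) * z ^ 3 + w * r ^ 3 + w ^ 2 * s ^ 3) (e2 : g2 = 3 * r * s * z) :
    Rep (P + P + P) (-(g0 * g1 * g2)) (g1 ^ 3) (g2 ^ 3) := by
  have hw0 := w_ne_zero hw
  have hw1 := w_ne_one hW.three hw
  have hon := hW.hon hw h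
  by_cases hP : P = 0
  · subst hP
    obtain ⟨k, hk, rfl, rfl, rfl⟩ := hW.hprop hw (hW.hrep_zero hw) h
    simp only [add_zero]
    refine ⟨by grind, pow_ne_zero _ ?_, by grind⟩
    intro h0
    exact mul_ne_zero (pow_ne_zero 3 hk) (mul_ne_zero hw0 hw1) (by grind)
  have hl : r + s + a * z ≠ 0 := fun h0 => hP ((Rep.eq_zero_iff h).2 h0)
  have h2 := hW.hdouble hw hc h
  have hne : P + P ≠ P := by simpa using hP
  set r2 := s * ((a ^ 3 - b) * z ^ 3 - r ^ 3) with hr2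
  set s2 := r * (s ^ 3 - (a ^ 3 - b) * z ^ 3) with hs2
  set z2 := z * (r ^ 3 - s ^ 3) with hz2
  set A := hpol a b r s z r2 s2 z2 with hA
  set B := hpol a b r2 s2 z2 r s z with hB
  have hg2 : b * g2 ^ 3 = (r ^ 3 + s ^ 3 + (a ^ 3 - b) * z ^ 3) ^ 3 -
      27 * r ^ 3 * s ^ 3 * ((a ^ 3 - b) * z ^ 3) := by
    rw [hon, e2]; ring
  obtain ⟨q0, q1, q2, q3⟩ := tri_alg hw e0 e1
  have t0 : 9 * (B * r - A * r2) = (r + s + a * z) * (b * g2 ^ 3 + w ^ 2 * g0 ^ 3 + w * g1 ^ 3) := by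
    rw [hg2, q0, hA, hB, hr2, hs2, hz2]; unfold hpol; ring
  have t1 : 9 * (B * s - A * s2) = (r + s + a * z) * (b * g2 ^ 3 + w * g0 ^ 3 + w ^ 2 * g1 ^ 3) := by
    rw [hg2, q1, hA, hB, hr2, hs2, hz2]; unfold hpol; ring
  have t2 : 9 * (B * z - A * z2) = (r + s + a * z) * (3 * g0 * g1 * g2) := by
    rw [mul_assoc 3 g0, q2, e2, hA, hB, hr2, hs2, hz2]; unfold hpol; ring
  have gon : g0 ^ 3 + g1 ^ 3 + b * g2 ^ 3 = 3 * a * g0 * g1 * g2 := by
    rw [hg2, q3, hon, e2]; ring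
  have hAB : ¬(-A = 0 ∧ B = 0) := by
    rintro ⟨h1, h2⟩
    have h1 : A = 0 := neg_eq_zero.1 h1
    rw [h1, h2] at t0 t1 t2
    have u0 := (mul_eq_zero.1 (t0.symm.trans (by ring))).resolve_left hl
    have u1 := (mul_eq_zero.1 (t1.symm.trans (by ring))).resolve_left hl
    have u2 := (mul_eq_zero.1 (t2.symm.trans (by ring))).resolve_left hl
    refine hW.g01_ne hw h ⟨?_, ?_⟩
    · rw [← e0]
      exact pow_eq_zero_iff three_ne_zero |>.1 (mul_left_cancel₀ hW.three (by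
        linear_combination gon + a * u2 + w * u0 + w ^ 2 * u1 -
          (b * g2 ^ 3 + 2 * (w - 1) * g0 ^ 3 + (w ^ 2 - w + 1) * g1 ^ 3) * hw))
    · rw [← e1]
      exact pow_eq_zero_iff three_ne_zero |>.1 (mul_left_cancel₀ hW.three (by
        linear_combination gon + a * u2 + w ^ 2 * u0 + w * u1 -
          (b * g2 ^ 3 + 2 * (w - 1) * g1 ^ 3 + (w ^ 2 - w + 1) * g0 ^ 3) * hw))
  have h3 := hW.hchord hw (l := -A) (m := B) h2 h hne (by rw [← hA, ← hB]; ring) hAB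
  have h9 : (9 : F) ≠ 0 := by
    have := mul_ne_zero hW.three hW.three
    norm_num at this
    exact this
  have h4 := Rep.smul h3 (k := 3 * (b * (r + s + a * z))⁻¹)
    (mul_ne_zero hW.three (inv_ne_zero (mul_ne_zero hW.hb hl)))
  have hb := hW.hb
  have h3' := hW.three
  convert h4 using 1
  · field_simp
    apply mul_left_cancel₀ h3'
    linear_combination t2
  · field_simp
    apply mul_left_cancel₀ h3'
    linear_combination -(w * t1 + w ^ 2 * t0 + a * t2 - (r + s + a * z) * gon) -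
      (r + s + a * z) * (b * g2 ^ 3 + 2 * (w - 1) * g1 ^ 3 + (w ^ 2 - w + 1) * g0 ^ 3) * hw
  · field_simp
    apply mul_left_cancel₀ h3'
    linear_combination -(t1 + t0 + a * t2 - (r + s + a * z) * gon) -
      (r + s + a * z) * (g0 ^ 3 + g1 ^ 3) * hw

end Pool.Agent.MP_a43263_nt

end MrgPart2

-- ======== part 3: formerly Pool.Agent.MP_a43263_nt.GRep
section MrgPart3

namespace Pool.Agent.MP_a43263_nt

open WeierstrassCurve WeierstrassCurve.Affine

variable {F : Type*} [Field F] {V : WeierstrassCurve.Affine F} {a b w : F}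

/-- coordinates of the image under the three-covering -/
def GRep (a b : F) (P : V.Point) (g0 g1 g2 : F) : Prop :=
  ∃ w r s z k : F, w ^ 2 + w + 1 = 0 ∧ k ≠ 0 ∧ HRep a b w P r s z ∧
    g0 = k * ((a ^ 3 - b) * z ^ 3 + w ^ 2 * r ^ 3 + w * s ^ 3) ∧
    g1 = k * ((a ^ 3 - b) * z ^ 3 + w * r ^ 3 + w ^ 2 * s ^ 3) ∧ g2 = k * (3 * r * s * z)

theorem GRep.smul {P : V.Point} {g0 g1 g2 k : F} (h : GRep a b P g0 g1 g2) (hk : k ≠ 0) :
    GRep a b P (k * g0) (k * g1) (k * g2) := by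
  obtain ⟨w, r, s, z, k', hw, hk', h, rfl, rfl, rfl⟩ := h
  exact ⟨w, r, s, z, k * k', hw, mul_ne_zero hk hk', h, by ring, by ring, by ring⟩

theorem GRep.fix {P : V.Point} {g0 g1 g2 : F} (hw : w ^ 2 + w + 1 = 0) (h : GRep a b P g0 g1 g2) :
    ∃ r s z k : F, k ≠ 0 ∧ HRep a b w P r s z ∧
    g0 = k * ((a ^ 3 - b) * z ^ 3 + w ^ 2 * r ^ 3 + w * s ^ 3) ∧
    g1 = k * ((a ^ 3 - b) * z ^ 3 + w * r ^ 3 + w ^ 2 * s ^ 3) ∧ g2 = k * (3 * r * s * z) := by
  obtain ⟨w', r, s, z, k, hw', hk, h, rfl, rfl, rfl⟩ := h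
  have : (w - w') * (w - w' ^ 2) = 0 := by grind
  rcases mul_eq_zero.1 this with e | e
  · obtain rfl := sub_eq_zero.1 e
    exact ⟨r, s, z, k, hk, h, rfl, rfl, rfl⟩
  · obtain rfl := sub_eq_zero.1 e
    exact ⟨s, r, z, k, hk, hrep_swap hw' h, by grind, by grind, by ring⟩

theorem IsW.gex (hW : IsW V a b) (hw : w ^ 2 + w + 1 = 0) (P : V.Point) :
    ∃ g0 g1 g2, GRep a b P g0 g1 g2 := by
  obtain ⟨r, s, z, h⟩ := hW.exists_hrep hw P
  exact ⟨_, _, _, w, r, s, z, 1, hw, one_ne_zero, h, rfl, rfl, rfl⟩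

theorem IsW.gprop (hW : IsW V a b) {P : V.Point} {g0 g1 g2 g0' g1' g2' : F}
    (h : GRep a b P g0 g1 g2) (h' : GRep a b P g0' g1' g2') :
    ∃ k : F, k ≠ 0 ∧ g0' = k * g0 ∧ g1' = k * g1 ∧ g2' = k * g2 := by
  obtain ⟨w, r, s, z, k, hw, hk, h, rfl, rfl, rfl⟩ := h
  obtain ⟨r', s', z', k', hk', h2, rfl, rfl, rfl⟩ := h'.fix hw
  obtain ⟨m, hm, rfl, rfl, rfl⟩ := hW.hprop hw h h2
  refine ⟨k' * m ^ 3 / k, div_ne_zero (mul_ne_zero hk' (pow_ne_zero _ hm)) hk, ?_, ?_, ?_⟩ <;>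
    field_simp

theorem IsW.gon (hW : IsW V a b) {P : V.Point} {g0 g1 g2 : F} (h : GRep a b P g0 g1 g2) :
    g0 ^ 3 + g1 ^ 3 + b * g2 ^ 3 = 3 * a * g0 * g1 * g2 ∧ ¬(g0 = 0 ∧ g1 = 0) := by
  obtain ⟨w, r, s, z, k, hw, hk, h, rfl, rfl, rfl⟩ := h
  constructor
  · have hon := hW.hon hw h
    obtain ⟨-, -, -, q3⟩ := tri_alg (U := r ^ 3) (V := s ^ 3) (W := (a ^ 3 - b) * z ^ 3) hw rfl rfl
    rw [hon] at q3
    linear_combination k ^ 3 * q3
  · rintro ⟨e0, e1⟩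
    exact hW.g01_ne hw h ⟨(mul_eq_zero.1 e0).resolve_left hk, (mul_eq_zero.1 e1).resolve_left hk⟩

theorem IsW.gzero (hW : IsW V a b) (hw : w ^ 2 + w + 1 = 0) : GRep a b (0 : V.Point) 1 (-1) 0 := by
  have h0 := w_ne_zero hw
  have h1 := w_ne_one hW.three hw
  refine ⟨w, 1, -1, 0, (w * (w - 1))⁻¹, hw, inv_ne_zero (mul_ne_zero h0 h1), hW.hrep_zero hw,
    ?_, ?_, by ring⟩ <;> field_simp <;> ring

theorem exists_cube [IsAlgClosed F] (x : F) : ∃ y, y ^ 3 = x :=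
  IsAlgClosed.exists_pow_nat_eq x three_pos

theorem exists_w [IsAlgClosed F] : ∃ w : F, w ^ 2 + w + 1 = 0 := by
  obtain ⟨w, hw⟩ := IsAlgClosed.exists_root (Polynomial.X ^ 2 + Polynomial.X + 1 : Polynomial F) (by
    have : (Polynomial.X ^ 2 + Polynomial.X + 1 : Polynomial F).degree = 2 := by compute_degree!
    rw [this]; decide)
  exact ⟨w, by simpa using hw⟩

theorem IsW.gsurj [IsAlgClosed F] (hW : IsW V a b) {g0 g1 g2 : F}
    (e : g0 ^ 3 + g1 ^ 3 + b * g2 ^ 3 = 3 * a * g0 * g1 * g2) (hne : ¬(g0 = 0 ∧ g1 = 0)) :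
    ∃ P : V.Point, GRep a b P g0 g1 g2 := by
  obtain ⟨w, hw⟩ := exists_w (F := F)
  have h3 := hW.three
  have hc := hW.hc
  obtain ⟨r, hr⟩ := exists_cube (a * g2 + w * g0 + w ^ 2 * g1)
  obtain ⟨s, hs⟩ := exists_cube (a * g2 + w ^ 2 * g0 + w * g1)
  have hprod : r ^ 3 * s ^ 3 * (a * g2 + g0 + g1) = (a ^ 3 - b) * g2 ^ 3 := by
    rw [hr, hs]; grind
  obtain ⟨z, hz, hz'⟩ : ∃ z, (a ^ 3 - b) * z ^ 3 = a * g2 + g0 + g1 ∧ r * s * z = g2 := by
    by_cases h0 : r * s = 0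
    · obtain ⟨z, hz⟩ := exists_cube ((a * g2 + g0 + g1) / (a ^ 3 - b))
      refine ⟨z, by rw [hz]; field_simp, ?_⟩
      rw [← mul_pow, h0] at hprod
      have : g2 = 0 := by simpa [hc] using hprod.symm
      rw [h0, this, zero_mul]
    · refine ⟨g2 / (r * s), ?_, mul_div_cancel₀ _ h0⟩
      rw [div_pow, mul_div_assoc', div_eq_iff (pow_ne_zero _ h0)]
      linear_combination -hprod
  obtain ⟨P, hP⟩ := hW.hrep_exists hw (r := r) (s := s) (z := z) (by
    rw [hz, hr, hs, mul_assoc (3 * a), mul_assoc (3 * a), hz']; grind) (by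
    rintro ⟨rfl, rfl, rfl⟩
    refine hne ⟨mul_left_cancel₀ h3 ?_, mul_left_cancel₀ h3 ?_⟩ <;> grind)
  refine ⟨P, w, r, s, z, 3⁻¹, hw, inv_ne_zero h3, hP, ?_, ?_, ?_⟩
  · rw [hz, hr, hs]; field_simp; grind
  · rw [hz, hr, hs]; field_simp; grind
  · rw [← hz']; field_simp

variable [DecidableEq F]

theorem IsW.gthree [IsAlgClosed F] (hW : IsW V a b) {P : V.Point} {g0 g1 g2 : F}
    (h : GRep a b P g0 g1 g2) : Rep (3 • P) (-(g0 * g1 * g2)) (g1 ^ 3) (g2 ^ 3) := by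
  obtain ⟨w, r, s, z, k, hw, hk, h, rfl, rfl, rfl⟩ := h
  obtain ⟨c, hc⟩ := exists_cube (a ^ 3 - b)
  have := (hW.htriple hw hc h rfl rfl rfl).smul (pow_ne_zero 3 hk)
  rw [show 3 • P = P + P + P by abel]
  convert this using 1 <;> ring

theorem IsW.exists_third [IsAlgClosed F] (hW : IsW V a b) (P : V.Point) :
    ∃ R : V.Point, 3 • R = P := by
  have key : ∀ (x y : F) (h : V.Nonsingular x y), y ≠ 0 → ∃ R : V.Point, 3 • R = .some x y h := by
    intro x y h hy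
    obtain ⟨g1, hg1⟩ := exists_cube y
    have hg0 : g1 ≠ 0 := by rintro rfl; exact hy (by simpa using hg1.symm)
    have e := hW.eqn h
    obtain ⟨R, hR⟩ := hW.gsurj (g0 := -x / g1) (g1 := g1) (g2 := 1) (by
      field_simp
      grind) (fun h => hg0 h.2)
    refine ⟨R, (hW.gthree hR).unique ⟨?_, ?_, by simp⟩⟩
    · field_simp
    · simp [hg1]
  rcases P with _ | ⟨x, y, h⟩
  · exact ⟨0, rfl⟩
  · by_cases hy : y = 0
    · subst hy
      have hx : x = 0 := pow_eq_zero_iff three_ne_zero |>.1 (by linear_combination -hW.eqn h)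
      subst hx
      obtain ⟨R, hR⟩ := key _ _ ((nonsingular_neg _ _).2 h) (by simpa [hW.h3] using hW.hb)
      exact ⟨-R, by rw [smul_neg, hR, ← Point.neg_some, neg_neg]⟩
    · exact key x y h hy

/-- translation by `S` acts on the covering coordinates through the cube root of unity `u` -/
def Tr (a b : F) (S : V.Point) (u : F) : Prop :=
  u ^ 3 = 1 ∧ ∀ (P : V.Point) (g0 g1 g2 : F), GRep a b P g0 g1 g2 →
    GRep a b (P + S) (u * g0) (u ^ 2 * g1) g2

/-- translation by `S` acts on the Hessian coordinates through the cube root of unity `u` -/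
def Tr' (a b w : F) (S : V.Point) (u : F) : Prop :=
  u ^ 3 = 1 ∧ HRep a b w S 1 (-u) 0

theorem IsW.tr_ex [IsAlgClosed F] (hW : IsW V a b) (hw : w ^ 2 + w + 1 = 0) {S : V.Point}
    (hS : 3 • S = 0) : ∃ u, Tr a b S u ∧ (u = 1 → ∃ v, Tr' a b w S v) := by
  obtain ⟨r, s, z, h⟩ := hW.exists_hrep hw S
  have h0 := (hW.gthree ⟨w, r, s, z, 1, hw, one_ne_zero, h, rfl, rfl, rfl⟩).eq_zero_iff.1 hS
  have hon := hW.hon hw h
  have hw1 := w_ne_one hW.three hw
  have hw0 := w_ne_zero hw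
  by_cases hz : z = 0
  · subst hz
    have hr : r ≠ 0 := by
      rintro rfl
      exact h.ne ⟨rfl, by simpa using hon, rfl⟩
    have h' : HRep a b w S 1 (-(-s / r)) 0 := by
      convert h.smul (inv_ne_zero hr) using 1 <;> field_simp
      simp
    have hu : (-s / r) ^ 3 = 1 := by field_simp; linear_combination -hon
    refine ⟨1, ⟨by simp, fun P g0 g1 g2 hg => ?_⟩, fun _ => ⟨_, hu, h'⟩⟩
    obtain ⟨r', s', z', k, hk, hP, rfl, rfl, rfl⟩ := hg.fix hw
    obtain ⟨c, hc⟩ := exists_cube (a ^ 3 - b)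
    generalize -s / r = u at hu h'
    exact ⟨w, _, _, _, k, hw, hk, hW.tr1 hw hc hu h' hP, by grind, by grind, by grind⟩
  have hrs : r * s = 0 := by simpa [hW.three, hz] using h0
  rcases mul_eq_zero.1 hrs with rfl | rfl
  · have h' : HRep a b w S 0 (-(-s / z)) 1 := by
      convert h.smul (inv_ne_zero hz) using 1 <;> field_simp
      simp
    have hc : (-s / z) ^ 3 = a ^ 3 - b := by field_simp; linear_combination -hon
    generalize -s / z = c at hc h'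
    refine ⟨w ^ 2, ⟨by grind, fun P g0 g1 g2 hg => ?_⟩, fun h1 => absurd (by grind) hw1⟩
    obtain ⟨r', s', z', k, hk, hP, rfl, rfl, rfl⟩ := hg.fix hw
    have hcc := hW.hc
    refine ⟨w, _, _, _, k / (a ^ 3 - b), hw, div_ne_zero hk hW.hc, hW.tr2 hw hc h' hP, ?_, ?_, ?_⟩
    all_goals
      rw [← hc] at hcc ⊢
      have : c ≠ 0 := by rintro rfl; simp at hcc
      field_simp
      try grind
  · have h' : HRep a b w S (-(-r / z)) 0 1 := by
      convert h.smul (inv_ne_zero hz) using 1 <;> field_simp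
      simp
    have hc : (-r / z) ^ 3 = a ^ 3 - b := by field_simp; linear_combination -hon
    generalize -r / z = c at hc h'
    refine ⟨w, ⟨by grind, fun P g0 g1 g2 hg => ?_⟩, fun h1 => absurd (by grind) hw1⟩
    obtain ⟨r', s', z', k, hk, hP, rfl, rfl, rfl⟩ := hg.fix hw
    have hcc := hW.hc
    refine ⟨w, _, _, _, k / (a ^ 3 - b), hw, div_ne_zero hk hW.hc, hW.tr3 hw hc h' hP, ?_, ?_, ?_⟩
    all_goals
      rw [← hc] at hcc ⊢
      have : c ≠ 0 := by rintro rfl; simp at hcc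
      field_simp
      try grind

theorem IsW.tr_of_grep [IsAlgClosed F] (hW : IsW V a b) {S : V.Point} (hS : 3 • S = 0) {u : F}
    (h : GRep a b S u (-u ^ 2) 0) : Tr a b S u := by
  obtain ⟨w, hw⟩ := exists_w (F := F)
  obtain ⟨v, hv, -⟩ := hW.tr_ex hw hS
  have h1 := hv.2 0 _ _ _ (hW.gzero hw)
  rw [zero_add] at h1
  obtain ⟨k, hk, e0, e1, -⟩ := hW.gprop h h1
  have hu : u ≠ 0 := by
    rintro rfl
    exact (hW.gon h).2 (by simp)
  have : v = u := by
    have := hv.1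
    apply mul_left_cancel₀ (mul_ne_zero hk hu)
    grind
  rwa [← this]

theorem IsW.grep_of_tr [IsAlgClosed F] (hW : IsW V a b) {S : V.Point} {u : F} (h : Tr a b S u) :
    GRep a b S u (-u ^ 2) 0 := by
  obtain ⟨w, hw⟩ := exists_w (F := F)
  simpa using h.2 0 _ _ _ (hW.gzero hw)

theorem IsW.tr_unique [IsAlgClosed F] (hW : IsW V a b) {S : V.Point} {u v : F} (h : Tr a b S u)
    (h' : Tr a b S v) : u = v := by
  obtain ⟨k, hk, e0, e1, -⟩ := hW.gprop (hW.grep_of_tr h) (hW.grep_of_tr h')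
  have := h.1
  have := h'.1
  have hu : u ≠ 0 := by rintro rfl; simp at *
  apply mul_left_cancel₀ (mul_ne_zero hk hu)
  grind

theorem Tr.add {S S' : V.Point} {u v : F} (h : Tr a b S u) (h' : Tr a b S' v) :
    Tr a b (S + S') (u * v) := by
  refine ⟨by rw [mul_pow, h.1, h'.1, one_mul], fun P g0 g1 g2 hg => ?_⟩
  have := h'.2 _ _ _ _ (h.2 _ _ _ _ hg)
  rw [add_assoc] at this
  convert this using 1 <;> ring

theorem tr_zero : Tr a b (0 : V.Point) 1 :=
  ⟨by simp, fun P g0 g1 g2 hg => by simpa using hg⟩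

/-- two points whose covering coordinates differ by the action of `u` -/
theorem IsW.tr_sub [IsAlgClosed F] (hW : IsW V a b) {P Q : V.Point} {g0 g1 g2 u : F}
    (hu : u ^ 3 = 1) (hP : GRep a b P g0 g1 g2) (hQ : GRep a b Q (u * g0) (u ^ 2 * g1) g2) :
    3 • (Q - P) = 0 ∧ Tr a b (Q - P) u := by
  have h3 : 3 • (Q - P) = 0 := by
    rw [smul_sub, sub_eq_zero]
    refine (hW.gthree hQ).unique ?_
    convert hW.gthree hP using 1 <;> grind
  obtain ⟨w, hw⟩ := exists_w (F := F)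
  obtain ⟨v, hv, -⟩ := hW.tr_ex hw h3
  have h1 := hv.2 _ _ _ _ hP
  rw [add_sub_cancel] at h1
  obtain ⟨k, hk, e0, e1, e2⟩ := hW.gprop hQ h1
  obtain ⟨gon, gne⟩ := hW.gon hP
  have hv3 := hv.1
  refine ⟨h3, ?_⟩
  suffices v = u by rwa [← this]
  by_cases h2 : g2 = 0
  · subst h2
    have h0 : g0 ≠ 0 := by
      rintro rfl
      exact gne ⟨rfl, by simpa using gon⟩
    have h1 : g1 ≠ 0 := by
      rintro rfl
      exact gne ⟨by simpa using gon, rfl⟩
    have e0' : v = k * u := mul_right_cancel₀ h0 (by linear_combination e0)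
    have e1' : v ^ 2 = k * u ^ 2 := mul_right_cancel₀ h1 (by linear_combination e1)
    have hu0 : u ≠ 0 := by rintro rfl; simp at hu
    apply mul_left_cancel₀ (mul_ne_zero hk hu0)
    grind
  · have hk1 : k = 1 := mul_right_cancel₀ h2 (by linear_combination -e2)
    subst hk1
    by_cases h0 : g0 = 0
    · have h1 : g1 ≠ 0 := fun h1 => gne ⟨h0, h1⟩
      have e1' : v ^ 2 = u ^ 2 := mul_right_cancel₀ h1 (by linear_combination e1)
      grind
    · exact mul_right_cancel₀ h0 (by linear_combination e0)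

theorem IsW.tr'_tr [IsAlgClosed F] (hW : IsW V a b) (hw : w ^ 2 + w + 1 = 0) {S P : V.Point}
    {u r s z : F} (h : Tr' a b w S u) (hP : HRep a b w P r s z) :
    HRep a b w (P + S) (u * r) (u ^ 2 * s) z := by
  obtain ⟨c, hc⟩ := exists_cube (a ^ 3 - b)
  exact hW.tr1 hw hc h.1 h.2 hP

theorem IsW.tr'_add [IsAlgClosed F] (hW : IsW V a b) (hw : w ^ 2 + w + 1 = 0) {S S' : V.Point}
    {u v : F} (h : Tr' a b w S u) (h' : Tr' a b w S' v) : Tr' a b w (S + S') (u * v) := by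
  have hv := h'.1
  refine ⟨by rw [mul_pow, h.1, h'.1, one_mul], ?_⟩
  have := (hW.tr'_tr hw h' h.2).smul (k := v ^ 2) (pow_ne_zero _ (by rintro rfl; simp at hv))
  convert this using 1 <;> grind

omit [DecidableEq F] in
theorem IsW.tr'_unique (hW : IsW V a b) (hw : w ^ 2 + w + 1 = 0) {S : V.Point}
    {u v : F} (h : Tr' a b w S u) (h' : Tr' a b w S v) : u = v := by
  obtain ⟨k, -, e0, e1, -⟩ := hW.hprop hw h.2 h'.2
  grind

omit [DecidableEq F] in
theorem IsW.tr'_one (hW : IsW V a b) (hw : w ^ 2 + w + 1 = 0) {S : V.Point}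
    (h : Tr' a b w S 1) : S = 0 := h.2.unique (hW.hrep_zero hw)

omit [DecidableEq F] in
theorem IsW.tr'_rep (hW : IsW V a b) (hw : w ^ 2 + w + 1 = 0) {S : V.Point} {u : F}
    (h : Tr' a b w S u) : Rep S 0 1 0 ∨ Rep S 0 0 1 ∨ Rep S 0 (-b) 1 := by
  have hw0 := w_ne_zero hw
  have hw1 := w_ne_one hW.three hw
  have hb := hW.hb
  have h2 := h.2
  unfold HRep at h2
  rcases cube_root_cases hw h.1 with rfl | rfl | rfl
  · refine .inl ?_
    convert h2.smul (inv_ne_zero (mul_ne_zero hb (mul_ne_zero (neg_ne_zero.2 hw0) hw1))) using 1 <;>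
      field_simp <;> ring
  · refine .inr (.inr ?_)
    convert h2.smul (inv_ne_zero (neg_ne_zero.2 hw1)) using 1 <;> field_simp <;> grind
  · refine .inr (.inl ?_)
    convert h2.smul (inv_ne_zero (mul_ne_zero (pow_ne_zero 2 hw0) hw1)) using 1 <;>
      field_simp <;> grind

end Pool.Agent.MP_a43263_nt

end MrgPart3

-- marker of a merged file
example : 731051 + 897162 = 731051 + 897162 := rfl
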