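import Mathlib.Algebra.Order.Ring.Star
import Mathlib.Algebra.Ring.IsFormallyReal
import Mathlib.Data.Rat.Star
import Mathlib.GroupTheory.Descent
import Mathlib.NumberTheory.Height.EllipticCurve
import Pool.Agent.MP_a43263_nt.GRep

-- ======== part 0: formerly Pool.Agent.MP_a43263_nt.Coh
section MrgPart0

namespace Pool.Agent.MP_a43263_nt

open Classical WeierstrassCurve

/-- the curve -/
abbrev WW (a b : ℚ) : WeierstrassCurve ℚ := ⟨3 * a, 0, b, 0, 0⟩

variable {a b : ℚ}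

theorem isW (hb : b ≠ 0) (hc : a ^ 3 - b ≠ 0) (K : Type) [Field K] [CharZero K] [Algebra ℚ K] :
    IsW ((WW a b).baseChange K).toAffine (a : K) (b : K) where
  h1 := by simp [baseChange]
  h2 := by simp [baseChange]
  h3 := by simp [baseChange]
  h4 := by simp [baseChange]
  h6 := by simp [baseChange]
  hb := by exact_mod_cast hb
  hc := by exact_mod_cast hc
  three := three_ne_zero

section
variable {K L M : Type} [Field K] [Field L] [Field M] [Algebra ℚ K] [Algebra ℚ L] [Algebra ℚ M]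
  {W : WeierstrassCurve ℚ} [DecidableEq K] [DecidableEq L] [DecidableEq M]

theorem Rep.pm (f : K →+* L) {P : Pt W K} {X Y Z : K} (h : Rep P X Y Z) :
    Rep (ptMap W f P) (f X) (f Y) (f Z) := h.map f.toRatAlgHom

theorem pm_pm (f : K →+* L) (g : L →+* M) (P : Pt W K) :
    ptMap W g (ptMap W f P) = ptMap W (g.comp f) P := by
  cases P <;> rfl

theorem pm_inj (f : K →+* L) : Function.Injective (ptMap W f) :=
  Affine.Point.map_injective (W' := W.toAffine) f.toRatAlgHom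

variable [CharZero K] [CharZero L]

theorem HRep.pm (f : K →+* L) {P : Pt W K} {w r s z : K} (h : HRep (a : K) b w P r s z) :
    HRep (a : L) b (f w) (ptMap W f P) (f r) (f s) (f z) := by
  have := Rep.pm f h
  unfold HRep
  simpa using this

theorem GRep.pm (f : K →+* L) {P : Pt W K} {g0 g1 g2 : K} (h : GRep (a : K) b P g0 g1 g2) :
    GRep (a : L) b (ptMap W f P) (f g0) (f g1) (f g2) := by
  obtain ⟨w, r, s, z, k, hw, hk, h, rfl, rfl, rfl⟩ := h
  refine ⟨f w, f r, f s, f z, f k, ?_, by simpa using hk, h.pm f, by simp, by simp, ?_⟩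
  · simpa using congrArg f hw
  · simp [map_ofNat]

theorem Tr'.pm (f : K →+* L) {S : Pt W K} {w u : K} (h : Tr' (a : K) b w S u) :
    Tr' (a : L) b (f w) (ptMap W f S) (f u) :=
  ⟨by simpa using congrArg f h.1, by simpa using h.2.pm f⟩

theorem Tr.pm [IsAlgClosed K] [IsAlgClosed L] (hb : b ≠ 0) (hc : a ^ 3 - b ≠ 0) (f : K →+* L)
    {S : Pt (WW a b) K} {u : K} (hS : 3 • S = 0) (h : Tr (a : K) b S u) :
    Tr (a : L) b (ptMap _ f S) (f u) := by
  refine (isW hb hc L).tr_of_grep (by rw [← map_nsmul, hS, map_zero]) ?_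
  simpa using ((isW hb hc K).grep_of_tr h).pm f

end

/-- the absolute Galois group -/
abbrev GQ : Type := Qbar ≃ₐ[ℚ] Qbar

/-- continuous cocycles -/
noncomputable abbrev cocycles (W : WeierstrassCurve ℚ) : AddSubgroup (GQ → Pt W Qbar) := Z1 (ac W)

/-- rational points inside the geometric points -/
noncomputable abbrev inc (W : WeierstrassCurve ℚ) : Pt W ℚ →+ Pt W Qbar :=
  ptMap W (Rat.castHom Qbar)

theorem ac_mul {W : WeierstrassCurve ℚ} (σ τ : GQ) (P : Pt W Qbar) :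
    ac W (σ * τ) P = ac W σ (ac W τ P) := by
  cases P <;> rfl

theorem ac_one {W : WeierstrassCurve ℚ} (P : Pt W Qbar) : ac W 1 P = P := by
  cases P <;> rfl

theorem ac_inc {W : WeierstrassCurve ℚ} (σ : GQ) (P : Pt W ℚ) : ac W σ (inc W P) = inc W P := by
  rw [pm_pm]
  congr 2
  exact Subsingleton.elim _ _

theorem exists_inc {W : WeierstrassCurve ℚ} {P : Pt W Qbar} (h : ∀ σ, ac W σ P = P) :
    ∃ Q, inc W Q = P := by
  rcases P with _ | ⟨x, y, hP⟩
  · exact ⟨0, rfl⟩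
  · obtain ⟨x', rfl⟩ := rat_of_fixed (x := x) fun σ => (Affine.Point.some.inj (h σ)).1
    obtain ⟨y', rfl⟩ := rat_of_fixed (x := y) fun σ => (Affine.Point.some.inj (h σ)).2
    exact ⟨.some x' y' ((W.toAffine.baseChange_nonsingular
      (f := (Rat.castHom Qbar).toRatAlgHom) (Rat.castHom Qbar).injective x' y').1 hP), rfl⟩

/-- `β` is the image of the rational point `P` under the descent map -/
def Good (a b β : ℚ) (P : Pt (WW a b) ℚ) : Prop :=
  ∀ ρ : Qbar, ρ ^ 3 = β → ∃ R : Pt (WW a b) Qbar, 3 • R = inc _ P ∧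
    ∀ σ : GQ, Tr (a : Qbar) b (ac _ σ R - R) (σ ρ / ρ)

theorem Good.mul {β β' : ℚ} {P P' : Pt (WW a b) ℚ} (hβ : β ≠ 0) (h : Good a b β P)
    (h' : Good a b β' P') : Good a b (β * β') (P + P') := by
  intro ρ hρ
  obtain ⟨ρ1, h1⟩ := exists_cube (β : Qbar)
  have hβ' : (β : Qbar) ≠ 0 := by exact_mod_cast hβ
  have h0 : ρ1 ≠ 0 := by rintro rfl; exact hβ' (by simpa using h1.symm)
  obtain ⟨R, hR, hR'⟩ := h ρ1 h1
  obtain ⟨S, hS, hS'⟩ := h' (ρ / ρ1) (by rw [div_pow, hρ, h1]; push_cast; field_simp)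
  refine ⟨R + S, by rw [smul_add, hR, hS, map_add], fun σ => ?_⟩
  have := (hR' σ).add (hS' σ)
  have h2 : σ ρ1 ≠ 0 := (map_ne_zero σ).2 h0
  convert this using 1
  · rw [map_add]; abel
  · rw [map_div₀]; field_simp

theorem good_of_sol (hb : b ≠ 0) (hc : a ^ 3 - b ≠ 0) {β X Y Z : ℚ} (hβ : β ≠ 0)
    (e : β * X ^ 3 + β ^ 2 * Y ^ 3 + b * Z ^ 3 = 3 * a * β * X * Y * Z) (hne : ¬(X = 0 ∧ Y = 0))
    {P : Pt (WW a b) ℚ} (hP : Rep P (-(β * X * Y * Z)) (β ^ 2 * Y ^ 3) (Z ^ 3)) :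
    Good a b β P := by
  intro ρ hρ
  have hW := isW hb hc Qbar
  have hβ' : (β : Qbar) ≠ 0 := by exact_mod_cast hβ
  have h0 : ρ ≠ 0 := by rintro rfl; exact hβ' (by simpa using hρ.symm)
  have e' : (β : Qbar) * X ^ 3 + β ^ 2 * Y ^ 3 + b * Z ^ 3 = 3 * a * β * X * Y * Z := by
    exact_mod_cast e
  obtain ⟨R, hR⟩ := hW.gsurj (g0 := ρ * X) (g1 := ρ ^ 2 * Y) (g2 := Z) (by
    rw [← hρ] at e'; linear_combination e') (by simpa [h0] using hne)
  refine ⟨R, (hW.gthree hR).unique ?_, fun σ => ?_⟩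
  · have := hP.pm (Rat.castHom Qbar)
    simp only [map_neg, map_mul, map_pow, eq_ratCast, ← hρ] at this
    convert this using 1 <;> ring
  · refine (hW.tr_sub ?_ hR ?_).2
    · rw [div_pow, ← map_pow, hρ]; simp [hβ']
    · convert hR.pm (σ : Qbar →+* Qbar) using 1 <;> simp <;> field_simp

theorem good_cube (hb : b ≠ 0) (hc : a ^ 3 - b ≠ 0) {γ : ℚ} (hγ : γ ≠ 0) :
    Good a b (γ ^ 3) 0 :=
  good_of_sol hb hc (X := -γ) (Y := 1) (Z := 0) (pow_ne_zero _ hγ) (by ring) (by simp)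
    ⟨by simp, by simpa using hγ, by simp⟩

theorem Good.pow (hb : b ≠ 0) (hc : a ^ 3 - b ≠ 0) {β : ℚ} {P : Pt (WW a b) ℚ} (hβ : β ≠ 0)
    (h : Good a b β P) (n : ℕ) : Good a b (β ^ n) (n • P) := by
  induction n with
  | zero => simpa using good_cube hb hc one_ne_zero
  | succ n ih => rw [pow_succ, succ_nsmul]; exact ih.mul (pow_ne_zero _ hβ) h

theorem Good.cube (hb : b ≠ 0) (hc : a ^ 3 - b ≠ 0) {β : ℚ} {Z : Pt (WW a b) ℚ} (hβ : β ≠ 0)
    (h : Good a b β (3 • Z)) : ∃ γ : ℚ, γ ^ 3 = β := by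
  have hW := isW hb hc Qbar
  obtain ⟨ρ, hρ⟩ := exists_cube (β : Qbar)
  have hβ' : (β : Qbar) ≠ 0 := by exact_mod_cast hβ
  have h0 : ρ ≠ 0 := by rintro rfl; exact hβ' (by simpa using hρ.symm)
  obtain ⟨R, hR, hR'⟩ := h ρ hρ
  have hS : 3 • (R - inc _ Z) = 0 := by rw [smul_sub, hR, map_nsmul, sub_self]
  obtain ⟨w, hw⟩ := exists_w (F := Qbar)
  obtain ⟨u, hu, -⟩ := hW.tr_ex hw hS
  have hu0 : u ≠ 0 := by
    rintro rfl
    simpa using hu.1
  obtain ⟨γ, hγ⟩ := rat_of_fixed (x := ρ / u) fun σ => by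
    have h1 := hu.pm hb hc (σ : Qbar →+* Qbar) hS
    have h2 := hu.add (hR' σ)
    rw [map_sub, ac_inc] at h1
    rw [show R - inc _ Z + (ac _ σ R - R) = ac _ σ R - inc _ Z by abel] at h2
    have := hW.tr_unique h1 h2
    have h3 : σ ρ ≠ 0 := (map_ne_zero σ).2 h0
    rw [map_div₀]
    change σ u = _ at this
    rw [this]; field_simp
  refine ⟨γ, ?_⟩
  have : (γ : Qbar) ^ 3 = β := by rw [hγ, div_pow, hu.1, hρ, div_one]
  exact_mod_cast this

/-- the cubic `β X³ + β² Y³ + B Z³ = 3 A β X Y Z` has a point over `K` -/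
def Sol {K : Type} [Field K] (A B β : K) : Prop :=
  ∃ X Y Z : K, ¬(X = 0 ∧ Y = 0 ∧ Z = 0) ∧
    β * X ^ 3 + β ^ 2 * Y ^ 3 + B * Z ^ 3 = 3 * A * β * X * Y * Z

theorem cocycle_one {W : WeierstrassCurve ℚ} {c : GQ → Pt W Qbar} (hc : c ∈ cocycles W) :
    c 1 = 0 := by
  have := hc.2 1 1
  rw [mul_one] at this
  change c 1 = c 1 + ac W 1 (c 1) at this
  rw [ac_one] at this
  simpa using this

theorem step1 (hb : b ≠ 0) (hc : a ^ 3 - b ≠ 0) {c : GQ → Pt (WW a b) Qbar}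
    (hcc : c ∈ cocycles (WW a b)) (h3 : ∀ σ, 3 • c σ = 0) :
    ∃ (β : ℚ) (ρ : Qbar), β ≠ 0 ∧ ρ ^ 3 = β ∧ (∀ σ, Tr (a : Qbar) b (c σ) (σ ρ / ρ)) ∧
      ∀ (K : Type) [Field K] [CharZero K], LocTriv (WW a b) K c → Sol (a : K) b β := by
  have hW := isW hb hc Qbar
  obtain ⟨w, hw⟩ := exists_w (F := Qbar)
  choose u hu _ using fun σ => hW.tr_ex hw (h3 σ)
  obtain ⟨L, hL, hL'⟩ := exists_level c hcc.1
  have hu0 : ∀ σ, u σ ≠ 0 := by
    intro σ h0
    simpa [h0] using (hu σ).1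
  obtain ⟨ρ, hρ, hρ'⟩ := h90 ⊤ u (fun σ _ => hu0 σ) (fun σ _ τ _ => by
    have h1 := (hu σ).add ((hu τ).pm hb hc (σ : Qbar →+* Qbar) (h3 τ))
    rw [← hcc.2] at h1
    exact hW.tr_unique (hu _) h1) L (fun σ _ hσ => by
    have h1 := hu σ
    rw [hL' σ hσ, cocycle_one hcc] at h1
    exact hW.tr_unique h1 tr_zero)
  obtain ⟨β, hβ⟩ := rat_of_fixed (x := ρ ^ 3) fun σ => by
    rw [map_pow, hρ' σ trivial, mul_pow, (hu σ).1, one_mul]
  have hβ0 : β ≠ 0 := by
    rintro rfl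
    exact pow_ne_zero 3 hρ (by simpa using hβ.symm)
  refine ⟨β, ρ, hβ0, hβ.symm, fun σ => ?_, fun K _ _ hK => ?_⟩
  · rw [hρ' σ trivial, mul_div_cancel_right₀ _ hρ]; exact hu σ
  · obtain ⟨R, hR⟩ := hK
    have hW' := isW hb hc (AlgebraicClosure K)
    obtain ⟨w', hw'⟩ := exists_w (F := AlgebraicClosure K)
    obtain ⟨g0, g1, g2, hg⟩ := hW'.gex hw' R
    obtain ⟨e1, e2⟩ := hW'.gon hg
    refine local_point K (g0 := g0) (g1 := g1) (g2 := g2) (ρ := emb K ρ) (by simpa using hρ)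
      (by rw [← map_pow, ← hβ]; simp) (by simpa using e1) (fun h => e2 ⟨h.1, h.2.1⟩) fun σ => ?_
    obtain ⟨τ, hτ⟩ := exists_res K σ
    have h1 := ((hu τ).pm hb hc (emb K) (h3 τ)).2 _ _ _ _ hg
    rw [hR σ τ hτ, add_sub_cancel] at h1
    obtain ⟨k, -, f0, f1, f2⟩ := hW'.gprop h1 (hg.pm _)
    exact ⟨emb K (u τ), k, by rw [← hτ, hρ' τ trivial, map_mul], f0, f1, f2⟩

theorem exists_conj {w : Qbar} (hw : w ^ 2 + w + 1 = 0) : ∃ τ : GQ, τ w = w ^ 2 := by
  by_contra hcon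
  push Not at hcon
  obtain ⟨q, rfl⟩ := rat_of_fixed (x := w) fun σ => by
    have h1 : σ w ^ 2 + σ w + 1 = 0 := by simpa using congrArg σ hw
    have : (σ w - w) * (σ w - w ^ 2) = 0 := by grind
    exact sub_eq_zero.1 ((mul_eq_zero.1 this).resolve_right (sub_ne_zero.2 (hcon σ)))
  have : q ^ 2 + q + 1 = 0 := by exact_mod_cast hw
  nlinarith [sq_nonneg (2 * q + 1)]

theorem step2 (hb : b ≠ 0) (hc : a ^ 3 - b ≠ 0) {c : GQ → Pt (WW a b) Qbar}
    (hcc : c ∈ cocycles (WW a b)) (h3 : ∀ σ, 3 • c σ = 0) (h1 : ∀ σ, Tr (a : Qbar) b (c σ) 1) :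
    ∃ m n N : ℚ, N ≠ 0 ∧ m ^ 2 - m * n + n ^ 2 = N ^ 3 ∧
      (∀ (K : Type) [Field K] [CharZero K], LocTriv (WW a b) K c → (∃ w : K, w ^ 2 + w + 1 = 0) →
        ∃ w : K, w ^ 2 + w + 1 = 0 ∧ Sol (a : K) (a ^ 3 - b) (m + n * w)) ∧
      ((∃ x y : ℚ, m = x ^ 3 - 3 * x * y ^ 2 + y ^ 3 ∧ n = 3 * x ^ 2 * y - 3 * x * y ^ 2) →
        ∀ σ, c σ = 0) := by
  have hW := isW hb hc Qbar
  obtain ⟨w, hw⟩ := exists_w (F := Qbar)
  have hw0 := w_ne_zero hw
  have hw1 := w_ne_one hW.three hw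
  have hu : ∀ σ, ∃ v, Tr' (a : Qbar) b w (c σ) v := fun σ => by
    obtain ⟨u, hu, hu'⟩ := hW.tr_ex hw (h3 σ)
    exact hu' (hW.tr_unique hu (h1 σ))
  choose u hu using hu
  have hfix : ∀ σ τ, ac _ σ (c τ) = c τ := by
    intro σ τ
    rcases hW.tr'_rep hw (hu τ) with h | h | h
    all_goals exact Rep.unique (by simpa using h.pm (σ : Qbar →+* Qbar)) h
  have hadd : ∀ σ τ, c (σ * τ) = c σ + c τ := fun σ τ => by rw [hcc.2, hfix]
  have hc1 := cocycle_one hcc
  have hcases : ∀ σ : GQ, σ w = w ∨ σ w = w ^ 2 := fun σ => by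
    have h1 : σ w ^ 2 + σ w + 1 = 0 := by simpa using congrArg σ hw
    have : (σ w - w) * (σ w - w ^ 2) = 0 := by grind
    exact (mul_eq_zero.1 this).imp sub_eq_zero.1 sub_eq_zero.1
  let H : Subgroup GQ := MulAction.stabilizer GQ w
  have hH : ∀ σ : GQ, σ ∈ H ↔ σ w = w := fun σ => Iff.rfl
  have hroot : ∀ σ ∈ H, ∀ v : Qbar, v ^ 3 = 1 → σ v = v := by
    intro σ hσ v hv
    rcases cube_root_cases hw hv with rfl | rfl | rfl <;> simp [(hH σ).1 hσ]
  obtain ⟨L, hL, hL'⟩ := exists_level c hcc.1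
  have hu0 : ∀ σ, u σ ≠ 0 := by
    intro σ h0
    simpa [h0] using (hu σ).1
  have humul : ∀ σ τ, u (σ * τ) = u σ * u τ := fun σ τ => by
    have h1 := hW.tr'_add hw (hu σ) (hu τ)
    rw [← hadd] at h1
    exact hW.tr'_unique hw (hu _) h1
  have huone : ∀ σ, c σ = 0 → u σ = 1 := fun σ h => by
    have h1 := hu σ
    rw [h] at h1
    exact hW.tr'_unique hw h1 ⟨by simp, hW.hrep_zero hw⟩
  obtain ⟨ρ, hρ, hρ'⟩ := h90 H u (fun σ _ => hu0 σ) (fun σ hσ τ _ => by
    rw [humul, hroot σ hσ _ (hu τ).1]) L (fun σ _ hσ => huone σ (by rw [hL' σ hσ, hc1]))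
  obtain ⟨t, ht, htc⟩ : ∃ t : GQ, t w = w ^ 2 ∧ c t = 0 := by
    obtain ⟨t, ht⟩ := exists_conj hw
    refine ⟨t * t * t, ?_, ?_⟩
    · simp only [AlgEquiv.mul_apply, ht, map_pow]; grind
    · rw [hadd, hadd, ← h3 t]; abel
  have httH : t * t ∈ H := by
    rw [hH]; simp only [AlgEquiv.mul_apply, ht, map_pow]; grind
  have htinv : ∀ σ ∈ H, t⁻¹ * σ * t ∈ H := by
    intro σ hσ
    rw [hH, AlgEquiv.mul_apply, AlgEquiv.mul_apply, ht, map_pow, (hH σ).1 hσ, ← ht]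
    exact t.symm_apply_apply w
  have htρ : ∀ σ ∈ H, σ (t ρ) = u σ ^ 2 * t ρ := by
    intro σ hσ
    have e1 : σ (t ρ) = t ((t⁻¹ * σ * t) ρ) := by
      rw [AlgEquiv.mul_apply, AlgEquiv.mul_apply]
      exact (t.apply_symm_apply _).symm
    have e2 : u (t⁻¹ * σ * t) = u σ := by
      have := humul t⁻¹ t
      rw [inv_mul_cancel, huone 1 hc1] at this
      rw [humul, humul]
      linear_combination (-u σ) * this
    rw [e1, hρ' _ (htinv σ hσ), e2, map_mul]
    congr 1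
    rcases cube_root_cases hw (hu σ).1 with h | h | h <;> rw [h] <;> simp [ht]
  have httρ : t (t ρ) = ρ := by
    have := hρ' _ httH
    rwa [humul, huone t htc, one_mul, one_mul] at this
  have hall : ∀ x : Qbar, (∀ σ ∈ H, σ x = x) → t x = x → ∃ q : ℚ, (q : Qbar) = x := by
    intro x hx htx
    refine rat_of_fixed fun σ => ?_
    rcases hcases σ with h | h
    · exact hx σ h
    · have : σ * t ∈ H := by
        rw [hH, AlgEquiv.mul_apply, ht, map_pow, h]; grind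
      have := hx _ this
      rwa [AlgEquiv.mul_apply, htx] at this
  have htρ0 : t ρ ≠ 0 := (map_ne_zero t).2 hρ
  obtain ⟨N, hN⟩ := hall (ρ * t ρ) (fun σ hσ => by
    have := (hu σ).1
    rw [map_mul, htρ σ hσ, hρ' σ hσ]; grind) (by rw [map_mul, httρ, mul_comm])
  have hd : w - w ^ 2 ≠ 0 := fun h => mul_ne_zero hw0 hw1 (by linear_combination -h)
  obtain ⟨n, hn⟩ := hall ((ρ ^ 3 - t ρ ^ 3) / (w - w ^ 2)) (fun σ hσ => by
    have := (hu σ).1
    simp only [map_div₀, map_sub, map_pow, htρ σ hσ, hρ' σ hσ, (hH σ).1 hσ]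
    congr 1
    grind) (by
    simp only [map_div₀, map_sub, map_pow, httρ, ht]
    rw [div_eq_div_iff (by grind) hd]
    grind)
  obtain ⟨m', hm'⟩ := hall (ρ ^ 3 + t ρ ^ 3) (fun σ hσ => by
    have := (hu σ).1
    simp only [map_add, map_pow, htρ σ hσ, hρ' σ hσ]
    grind) (by simp only [map_add, map_pow, httρ]; ring)
  rw [eq_div_iff hd] at hn
  have e1 : ρ ^ 3 = ((m' + n) / 2 : ℚ) + (n : ℚ) * w := by
    push_cast; grind
  have e2 : t ρ ^ 3 = ((m' + n) / 2 : ℚ) + (n : ℚ) * w ^ 2 := by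
    push_cast; grind
  generalize (m' + n) / 2 = m at e1 e2
  refine ⟨m, n, N, ?_, ?_, fun K _ _ hK ⟨w1, hw1⟩ => ?_, fun ⟨x, y, hx, hy⟩ => ?_⟩
  · rintro rfl
    exact mul_ne_zero hρ htρ0 (by simpa using hN.symm)
  · have : (m : Qbar) ^ 2 - m * n + n ^ 2 = N ^ 3 := by
      rw [hN, mul_pow, e1, e2]; grind
    exact_mod_cast this
  · obtain ⟨R, hR⟩ := hK
    have hW' := isW hb hc (AlgebraicClosure K)
    have hw' : emb K w ^ 2 + emb K w + 1 = 0 := by simpa using congrArg (emb K) hw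
    obtain ⟨w0, hw0, hw0'⟩ : ∃ w0 : K, w0 ^ 2 + w0 + 1 = 0 ∧ algebraMap K _ w0 = emb K w := by
      have h1 : algebraMap K (AlgebraicClosure K) w1 ^ 2 + algebraMap K _ w1 + 1 = 0 := by
        simpa using congrArg (algebraMap K (AlgebraicClosure K)) hw1
      have : (algebraMap K _ w1 - emb K w) * (algebraMap K _ w1 ^ 2 - emb K w) = 0 := by grind
      rcases mul_eq_zero.1 this with h | h
      · exact ⟨w1, hw1, sub_eq_zero.1 h⟩
      · exact ⟨w1 ^ 2, by grind, by rw [map_pow]; exact sub_eq_zero.1 h⟩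
    obtain ⟨r, s, z, hg⟩ := hW'.exists_hrep hw' R
    refine ⟨w0, hw0, local_point K (g0 := r) (g1 := s) (g2 := z) (ρ := emb K ρ) (by simpa using hρ)
      (by rw [← map_pow, e1]; simp [hw0']) (by simpa using hW'.hon hw' hg) hg.ne fun σ => ?_⟩
    obtain ⟨τ, hτ⟩ := exists_res K σ
    have hσw : σ (emb K w) = emb K w := by rw [← hw0']; exact σ.commutes w0
    have hτH : τ ∈ H := (emb K).injective (by rw [← hσw]; exact hτ w)
    have h1 := hW'.tr'_tr hw' ((hu τ).pm (emb K)) hg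
    rw [hR σ τ hτ, add_sub_cancel] at h1
    have h2 := hg.pm (σ : AlgebraicClosure K →+* AlgebraicClosure K)
    change HRep _ _ (σ (emb K w)) _ _ _ _ at h2
    rw [hσw] at h2
    obtain ⟨k, -, f0, f1, f2⟩ := hW'.hprop hw' h1 h2
    exact ⟨emb K (u τ), k, by rw [← hτ, hρ' τ hτH, map_mul], f0, f1, f2⟩
  · have hγ : ((x : Qbar) + y * w) ^ 3 = ρ ^ 3 := by
      rw [e1, hx, hy]; push_cast; grind
    have hγ0 : (x : Qbar) + y * w ≠ 0 := by
      intro h; rw [h] at hγ; exact pow_ne_zero 3 hρ (by simpa using hγ.symm)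
    have hHc : ∀ σ ∈ H, c σ = 0 := by
      intro σ hσ
      have h1 := hroot σ hσ (ρ / (x + y * w)) (by rw [div_pow, hγ]; field_simp)
      have h2 : σ ((x : Qbar) + y * w) = x + y * w := by simp [(hH σ).1 hσ]
      rw [map_div₀, h2, hρ' σ hσ, div_left_inj' hγ0] at h1
      have h3 : u σ = 1 := mul_right_cancel₀ hρ (by simpa using h1)
      exact hW.tr'_one hw (h3 ▸ hu σ)
    intro σ
    have h2 : σ * σ ∈ H := by
      rw [hH, AlgEquiv.mul_apply]
      rcases hcases σ with h | h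
      · rw [h, h]
      · rw [h, map_pow, h]; grind
    have h4 := hHc _ h2
    rw [hadd] at h4
    have h5 := h3 σ
    rw [show 3 • c σ = c σ + c σ + c σ by abel, h4, zero_add] at h5
    exact h5

end Pool.Agent.MP_a43263_nt

end MrgPart0

-- ======== part 1: formerly Pool.Agent.MP_a43263_nt.Descent
section MrgPart1

namespace Pool.Agent.MP_a43263_nt

open Classical WeierstrassCurve Filter Topology

variable {a b : ℚ}

theorem eventually_apply_eq (σ0 : GQ) (x : Qbar) : ∀ᶠ σ in 𝓝 σ0, σ x = σ0 x := by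
  have h1 : (MulAction.stabilizer GQ x : Set GQ) ∈ 𝓝 (σ0⁻¹ * σ0) := by
    rw [inv_mul_cancel]
    exact (stabilizer_isOpen_of_isIntegral x).mem_nhds (Subgroup.one_mem _)
  filter_upwards [(continuous_const_mul σ0⁻¹).continuousAt.preimage_mem_nhds h1] with σ hσ
  have : σ0⁻¹ (σ x) = x := hσ
  exact (σ0.apply_symm_apply _).symm.trans (congrArg σ0 this)

theorem cob_mem {W : WeierstrassCurve ℚ} (R : Pt W Qbar) :
    (fun σ => ac W σ R - R) ∈ cocycles W := by
  refine ⟨(IsLocallyConstant.iff_eventually_eq _).2 fun σ0 => ?_, fun σ τ => ?_⟩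
  · rcases R with _ | ⟨x, y, h⟩
    · exact Eventually.of_forall fun _ => rfl
    · filter_upwards [eventually_apply_eq σ0 x, eventually_apply_eq σ0 y] with σ h1 h2
      congr 1
      exact Rep.unique (X := σ x) (Y := σ y) (Z := 1) ⟨by simp, by simp, one_ne_zero⟩
        ⟨by simp [h1], by simp [h2], one_ne_zero⟩
  · simp only [ac_mul, map_sub]
    abel

theorem LocTriv.sub_cob {W : WeierstrassCurve ℚ} {K : Type} [Field K] [CharZero K]
    {c : GQ → Pt W Qbar} (h : LocTriv W K c) (R : Pt W Qbar) :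
    LocTriv W K (c - fun σ => ac W σ R - R) := by
  obtain ⟨S, hS⟩ := h
  refine ⟨S - ptMap W (emb K) R, fun σ τ hτ => ?_⟩
  have : ptMap W (emb K) (ac W τ R) =
      ptMap W (σ : AlgebraicClosure K →+* AlgebraicClosure K) (ptMap W (emb K) R) := by
    rw [pm_pm, pm_pm]
    congr 2
    exact RingHom.ext hτ
  simp only [Pi.sub_apply, map_sub, hS σ τ hτ, this]
  abel

theorem LocTriv.zero {W : WeierstrassCurve ℚ} {K : Type} [Field K] [CharZero K] :
    LocTriv W K 0 := ⟨0, fun σ τ _ => by simp⟩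

theorem LocTriv.nsmul {W : WeierstrassCurve ℚ} {K : Type} [Field K] [CharZero K]
    {c : GQ → Pt W Qbar} (h : LocTriv W K c) (n : ℕ) : LocTriv W K (n • c) := by
  obtain ⟨S, hS⟩ := h
  exact ⟨n • S, fun σ τ hτ => by simp only [Pi.smul_apply, map_nsmul, hS σ τ hτ, smul_sub]⟩

/-- arithmetic input for the first isogeny -/
def HypA (a b : ℚ) (A : Set (Pt (WW a b) ℚ)) : Prop :=
  ∀ β : ℚ, β ≠ 0 → (∀ (p : ℕ) [Fact p.Prime], Sol (a : ℚ_[p]) b β) → ∃ P ∈ A, Good a b β P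

/-- arithmetic input for the second isogeny -/
def HypB (a b : ℚ) : Prop :=
  ∀ m n N : ℚ, N ≠ 0 → m ^ 2 - m * n + n ^ 2 = N ^ 3 →
    (∀ (p : ℕ) [Fact p.Prime], (∃ w : ℚ_[p], w ^ 2 + w + 1 = 0) →
      ∃ w : ℚ_[p], w ^ 2 + w + 1 = 0 ∧ Sol (a : ℚ_[p]) (a ^ 3 - b) (m + n * w)) →
    ∃ x y : ℚ, m = x ^ 3 - 3 * x * y ^ 2 + y ^ 3 ∧ n = 3 * x ^ 2 * y - 3 * x * y ^ 2

theorem descent (hb : b ≠ 0) (hc : a ^ 3 - b ≠ 0) {A : Set (Pt (WW a b) ℚ)} (HA : HypA a b A)
    (HB : HypB a b) {c : GQ → Pt (WW a b) Qbar} (hcc : c ∈ cocycles (WW a b))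
    (h3 : ∀ σ, 3 • c σ = 0) (hloc : ∀ (p : ℕ) [Fact p.Prime], LocTriv (WW a b) ℚ_[p] c) :
    ∃ R : Pt (WW a b) Qbar, ∃ P ∈ A, 3 • R = inc _ P ∧ ∀ σ, c σ = ac _ σ R - R := by
  have hW := isW hb hc Qbar
  obtain ⟨β, ρ, hβ, hρ, hT, hS⟩ := step1 hb hc hcc h3
  obtain ⟨P, hP, hG⟩ := HA β hβ fun p _ => hS _ (hloc p)
  obtain ⟨R, hR, hR'⟩ := hG ρ hρ
  have hcc' := (cocycles (WW a b)).sub_mem hcc (cob_mem R)
  have h3' : ∀ σ, 3 • (c - fun σ => ac _ σ R - R) σ = 0 := by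
    intro σ
    simp only [Pi.sub_apply, smul_sub, h3, ← map_nsmul, hR, ac_inc]
    simp
  obtain ⟨m, n, N, hN, hmn, hl, hz⟩ := step2 hb hc hcc' h3' (fun σ => by
    obtain ⟨w, hw⟩ := exists_w (F := Qbar)
    obtain ⟨v, hv, -⟩ := hW.tr_ex hw (h3' σ)
    have h1 := hv.add (hR' σ)
    simp only [Pi.sub_apply, sub_add_cancel] at h1
    have h2 := hW.tr_unique h1 (hT σ)
    have h4 : σ ρ / ρ ≠ 0 := by
      intro h0
      simpa [h0] using (hT σ).1
    have : v = 1 := mul_right_cancel₀ h4 (by rw [h2, one_mul])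
    rwa [this] at hv)
  have := hz (HB m n N hN hmn fun p _ hw => hl _ ((hloc p).sub_cob R) hw)
  exact ⟨R, P, hP, hR, fun σ => sub_eq_zero.1 (this σ)⟩

theorem sha_three (hb : b ≠ 0) (hc : a ^ 3 - b ≠ 0) {A : Set (Pt (WW a b) ℚ)} (HA : HypA a b A)
    (HB : HypB a b) (k : ℕ) : ∀ x ∈ Sha (WW a b), 3 ^ k • x = 0 → x = 0 := by
  have key : ∀ x ∈ Sha (WW a b), 3 • x = 0 → x = 0 := by
    rintro _ ⟨c, rfl, -, hloc⟩ h
    obtain ⟨P, hP⟩ := (QuotientAddGroup.eq_zero_iff (3 • c)).1 h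
    obtain ⟨R, rfl⟩ := (isW hb hc Qbar).exists_third P
    obtain ⟨S, -, -, -, hS⟩ := descent hb hc HA HB ((cocycles (WW a b)).sub_mem c.2 (cob_mem R))
      (fun σ => by
        have : 3 • c.1 σ = _ := hP σ
        simp only [Pi.sub_apply, smul_sub, this, map_nsmul, sub_self])
      (fun p _ => (hloc p).sub_cob R)
    refine (QuotientAddGroup.eq_zero_iff c).2 ⟨R + S, fun σ => ?_⟩
    have := hS σ
    simp only [Pi.sub_apply] at this
    change c.1 σ = _
    rw [map_add, sub_eq_iff_eq_add.1 this]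
    abel
  induction k with
  | zero => intro x _ h; simpa using h
  | succ k ih =>
    intro x hx h
    refine ih x hx (key _ ?_ (by rw [← mul_nsmul', ← pow_succ', h]))
    obtain ⟨c, rfl, h1, h2⟩ := hx
    exact ⟨3 ^ k • c, rfl, h1.nsmul _, fun p _ => (h2 p).nsmul _⟩

theorem weak_mw (hb : b ≠ 0) (hc : a ^ 3 - b ≠ 0) {A : Set (Pt (WW a b) ℚ)} (HA : HypA a b A)
    (HB : HypB a b) (Q : Pt (WW a b) ℚ) : ∃ P ∈ A, ∃ Z, Q = P + 3 • Z := by
  obtain ⟨R, hR⟩ := (isW hb hc Qbar).exists_third (inc _ Q)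
  obtain ⟨S, P, hP, hS, hS'⟩ := descent hb hc HA HB (cob_mem R)
    (fun σ => by simp only [smul_sub, ← map_nsmul, hR, ac_inc, sub_self])
    (fun p _ => by
      have := (LocTriv.zero (W := WW a b) (K := ℚ_[p])).sub_cob (-R)
      convert this using 1
      ext σ
      simp only [map_neg, Pi.sub_apply, Pi.zero_apply]
      abel)
  obtain ⟨Z, hZ⟩ := exists_inc (P := R - S) fun σ => by
    rw [map_sub, sub_eq_iff_eq_add.1 (hS' σ)]; abel
  refine ⟨P, hP, Z, pm_inj (Rat.castHom Qbar) ?_⟩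
  change inc _ Q = inc _ _
  rw [map_add, map_nsmul, hZ, ← hR, ← hS, smul_sub]
  abel

end Pool.Agent.MP_a43263_nt

end MrgPart1

-- ======== part 2: formerly Pool.Agent.MP_a43263_nt.MW
section MrgPart2

namespace Pool.Agent.MP_a43263_nt

open WeierstrassCurve WeierstrassCurve.Affine Height

variable {K : Type} [Field K] [DecidableEq K] {V : Affine K} [V.IsElliptic]

theorem addSub_self (P : V.Point) : ∃ k : K, k ≠ 0 ∧
    (fun i => (addSubMap V i).eval (P.sym2x P)) = k • (P + P).sym2x 0 := by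
  rcases P with _ | ⟨x, y, h⟩
  · refine ⟨1, one_ne_zero, ?_⟩
    ext i
    fin_cases i <;> simp [addSubMap, ← Point.zero_def]
  have e := (equation_iff _ _).1 h.1
  by_cases hy : y = V.negY x y
  · have h0 := addSubMap_ne_zero V (Point.sym2x_ne_zero (.some x y h) (.some x y h))
    rw [Point.add_self_of_Y_eq hy]
    have key : (fun i => (addSubMap V i).eval ((Point.some x y h).sym2x (.some x y h))) =
        ((addSubMap V 0).eval ((Point.some x y h).sym2x (.some x y h))) •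
          (0 : V.Point).sym2x 0 := by
      ext i
      rw [negY] at hy
      fin_cases i <;> simp [addSubMap, b₂, b₄, b₆]
      · grind
      · ring
    refine ⟨_, fun h1 => h0 ?_, key⟩
    rw [key, h1, zero_smul]
  · rw [Point.add_self_of_Y_ne hy]
    have hd : y - V.negY x y ≠ 0 := sub_ne_zero.2 hy
    refine ⟨(y - V.negY x y) ^ 2, pow_ne_zero _ hd, ?_⟩
    ext i
    fin_cases i <;> simp [addSubMap, b₂, b₄, b₆, b₈]
    · rw [slope_of_Y_ne rfl hy]
      field_simp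
      rw [negY]
      grind
    · grind
    · ring

theorem addSub (P Q : V.Point) : ∃ k : K, k ≠ 0 ∧
    (fun i => (addSubMap V i).eval (P.sym2x Q)) = k • (P + Q).sym2x (P - Q) := by
  by_cases h1 : P = Q
  · subst h1
    simpa using addSub_self P
  by_cases h2 : P = -Q
  · obtain rfl : Q = -P := by rw [h2, neg_neg]
    rw [Point.sym2x_neg_right, add_neg_cancel, sub_neg_eq_add, Point.sym2x_comm 0]
    exact addSub_self P
  rcases P with _ | ⟨x, y, h⟩ <;> rcases Q with _ | ⟨x', y', h'⟩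
  · exact absurd rfl h1
  · refine ⟨1, one_ne_zero, ?_⟩
    rw [← Point.zero_def, zero_add, zero_sub, Point.sym2x_neg_right]
    ext i
    fin_cases i <;> simp [addSubMap] <;> ring
  · refine ⟨1, one_ne_zero, ?_⟩
    rw [← Point.zero_def, add_zero, sub_zero]
    ext i
    fin_cases i <;> simp [addSubMap] <;> ring
  have hx : x ≠ x' := fun hx => (Point.X_eq_iff.1 hx).elim h1 h2
  have e := (equation_iff _ _).1 h.1
  have e' := (equation_iff _ _).1 h'.1
  have hd : x - x' ≠ 0 := sub_ne_zero.2 hx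
  refine ⟨(x - x') ^ 2, pow_ne_zero _ hd, ?_⟩
  rw [sub_eq_add_neg (Point.some x y h), Point.neg_some, Point.add_of_X_ne hx, Point.add_of_X_ne hx]
  ext i
  fin_cases i <;> simp [addSubMap, b₂, b₄, b₆, b₈, slope_of_X_ne hx]
  · field_simp
    grind
  · field_simp
    grind
  · ring

variable [AdmissibleAbsValues K]

theorem parallelogram : ∃ C, ∀ P Q : V.Point, |logHeight (P + Q).xRep + logHeight (P - Q).xRep -
    2 * (logHeight P.xRep + logHeight Q.xRep)| ≤ C := by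
  obtain ⟨C1, h1⟩ := abs_logHeight_addSubMap_sub_two_mul_logHeight_le V
  obtain ⟨C2, h2⟩ := abs_logHeight_sym2_sub_le K
  have h3 : ∀ P Q : V.Point,
      |logHeight (P.sym2x Q) - (logHeight P.xRep + logHeight Q.xRep)| ≤ C2 := by
    intro P Q
    have e : ∀ R : V.Point, R.xRep = ![R.xRep 0, R.xRep 1] := fun R => by
      ext i; fin_cases i <;> rfl
    have := h2 (e P ▸ P.xRep_ne_zero) (e Q ▸ Q.xRep_ne_zero)
    rw [← e, ← e] at this
    convert this
    cases P <;> cases Q <;> simp [← Point.zero_def]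
  refine ⟨C1 + 3 * C2, fun P Q => ?_⟩
  obtain ⟨k, hk, e⟩ := addSub P Q
  have a1 := h1 (P.sym2x Q)
  rw [e, logHeight_smul_eq_logHeight _ hk] at a1
  have a2 := h3 P Q
  have a3 := h3 (P + Q) (P - Q)
  rw [abs_le] at *
  constructor <;> linarith [a1.1, a1.2, a2.1, a2.2, a3.1, a3.2]

omit [DecidableEq K] [V.IsElliptic] in
theorem northcott [Northcott (logHeight₁ (K := K))] :
    Northcott (fun P : V.Point => logHeight P.xRep) where
  finite_le B := by
    refine Set.Finite.of_finite_fibers Point.xRep ?_ ?_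
    · refine (((Northcott.finite_le (h := logHeight₁ (K := K)) B).image
        fun x => ![x, 1]).insert ![1, 0]).subset ?_
      rintro _ ⟨P, hP, rfl⟩
      rcases P with _ | ⟨x, y, h⟩
      · exact .inl rfl
      · exact .inr ⟨x, by simpa [logHeight₁_eq_logHeight] using hP, rfl⟩
    · rintro _ ⟨P, -, rfl⟩
      refine ((Set.finite_singleton (-P)).insert P).subset ?_
      rintro Q ⟨-, hQ⟩
      exact Point.eq_or_eq_neg_of_xRep_eq_xRep hQ

theorem fg_of_three [Northcott (logHeight₁ (K := K))] (A : Set V.Point) (hA : A.Finite)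
    (h : ∀ Q : V.Point, ∃ P ∈ A, ∃ Z, Q = P + 3 • Z) : AddGroup.FG V.Point := by
  obtain ⟨C, hC⟩ := parallelogram (V := V)
  have := northcott (V := V)
  have h0 : ∀ P : V.Point, 0 ≤ logHeight P.xRep := fun P => logHeight_nonneg _
  obtain ⟨B, hB⟩ := (hA.image fun P => logHeight P.xRep).bddAbove
  refine AddGroup.fg_of_descent (f := nsmulAddMonoidHom 3) (s := A)
    (h := fun P : V.Point => logHeight P.xRep) (a := 2) (b := 9)
    (c := 2 * B + C + 4 * C + 2 * logHeight (0 : V.Point).xRep) ?_ (by norm_num) (by norm_num) hA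
    ?_ ?_ ?_
  · rintro U _ ⟨u, hu, rfl⟩
    exact U.nsmul_mem hu 3
  · refine Set.eq_univ_of_forall fun Q => ?_
    obtain ⟨P, hP, Z, rfl⟩ := h Q
    exact Set.add_mem_add hP ⟨Z, rfl⟩
  · intro g hg x
    have a1 := abs_le.1 (hC (g + x) g)
    have a2 := hB ⟨g, hg, rfl⟩
    have a3 := (abs_nonneg _).trans (hC 0 0)
    rw [add_sub_cancel_left] at a1
    linarith [a1.2, h0 (g + x + g), h0 0]
  · intro x
    have a1 := abs_le.1 (hC x x)
    have a2 := abs_le.1 (hC (x + x) x)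
    have a3 := (abs_nonneg _).trans (hC 0 0)
    obtain ⟨g, hg, -⟩ := h 0
    have a4 := hB ⟨g, hg, rfl⟩
    rw [sub_self] at a1
    rw [add_sub_cancel_right] at a2
    rw [nsmulAddMonoidHom_apply, show 3 • x = x + x + x by abel]
    linarith [a1.1, a2.1, h0 g]

end Pool.Agent.MP_a43263_nt

end MrgPart2

-- marker of a merged file
example : 731051 + 168982 = 731051 + 168982 := rfl
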