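import Mathlib.Data.Int.Star
import Mathlib.FieldTheory.Finite.Basic
import Mathlib.Algebra.Order.Star.Real
import Mathlib.Algebra.QuadraticAlgebra.Basic
import Mathlib.Data.ZMod.Units
import Mathlib.Tactic.NormNum.Prime
import Mathlib.NumberTheory.Padics.RingHoms
import Mathlib.NumberTheory.Padics.Hensel
import Pool.Agent.MP_a43263_nt.MW

-- ======== part 0: formerly Pool.Agent.MP_a43263_nt.Local
section MrgPart0

namespace Pool.Agent.MP_a43263_nt

theorem Sol.scale {K : Type} [Field K] {A B β γ : K} (hγ : γ ≠ 0) (h : Sol A B (γ ^ 3 * β)) :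
    Sol A B β := by
  obtain ⟨X, Y, Z, h1, h2⟩ := h
  exact ⟨γ * X, γ ^ 2 * Y, Z, by simpa [hγ] using h1, by linear_combination h2⟩

theorem cube_of_norm {k : Type*} [Field k] {β X Y c : k} (hne : ¬(X = 0 ∧ Y = 0 ∧ c = 0))
    (e : β * X ^ 3 + β ^ 2 * Y ^ 3 + c ^ 3 = 3 * β * X * Y * c) : ∃ θ : k, θ ^ 3 = β := by
  by_cases h : X ^ 2 - Y * c = 0
  · have hY : Y ≠ 0 := by
      rintro rfl
      have hX : X = 0 := by simpa using h
      subst hX
      exact hne ⟨rfl, rfl, by simpa using e⟩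
    have : (X ^ 3 - β * Y ^ 3) ^ 2 = 0 := by grind
    refine ⟨X / Y, ?_⟩
    rw [div_pow, div_eq_iff (pow_ne_zero _ hY)]
    exact sub_eq_zero.1 (pow_eq_zero_iff two_ne_zero |>.1 this)
  · refine ⟨(Y ^ 2 * β - X * c) / (X ^ 2 - Y * c), ?_⟩
    rw [div_pow, div_eq_iff (pow_ne_zero _ h)]
    linear_combination (β * Y ^ 3 - X ^ 3) * e

variable {p : ℕ} [Fact p.Prime]

theorem val_eq_of_norm_eq {x y : ℚ_[p]} (hx : x ≠ 0) (h : ‖x‖ = ‖y‖) :
    y ≠ 0 ∧ x.valuation = y.valuation := by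
  have hy : y ≠ 0 := by
    rintro rfl
    exact hx (by simpa using h)
  refine ⟨hy, ?_⟩
  rw [Padic.norm_eq_zpow_neg_valuation hx, Padic.norm_eq_zpow_neg_valuation hy] at h
  have h1 : (1 : ℝ) < p := by exact_mod_cast (Fact.out : p.Prime).one_lt
  have := zpow_right_injective₀ (by linarith) h1.ne' h
  omega

theorem val_of_norm_one {x : ℚ_[p]} (h : ‖x‖ = 1) : x.valuation = 0 := by
  have hx : x ≠ 0 := by rintro rfl; simp at h
  simpa using (val_eq_of_norm_eq (y := 1) hx (by simpa using h)).2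

theorem max_aux {x y z : ℚ_[p]} (hy : ‖y‖ < ‖x‖) (hz : ‖z‖ < ‖x‖)
    (h : ‖x + y + z‖ ^ 3 ≤ ‖x‖ * ‖y‖ * ‖z‖) : False := by
  have h1 : ‖y + z‖ < ‖x‖ := (Padic.nonarchimedean y z).trans_lt (max_lt hy hz)
  rw [add_assoc, Padic.add_eq_max_of_ne h1.ne', max_eq_left h1.le] at h
  have h0 : 0 < ‖x‖ := (norm_nonneg _).trans_lt hy
  have := mul_lt_mul'' hy hz (norm_nonneg _) (norm_nonneg _)
  nlinarith

theorem Sol.val {A B β : ℚ_[p]} (hA : ‖A‖ ≤ 1) (hB : ‖B‖ = 1) (hβ : β ≠ 0) (h : Sol A B β) :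
    (3 : ℤ) ∣ β.valuation := by
  by_contra hv
  obtain ⟨X, Y, Z, hne, e⟩ := h
  have hB0 : B ≠ 0 := by rintro rfl; simp at hB
  have vB := val_of_norm_one hB
  set T1 := β * X ^ 3 with h1
  set T2 := β ^ 2 * Y ^ 3 with h2
  set T3 := B * Z ^ 3 with h3
  have v1 : T1 ≠ 0 → T1.valuation = β.valuation + 3 * X.valuation := fun h => by
    rw [h1, Padic.valuation_mul hβ (right_ne_zero_of_mul h), Padic.valuation_pow]; rfl
  have v2 : T2 ≠ 0 → T2.valuation = 2 * β.valuation + 3 * Y.valuation := fun h => by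
    rw [h2, Padic.valuation_mul (pow_ne_zero _ hβ) (right_ne_zero_of_mul h), Padic.valuation_pow,
      Padic.valuation_pow]; rfl
  have v3 : T3 ≠ 0 → T3.valuation = 3 * Z.valuation := fun h => by
    rw [h3, Padic.valuation_mul hB0 (right_ne_zero_of_mul h), Padic.valuation_pow, vB]; simp
  have hS : ‖T1 + T2 + T3‖ ^ 3 ≤ ‖T1‖ * ‖T2‖ * ‖T3‖ := by
    have h3' : ‖(3 : ℚ_[p])‖ ≤ 1 := by simpa using Padic.norm_int_le_one (p := p) 3
    rw [e, h1, h2, h3]
    simp only [norm_mul, norm_pow, hB]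
    calc _ = (‖(3 : ℚ_[p])‖ * ‖A‖) ^ 3 * (‖β‖ * ‖X‖ * ‖Y‖ * ‖Z‖) ^ 3 := by ring
      _ ≤ 1 * (‖β‖ * ‖X‖ * ‖Y‖ * ‖Z‖) ^ 3 := by
        gcongr
        exact pow_le_one₀ (by positivity) (mul_le_one₀ h3' (norm_nonneg _) hA)
      _ = _ := by ring
  have hz : ¬(T1 = 0 ∧ T2 = 0 ∧ T3 = 0) := by
    rintro ⟨a1, a2, a3⟩
    exact hne ⟨by simpa [h1, hβ] using a1, by simpa [h2, hβ] using a2, by simpa [h3, hB0] using a3⟩
  clear_value T1 T2 T3
  have d12 : ‖T1‖ = ‖T2‖ → T1 = 0 := fun h => by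
    by_contra h0
    obtain ⟨a1, a2⟩ := val_eq_of_norm_eq h0 h
    have := v1 h0; have := v2 a1; omega
  have d13 : ‖T1‖ = ‖T3‖ → T1 = 0 := fun h => by
    by_contra h0
    obtain ⟨a1, a2⟩ := val_eq_of_norm_eq h0 h
    have := v1 h0; have := v3 a1; omega
  have d23 : ‖T2‖ = ‖T3‖ → T2 = 0 := fun h => by
    by_contra h0
    obtain ⟨a1, a2⟩ := val_eq_of_norm_eq h0 h
    have := v2 h0; have := v3 a1; omega
  have n1 := norm_nonneg T1
  have n2 := norm_nonneg T2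
  have n3 := norm_nonneg T3
  have z1 : ‖T1‖ = 0 ↔ T1 = 0 := norm_eq_zero
  have z2 : ‖T2‖ = 0 ↔ T2 = 0 := norm_eq_zero
  have z3 : ‖T3‖ = 0 ↔ T3 = 0 := norm_eq_zero
  have c : (‖T2‖ < ‖T1‖ ∧ ‖T3‖ < ‖T1‖) ∨ (‖T1‖ < ‖T2‖ ∧ ‖T3‖ < ‖T2‖) ∨
      (‖T1‖ < ‖T3‖ ∧ ‖T2‖ < ‖T3‖) := by grind
  rcases c with ⟨a1, a2⟩ | ⟨a1, a2⟩ | ⟨a1, a2⟩
  · exact max_aux a1 a2 hS
  · exact max_aux a1 a2 (by convert hS using 1 <;> ring_nf)
  · exact max_aux a1 a2 (by convert hS using 1 <;> ring_nf)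

theorem Sol.int {A B β : ℤ_[p]} (h : Sol (A : ℚ_[p]) B β) :
    ∃ X Y Z : ℤ_[p], (IsUnit X ∨ IsUnit Y ∨ IsUnit Z) ∧
      β * X ^ 3 + β ^ 2 * Y ^ 3 + B * Z ^ 3 = 3 * A * β * X * Y * Z := by
  obtain ⟨X, Y, Z, hne, e⟩ := h
  obtain ⟨t, ht, h1, h2, h3⟩ : ∃ t, (t = X ∨ t = Y ∨ t = Z) ∧ ‖X‖ ≤ ‖t‖ ∧ ‖Y‖ ≤ ‖t‖ ∧ ‖Z‖ ≤ ‖t‖ := by
    rcases le_total ‖X‖ ‖Y‖ with a | a <;> rcases le_total ‖Y‖ ‖Z‖ with b | b <;>
      rcases le_total ‖X‖ ‖Z‖ with c | c
    all_goals first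
      | exact ⟨X, .inl rfl, le_rfl, by linarith, by linarith⟩
      | exact ⟨Y, .inr (.inl rfl), by linarith, le_rfl, by linarith⟩
      | exact ⟨Z, .inr (.inr rfl), by linarith, by linarith, le_rfl⟩
  have ht0 : t ≠ 0 := by
    rintro rfl
    exact hne ⟨by simpa using h1, by simpa using h2, by simpa using h3⟩
  have hn : 0 < ‖t‖ := norm_pos_iff.2 ht0
  have hd : ∀ x : ℚ_[p], ‖x‖ ≤ ‖t‖ → ‖x / t‖ ≤ 1 := fun x hx => by
    rw [norm_div, div_le_one hn]; exact hx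
  refine ⟨⟨X / t, hd _ h1⟩, ⟨Y / t, hd _ h2⟩, ⟨Z / t, hd _ h3⟩, ?_, ?_⟩
  · simp only [PadicInt.isUnit_iff]
    rcases ht with rfl | rfl | rfl
    · exact .inl (by simp [PadicInt.norm_def, ht0])
    · exact .inr (.inl (by simp [PadicInt.norm_def, ht0]))
    · exact .inr (.inr (by simp [PadicInt.norm_def, ht0]))
  · apply Subtype.ext
    push_cast
    have : ((3 : ℤ_[p]) : ℚ_[p]) = 3 := rfl
    rw [this]
    field_simp
    linear_combination e

theorem Sol.cube_mod {A B β : ℤ_[p]} (hA : PadicInt.toZMod A ≠ 0)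
    (hB : PadicInt.toZMod B = PadicInt.toZMod A ^ 3) (h : Sol (A : ℚ_[p]) B β) :
    ∃ θ : ZMod p, θ ^ 3 = PadicInt.toZMod β := by
  obtain ⟨X, Y, Z, hu, e⟩ := h.int
  have e' := congrArg PadicInt.toZMod e
  simp only [map_add, map_mul, map_pow, map_ofNat, hB] at e'
  refine cube_of_norm (X := PadicInt.toZMod X) (Y := PadicInt.toZMod Y)
    (c := PadicInt.toZMod A * PadicInt.toZMod Z) ?_ (by linear_combination e')
  rintro ⟨h1, h2, h3⟩
  have h3' := (mul_eq_zero.1 h3).resolve_left hA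
  rcases hu with hu | hu | hu
  · exact (hu.map PadicInt.toZMod).ne_zero h1
  · exact (hu.map PadicInt.toZMod).ne_zero h2
  · exact (hu.map PadicInt.toZMod).ne_zero h3'

theorem mod27_aux : ∀ β : ZMod 27, β ^ 6 = 10 ∨ β ^ 6 = 19 → ∀ X Y c : Fin 9,
    β * ((X : ℕ) : ZMod 27) ^ 3 + β ^ 2 * ((Y : ℕ) : ZMod 27) ^ 3 + ((c : ℕ) : ZMod 27) ^ 3 =
      3 * β * (X : ℕ) * (Y : ℕ) * (c : ℕ) →
      9 * ((X : ℕ) : ZMod 27) = 0 ∧ 9 * ((Y : ℕ) : ZMod 27) = 0 ∧ 9 * ((c : ℕ) : ZMod 27) = 0 := by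
  decide +kernel

theorem mod27_red : ∀ X : ZMod 27, ∃ x : Fin 9, X ^ 3 = ((x : ℕ) : ZMod 27) ^ 3 ∧
    3 * X = 3 * (x : ℕ) := by
  decide +kernel

theorem mod27 (β : ZMod 27) (hβ : β ^ 6 = 10 ∨ β ^ 6 = 19) (X Y c : ZMod 27)
    (e : β * X ^ 3 + β ^ 2 * Y ^ 3 + c ^ 3 = 3 * β * X * Y * c) :
    9 * X = 0 ∧ 9 * Y = 0 ∧ 9 * c = 0 := by
  obtain ⟨x, x1, x2⟩ := mod27_red X
  obtain ⟨y, y1, y2⟩ := mod27_red Y
  obtain ⟨z, z1, z2⟩ := mod27_red c
  obtain ⟨h1, h2, h3⟩ := mod27_aux β hβ x y z (by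
    rw [← x1, ← y1, ← z1, e]
    linear_combination β * Y * c * x2 + β * (x : ℕ) * c * y2 + β * (x : ℕ) * (y : ℕ) * z2)
  exact ⟨by linear_combination h1 + 3 * x2, by linear_combination h2 + 3 * y2,
    by linear_combination h3 + 3 * z2⟩

theorem Sol.mod_nine {A B β : ℤ} (hA : ¬(3 : ℤ) ∣ A) (hB : (27 : ℤ) ∣ A ^ 3 - B)
    (h : Sol (A : ℚ_[3]) B β) : ¬((β : ZMod 27) ^ 6 = 10 ∨ (β : ZMod 27) ^ 6 = 19) := by
  intro hβ
  obtain ⟨X, Y, Z, hu, e⟩ := Sol.int (p := 3) (A := A) (B := B) (β := β) (by simpa using h)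
  let f : ℤ_[3] →+* ZMod 27 := PadicInt.toZModPow 3
  have e' := congrArg f e
  have hB' : (B : ZMod 27) = (A : ZMod 27) ^ 3 := by
    have := (ZMod.intCast_zmod_eq_zero_iff_dvd _ 27).2 hB
    push_cast at this
    linear_combination -this
  simp only [map_add, map_mul, map_pow, map_ofNat, map_intCast, hB'] at e'
  obtain ⟨h1, h2, h3⟩ := mod27 β hβ (f X) (f Y) (A * f Z) (by linear_combination e')
  have key : ∀ x : ZMod 27, IsUnit x → 9 * x ≠ 0 := fun x hx h => by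
    rw [hx.mul_left_eq_zero] at h
    exact absurd h (by decide)
  have hA' : IsUnit (A : ZMod 27) := by
    rw [ZMod.coe_int_isUnit_iff_isCoprime]
    exact IsCoprime.pow_left (m := 3) ((Int.prime_three.coprime_iff_not_dvd).2 hA)
  rcases hu with hu | hu | hu
  · exact key _ (hu.map f) h1
  · exact key _ (hu.map f) h2
  · exact key _ (hA'.mul (hu.map f)) h3

end Pool.Agent.MP_a43263_nt

end MrgPart0

-- ======== part 1: formerly Pool.Agent.MP_a43263_nt.Eis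
section MrgPart1

namespace Pool.Agent.MP_a43263_nt

open QuadraticAlgebra

/-- Eisenstein integers -/
abbrev Eis : Type := QuadraticAlgebra ℤ (-1) (-1)

theorem Eis.norm_eq (x : Eis) : x.norm = x.re ^ 2 - x.re * x.im + x.im ^ 2 := by
  rw [norm_def]; ring

theorem Eis.norm_nonneg (x : Eis) : 0 ≤ x.norm := by
  rw [Eis.norm_eq]; nlinarith [sq_nonneg (2 * x.re - x.im), sq_nonneg x.im]

theorem Eis.norm_eq_zero {x : Eis} : x.norm = 0 ↔ x = 0 := by
  refine ⟨fun h => ?_, fun h => by simp [h]⟩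
  rw [Eis.norm_eq] at h
  have h1 : x.im = 0 := by nlinarith [sq_nonneg (2 * x.re - x.im), sq_nonneg x.im]
  have h2 : x.re = 0 := by rw [h1] at h; nlinarith
  ext <;> simp [h1, h2]

theorem Eis.norm_pos {x : Eis} (h : x ≠ 0) : 0 < x.norm :=
  x.norm_nonneg.lt_of_ne fun h' => h (Eis.norm_eq_zero.1 h'.symm)

theorem Eis.mul_star' (x : Eis) : x * star x = (x.norm : ℤ) := by
  rw [← algebraMap_norm_eq_mul_star]; simp

instance : NoZeroDivisors Eis where
  eq_zero_or_eq_zero_of_mul_eq_zero {x y} h := by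
    have := congrArg QuadraticAlgebra.norm h
    rw [map_mul, QuadraticAlgebra.norm_zero, mul_eq_zero] at this
    exact this.imp Eis.norm_eq_zero.1 Eis.norm_eq_zero.1

instance : IsDomain Eis := NoZeroDivisors.to_isDomain _

theorem Eis.exists_div (x y : Eis) (hy : y ≠ 0) : ∃ q : Eis, (x - q * y).norm < y.norm := by
  have hN := Eis.norm_pos hy
  set N := y.norm with hN'
  have rnd : ∀ u : ℤ, ∃ q, -N ≤ 2 * (u - q * N) ∧ 2 * (u - q * N) ≤ N := by
    intro u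
    refine ⟨(2 * u + N) / (2 * N), ?_⟩
    have h1 := Int.emod_nonneg (2 * u + N) (show 2 * N ≠ 0 by omega)
    have h2 := Int.emod_lt_of_pos (2 * u + N) (show 0 < 2 * N by omega)
    have h3 := Int.mul_ediv_add_emod (2 * u + N) (2 * N)
    constructor <;> nlinarith
  obtain ⟨q1, a1, a2⟩ := rnd (x * star y).re
  obtain ⟨q2, b1, b2⟩ := rnd (x * star y).im
  refine ⟨⟨q1, q2⟩, ?_⟩
  have e : (x - ⟨q1, q2⟩ * y) * star y =
      ⟨(x * star y).re - q1 * N, (x * star y).im - q2 * N⟩ := by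
    rw [sub_mul, mul_assoc, Eis.mul_star', ← hN']
    ext <;> simp
  have e2 := congrArg QuadraticAlgebra.norm e
  rw [map_mul, QuadraticAlgebra.norm_star, ← hN',
    Eis.norm_eq (⟨(x * star y).re - q1 * N, (x * star y).im - q2 * N⟩ : Eis)] at e2
  dsimp only at e2
  generalize (x * star y).re - q1 * N = r1 at *
  generalize (x * star y).im - q2 * N = r2 at *
  have : (x - ⟨q1, q2⟩ * y).norm * N < N * N := by
    rw [e2]
    nlinarith [mul_nonneg (sub_nonneg.2 a1) (sub_nonneg.2 a2),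
      mul_nonneg (sub_nonneg.2 b1) (sub_nonneg.2 b2),
      mul_nonneg (sub_nonneg.2 a1) (sub_nonneg.2 b1),
      mul_nonneg (sub_nonneg.2 a2) (sub_nonneg.2 b2), mul_pos hN hN]
  exact lt_of_mul_lt_mul_right this hN.le

instance : IsPrincipalIdealRing Eis where
  principal I := by
    classical
    by_cases hI : ∃ n : ℕ, ∃ y ∈ I, y ≠ 0 ∧ y.norm = n
    · obtain ⟨y, hy, hy0, hn⟩ := Nat.find_spec hI
      refine ⟨y, le_antisymm (fun x hx => ?_) (by simpa using hy)⟩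
      obtain ⟨q, hq⟩ := Eis.exists_div x y hy0
      have hm : x - q * y ∈ I := I.sub_mem hx (I.mul_mem_left _ hy)
      have : x - q * y = 0 := by
        by_contra h0
        have := Nat.find_min' hI (m := (x - q * y).norm.toNat)
          ⟨_, hm, h0, (Int.toNat_of_nonneg (Eis.norm_nonneg _)).symm⟩
        have h2 := Int.toNat_of_nonneg (Eis.norm_nonneg (x - q * y))
        omega
      exact Ideal.mem_span_singleton'.2 ⟨q, (sub_eq_zero.1 this).symm⟩
    · refine ⟨0, ?_⟩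
      rw [Submodule.span_zero_singleton, eq_bot_iff]
      intro y hy
      by_contra h0
      exact hI ⟨y.norm.toNat, y, hy, h0, (Int.toNat_of_nonneg (Eis.norm_nonneg _)).symm⟩

theorem Eis.isUnit_iff {x : Eis} : IsUnit x ↔ x.norm = 1 := by
  rw [isUnit_iff_norm_isUnit, Int.isUnit_iff]
  have := x.norm_nonneg
  omega

theorem Eis.unit_cases {x : Eis} (h : IsUnit x) :
    ∃ i : ℕ, x = ω ^ i ∨ x = (-1) ^ 3 * ω ^ i := by
  rw [Eis.isUnit_iff, Eis.norm_eq] at h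
  obtain ⟨m, n⟩ := x
  dsimp only at h
  have h1 : n ≤ 1 := by nlinarith [sq_nonneg (2 * m - n)]
  have h2 : -1 ≤ n := by nlinarith [sq_nonneg (2 * m - n)]
  have h3 : m ≤ 1 := by nlinarith [sq_nonneg (2 * n - m)]
  have h4 : -1 ≤ m := by nlinarith [sq_nonneg (2 * n - m)]
  interval_cases n <;> interval_cases m <;> simp at h
  · exact ⟨2, .inl (by decide)⟩
  · exact ⟨1, .inr (by decide)⟩
  · exact ⟨0, .inr (by decide)⟩
  · exact ⟨0, .inl (by decide)⟩
  · exact ⟨1, .inl (by decide)⟩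
  · exact ⟨2, .inr (by decide)⟩

theorem Eis.irreducible_of_norm {x : Eis} (h : Prime x.norm) : Irreducible x := by
  refine ⟨fun hu => h.not_isUnit (isUnit_iff_norm_isUnit.1 hu), fun y z e => ?_⟩
  rw [isUnit_iff_norm_isUnit, isUnit_iff_norm_isUnit]
  exact h.irreducible.isUnit_or_isUnit (by rw [e, map_mul])

theorem Eis.star_prime {x : Eis} (h : Prime x) : Prime (star x) := by
  exact (MulEquiv.prime_iff (starRingAut : RingAut Eis)).2 h

/-- the homomorphism sending `ω` to `w` -/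
def evw {R : Type*} [CommRing R] (w : R) (hw : w ^ 2 + w + 1 = 0) : Eis →+* R where
  toFun x := x.re + x.im * w
  map_one' := by simp
  map_zero' := by simp
  map_add' x y := by simp; ring
  map_mul' x y := by simp; linear_combination (-x.im * y.im : R) * hw

theorem evw_apply {R : Type*} [CommRing R] (w : R) (hw : w ^ 2 + w + 1 = 0) (x : Eis) :
    evw w hw x = x.re + x.im * w := rfl

theorem Eis.split {π : Eis} (hπ : Prime π) (h : ¬Associated π (star π)) :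
    ∃ q : ℕ, q.Prime ∧ q % 3 = 1 ∧ π.norm = q := by
  have h0 := Eis.norm_pos hπ.ne_zero
  obtain ⟨q, hq, hd⟩ : ∃ q : ℕ, q.Prime ∧ π ∣ q := by
    have h1 : π ∣ ((π.norm.toNat.primeFactorsList.map (Nat.cast : ℕ → Eis)).prod) := by
      rw [← Nat.cast_list_prod, Nat.prod_primeFactorsList (by omega), ← Int.cast_natCast,
        Int.toNat_of_nonneg h0.le, ← Eis.mul_star']
      exact dvd_mul_right _ _
    obtain ⟨y, hy, hd⟩ := (Prime.dvd_prod_iff hπ).1 h1
    obtain ⟨q, hq, rfl⟩ := List.mem_map.1 hy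
    exact ⟨q, Nat.prime_of_mem_primeFactorsList hq, hd⟩
  have hd' : star π ∣ q := by
    have := map_dvd (starRingEnd Eis) hd
    rwa [map_natCast] at this
  have hc : IsCoprime π (star π) := by
    rw [hπ.irreducible.coprime_iff_not_dvd]
    exact fun hh => h (hπ.associated_of_dvd (Eis.star_prime hπ) hh)
  obtain ⟨c, hc⟩ := hc.mul_dvd hd hd'
  rw [Eis.mul_star'] at hc
  have h2 : π.norm ∣ q := ⟨c.re, by simpa using congrArg QuadraticAlgebra.re hc⟩
  have h3 : π.norm = q := by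
    have := (Nat.dvd_prime hq).1 (Int.natAbs_dvd_natAbs.2 h2)
    have h4 : π.norm ≠ 1 := fun h => hπ.not_isUnit (Eis.isUnit_iff.2 h)
    omega
  refine ⟨q, hq, ?_, h3⟩
  have h5 : π.norm % 3 = 0 ∨ π.norm % 3 = 1 := by
    rw [Eis.norm_eq]
    generalize π.re = m
    generalize π.im = n
    have := Int.emod_nonneg m (by norm_num : (3 : ℤ) ≠ 0)
    have := Int.emod_lt_of_pos m (by norm_num : (0 : ℤ) < 3)
    have := Int.emod_nonneg n (by norm_num : (3 : ℤ) ≠ 0)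
    have := Int.emod_lt_of_pos n (by norm_num : (0 : ℤ) < 3)
    rw [sq, sq, Int.add_emod, Int.sub_emod, Int.mul_emod m m, Int.mul_emod m n, Int.mul_emod n n]
    generalize m % 3 = m' at *
    generalize n % 3 = n' at *
    interval_cases m' <;> interval_cases n' <;> simp
  rcases h5 with h5 | h5
  · exfalso
    have h6 : q = 3 := ((Nat.prime_dvd_prime_iff_eq Nat.prime_three hq).1 (by omega)).symm
    subst h6
    have hl : Prime (⟨1, -1⟩ : Eis) := by
      exact (Eis.irreducible_of_norm (by rw [Eis.norm_eq]; exact Int.prime_three)).prime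
    have key : ∀ x : Eis, Prime x → x ∣ ((3 : ℕ) : Eis) → Associated x ⟨1, -1⟩ := by
      intro x hx hd
      refine hx.associated_of_dvd hl (hx.dvd_of_dvd_pow (n := 2) (hd.trans ⟨⟨0, -1⟩, by decide⟩))
    exact h ((key _ hπ hd).trans (key _ (Eis.star_prime hπ) hd').symm)
  · omega

section
variable {q : ℕ} [Fact q.Prime] {w : ℚ_[q]} (hw : w ^ 2 + w + 1 = 0)
include hw

theorem norm_w : ‖w‖ = 1 := by
  have : ‖w‖ ^ 3 = 1 := by
    rw [← norm_pow, show w ^ 3 = 1 by grind, NormOneClass.norm_one]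
  exact (pow_eq_one_iff_of_nonneg (norm_nonneg _) three_ne_zero).1 this

theorem norm_evw_le (x : Eis) : ‖evw w hw x‖ ≤ 1 := by
  rw [evw_apply]
  refine (Padic.nonarchimedean _ _).trans (max_le (Padic.norm_int_le_one _) ?_)
  rw [norm_mul, norm_w hw, mul_one]
  exact Padic.norm_int_le_one _

theorem evw_ne_zero {x : Eis} (hx : x ≠ 0) : evw w hw x ≠ 0 := by
  intro h
  have := congrArg (evw w hw) x.mul_star'
  rw [map_mul, h, zero_mul, map_intCast] at this
  exact (Eis.norm_pos hx).ne (by exact_mod_cast this)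

theorem norm_evw_of_dvd {x : Eis} {n : ℤ} (hx : x ∣ n) (hn : ¬(q : ℤ) ∣ n) : ‖evw w hw x‖ = 1 := by
  obtain ⟨c, hc⟩ := hx
  have h1 : ‖(n : ℚ_[q])‖ = 1 :=
    le_antisymm (Padic.norm_int_le_one _) (not_lt.1 fun h => hn (Padic.norm_intCast_lt_one_iff.1 h))
  have h2 := congrArg (fun y => ‖evw w hw y‖) hc
  simp only [map_intCast, map_mul, norm_mul, h1] at h2
  have := norm_evw_le hw x
  have := norm_evw_le hw c
  have := norm_nonneg (evw w hw x)
  have := norm_nonneg (evw w hw c)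
  nlinarith

theorem val_evw {π β : Eis} (hπ : Prime π) (hβ : β ≠ 0) (h1 : (evw w hw π).valuation = 1) :
    (evw w hw β).valuation = multiplicity π β := by
  obtain ⟨c, hc, hc'⟩ :=
    (FiniteMultiplicity.of_not_isUnit hπ.not_isUnit hβ).exists_eq_pow_mul_and_not_dvd
  have hπ0 := evw_ne_zero hw hπ.ne_zero
  have hc0 : c ≠ 0 := by rintro rfl; simp at hc'
  have hlt : ‖evw w hw π‖ < 1 := by
    rw [Padic.norm_eq_zpow_neg_valuation hπ0, h1]
    exact zpow_lt_one_of_neg₀ (by exact_mod_cast (Fact.out : q.Prime).one_lt) (by norm_num)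
  have hcu : ‖evw w hw c‖ = 1 := by
    obtain ⟨x, y, hxy⟩ := (hπ.irreducible.coprime_iff_not_dvd).2 hc'
    refine le_antisymm (norm_evw_le hw c) (not_lt.1 fun h => ?_)
    have e := congrArg (evw w hw) hxy
    rw [map_add, map_mul, map_mul, map_one] at e
    have := Padic.nonarchimedean (evw w hw x * evw w hw π) (evw w hw y * evw w hw c)
    rw [e, NormOneClass.norm_one, norm_mul, norm_mul] at this
    exact absurd this (not_le.2 (max_lt
      (mul_lt_one_of_nonneg_of_lt_one_right (norm_evw_le hw _) (norm_nonneg _) hlt)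
      (mul_lt_one_of_nonneg_of_lt_one_right (norm_evw_le hw _) (norm_nonneg _) h)))
  conv_lhs => rw [hc]
  rw [map_mul, map_pow, Padic.valuation_mul (pow_ne_zero _ hπ0) (evw_ne_zero hw hc0),
    Padic.valuation_pow, h1, val_of_norm_one hcu]
  simp

theorem val_split {π : Eis} (hπ : π.norm = q) :
    (evw w hw π).valuation = 1 ∨ (evw w hw (star π)).valuation = 1 := by
  have h0 : π ≠ 0 := by
    rintro rfl
    exact (Fact.out : q.Prime).ne_zero (by simpa using hπ.symm)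
  have h1 := congrArg (fun x => (evw w hw x).valuation) π.mul_star'
  simp only [map_mul, hπ, Int.cast_natCast, map_natCast, Padic.valuation_p] at h1
  rw [Padic.valuation_mul (evw_ne_zero hw h0) (evw_ne_zero hw (star_ne_zero.2 h0))] at h1
  have := Padic.norm_le_one_iff_val_nonneg _ |>.1 (norm_evw_le hw π)
  have := Padic.norm_le_one_iff_val_nonneg _ |>.1 (norm_evw_le hw (star π))
  omega

end

theorem Eis.struct (Λ : Set ℕ) (G : Eis → Prop) (Gu : ∀ x, IsUnit x → G x)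
    (Gm : ∀ x y, G x → G y → G (x * y)) (Gc : ∀ x, x ≠ 0 → G (x ^ 3))
    (Gl : ∀ l ∈ Λ, ∀ π : Eis, π.norm = l → G (l * π)) (β : Eis) (hβ : β ≠ 0)
    (hN : ∃ N : ℤ, β.norm = N ^ 3)
    (hv : ∀ (q : ℕ) [Fact q.Prime], q % 3 = 1 → q ∉ Λ →
      ∃ (w : ℚ_[q]) (hw : w ^ 2 + w + 1 = 0), (3 : ℤ) ∣ (evw w hw β).valuation) : G β := by
  induction hn : β.norm.toNat using Nat.strong_induction_on generalizing β with
  | _ n ih =>
  by_cases hu : IsUnit β
  · exact Gu β hu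
  obtain ⟨N, hN⟩ := hN
  have step : ∀ η : Eis, η ∣ β → G η → ¬IsUnit η → (∃ M : ℤ, η.norm = M ^ 3) →
      (∀ (q : ℕ) [Fact q.Prime], q ∉ Λ → ∀ (w : ℚ_[q]) (hw : w ^ 2 + w + 1 = 0),
        (3 : ℤ) ∣ (evw w hw η).valuation) → G β := by
    rintro η ⟨β', rfl⟩ hG hηu ⟨M, hM⟩ hηv
    have hη0 := left_ne_zero_of_mul hβ
    have hβ0 := right_ne_zero_of_mul hβ
    have p1 := Eis.norm_pos hη0
    have p2 := Eis.norm_pos hβ0
    have p3 : η.norm ≠ 1 := fun h => hηu (Eis.isUnit_iff.2 h)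
    rw [map_mul] at hN hn
    refine Gm _ _ hG (ih β'.norm.toNat ?_ β' hβ0 ?_ (fun q _ h1 h2 => ?_) rfl)
    · have : β'.norm < η.norm * β'.norm := by
        have : 1 < η.norm := by omega
        nlinarith
      omega
    · rw [hM] at hN p1
      obtain ⟨k, rfl⟩ := (Int.pow_dvd_pow_iff three_ne_zero).1 ⟨_, hN.symm⟩
      exact ⟨k, mul_left_cancel₀ p1.ne' (by rw [hN]; ring)⟩
    · obtain ⟨w, hw, h⟩ := hv q h1 h2
      rw [map_mul, Padic.valuation_mul (evw_ne_zero hw hη0) (evw_ne_zero hw hβ0)] at h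
      exact ⟨w, hw, (dvd_add_right (hηv q h2 w hw)).1 h⟩
  have cube : ∀ π : Eis, Prime π → 3 ≤ multiplicity π β → G β := fun π hπ h =>
    step (π ^ 3) (pow_dvd_of_le_multiplicity h) (Gc _ hπ.ne_zero)
      (fun h => hπ.not_isUnit ((isUnit_pow_iff three_ne_zero).1 h)) ⟨π.norm, map_pow _ _ _⟩
      (fun q _ _ w hw => by rw [map_pow, Padic.valuation_pow]; exact dvd_mul_right _ _)
  obtain ⟨π, hπ, hd⟩ := WfDvdMonoid.exists_irreducible_factor hu hβ
  have hπ := hπ.prime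
  have hπ' := Eis.star_prime hπ
  have m1 : 0 < multiplicity π β := dvd_iff_multiplicity_pos.2 hd
  have hsum : 3 ∣ multiplicity π β + multiplicity (star π) β := by
    have e1 : multiplicity (star π) β = multiplicity π (star β) := by
      rw [← multiplicity_map_eq (starRingAut : RingAut Eis)]
      simp
    have hN0 : (N : Eis) ≠ 0 := by
      have : N ≠ 0 := by
        rintro rfl
        exact (Eis.norm_pos hβ).ne' (by simpa using hN)
      exact fun h => this (by simpa using congrArg QuadraticAlgebra.re h)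
    rw [e1, ← multiplicity_mul hπ (.of_not_isUnit hπ.not_isUnit
      (mul_ne_zero hβ (star_ne_zero.2 hβ))), Eis.mul_star', hN, Int.cast_pow,
      (FiniteMultiplicity.of_not_isUnit hπ.not_isUnit hN0).multiplicity_pow hπ]
    exact dvd_mul_right _ _
  by_cases has : Associated π (star π)
  · rw [multiplicity_eq_of_associated_left has] at hsum
    exact cube π hπ (by omega)
  obtain ⟨q, hq, hq3, hπq⟩ := Eis.split hπ has
  have : Fact q.Prime := ⟨hq⟩
  by_cases hΛ : q ∈ Λ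
  swap
  · obtain ⟨w, hw, h⟩ := hv q hq3 hΛ
    rcases val_split hw hπq with h1 | h1
    · rw [val_evw hw hπ hβ h1] at h
      exact cube π hπ (by omega)
    · rw [val_evw hw hπ' hβ h1] at h
      exact cube π hπ (by omega)
  by_cases c1 : 3 ≤ multiplicity π β
  · exact cube π hπ c1
  by_cases c2 : 3 ≤ multiplicity (star π) β
  · exact cube _ hπ' c2
  have hcop : IsCoprime π (star π) := by
    rw [hπ.irreducible.coprime_iff_not_dvd]
    exact fun hh => has (hπ.associated_of_dvd hπ' hh)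
  have fin : ∀ x : Eis, x.norm = q → (q : Eis) * x ∣ β → G β := by
    intro x hx hd
    have hn3 : ((q : Eis) * x).norm = q ^ 3 := by rw [map_mul, hx, QuadraticAlgebra.norm_natCast]; ring
    refine step _ hd (Gl q hΛ x hx) (fun h => ?_) ⟨q, hn3⟩ (fun q' _ hq' w hw => ?_)
    · rw [Eis.isUnit_iff, hn3] at h
      exact hq.one_lt.ne' ((Nat.pow_eq_one.1 (by exact_mod_cast h)).resolve_right three_ne_zero)
    · rw [val_of_norm_one (norm_evw_of_dvd hw (n := q ^ 3) ⟨_, by rw [Eis.mul_star', hn3]⟩ ?_)]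
      · exact dvd_zero _
      · intro h
        have h1 : q' ∣ q ^ 3 := by exact_mod_cast h
        rw [(Nat.prime_dvd_prime_iff_eq Fact.out hq).1 ((Fact.out : q'.Prime).dvd_of_dvd_pow h1)]
          at hq'
        exact hq' hΛ
  have hq' : (q : Eis) = π * star π := by rw [Eis.mul_star', hπq]; simp
  have c3 : (multiplicity π β = 1 ∧ multiplicity (star π) β = 2) ∨
      (multiplicity π β = 2 ∧ multiplicity (star π) β = 1) := by omega
  rcases c3 with ⟨a1, a2⟩ | ⟨a1, a2⟩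
  · refine fin (star π) (by rw [QuadraticAlgebra.norm_star, hπq]) ?_
    have := (hcop.pow (m := 1) (n := 2)).mul_dvd (pow_dvd_of_le_multiplicity a1.ge)
      (pow_dvd_of_le_multiplicity a2.ge)
    convert this using 1
    rw [hq']; ring
  · refine fin π hπq ?_
    have := (hcop.pow (m := 2) (n := 1)).mul_dvd (pow_dvd_of_le_multiplicity a1.ge)
      (pow_dvd_of_le_multiplicity a2.ge)
    convert this using 1
    rw [hq']; ring

theorem exists_w_padic (q : ℕ) [hq : Fact q.Prime] (h : q % 3 = 1) :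
    ∃ w : ℚ_[q], w ^ 2 + w + 1 = 0 := by
  have : Fact (Nat.Prime 3) := ⟨Nat.prime_three⟩
  obtain ⟨u, hu⟩ := exists_prime_orderOf_dvd_card (G := (ZMod q)ˣ) 3 (by
    rw [ZMod.card_units]; have := hq.out.one_lt; omega)
  have h1 : (u : ZMod q) ^ 3 = 1 := by rw [← Units.val_pow_eq_pow_val, ← hu, pow_orderOf_eq_one]; rfl
  have h2 : (u : ZMod q) - 1 ≠ 0 := by
    intro h0
    have : u = 1 := Units.ext (sub_eq_zero.1 h0)
    simp [this] at hu
  have h3 : (u : ZMod q) ^ 2 + u + 1 = 0 := mul_left_cancel₀ h2 (by linear_combination h1)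
  obtain ⟨a, ha⟩ := ZMod.intCast_surjective (u : ZMod q)
  have d1 : (q : ℤ) ∣ a ^ 2 + a + 1 := by
    rw [← ZMod.intCast_zmod_eq_zero_iff_dvd]; push_cast; rw [ha, h3]
  have d2 : ¬(q : ℤ) ∣ 2 * a + 1 := by
    intro d2
    have d3 : (q : ℤ) ∣ 3 := by
      have := (d1.mul_left 4).sub (d2.mul_left (2 * a + 1))
      rwa [show 4 * (a ^ 2 + a + 1) - (2 * a + 1) * (2 * a + 1) = 3 by ring] at this
    have d4 : q ∣ 3 := by exact_mod_cast d3
    rw [(Nat.prime_dvd_prime_iff_eq hq.out Nat.prime_three).1 d4] at h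
    omega
  obtain ⟨z, hz, -⟩ := hensels_lemma (p := q) (R := ℤ)
    (F := Polynomial.X ^ 2 + Polynomial.X + 1) (a := (a : ℤ_[q])) (by
    have e1 : ‖((a ^ 2 + a + 1 : ℤ) : ℤ_[q])‖ < 1 := (PadicInt.norm_int_lt_one_iff_dvd _).2 d1
    have e2 : ‖((2 * a + 1 : ℤ) : ℤ_[q])‖ = 1 := le_antisymm (PadicInt.norm_le_one _)
      (not_lt.1 fun h => d2 ((PadicInt.norm_int_lt_one_iff_dvd _).1 h))
    push_cast at e1 e2
    simp only [map_add, map_pow, Polynomial.aeval_X, map_one, Polynomial.derivative_X_pow,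
      Polynomial.derivative_X, Polynomial.derivative_one, add_zero, map_mul, Polynomial.aeval_C]
    simpa [e2] using e1)
  refine ⟨z, ?_⟩
  simp only [map_add, map_pow, Polynomial.aeval_X, map_one] at hz
  exact_mod_cast congrArg (fun x : ℤ_[q] => (x : ℚ_[q])) hz

end Pool.Agent.MP_a43263_nt

end MrgPart1

-- ======== part 2: formerly Pool.Agent.MP_a43263_nt.Gauss
section MrgPart2

namespace Pool.Agent.MP_a43263_nt

open Polynomial

/-- cubic character exponents modulo 7 -/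
def e7 (r : ℕ) : ℕ := [0, 0, 1, 2, 2, 1, 0].getD r 0

/-- cubic character exponents modulo 13 -/
def e13 (r : ℕ) : ℕ := [0, 0, 2, 2, 1, 0, 1, 1, 0, 1, 2, 2, 0].getD r 0

/-- cubic character exponents modulo 9 -/
def e9 (r : ℕ) : ℕ := r / 3

section
variable {K : Type} [Field K] {w : K} (hw : w ^ 2 + w + 1 = 0)
include hw

theorem g7_cube {z : K} (hz : z ^ 6 + z ^ 5 + z ^ 4 + z ^ 3 + z ^ 2 + z + 1 = 0) :
    (-(z + w ^ 2 * z ^ 2 + w * z ^ 3 + w * z ^ 4 + w ^ 2 * z ^ 5 + z ^ 6)) ^ 3 = 7 * (1 + 3 * w) := by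
  grind

theorem g13_cube {z : K} (hz : z ^ 12 + z ^ 11 + z ^ 10 + z ^ 9 + z ^ 8 + z ^ 7 + z ^ 6 + z ^ 5 +
    z ^ 4 + z ^ 3 + z ^ 2 + z + 1 = 0) :
    (-(z + w * z ^ 2 + w * z ^ 3 + w ^ 2 * z ^ 4 + z ^ 5 + w ^ 2 * z ^ 6 + w ^ 2 * z ^ 7 + z ^ 8 +
      w ^ 2 * z ^ 9 + w * z ^ 10 + w * z ^ 11 + z ^ 12)) ^ 3 = 13 * (4 + 3 * w) := by
  grind

variable [IsAlgClosed K] {q : ℕ} [Fact q.Prime] [CharP K q] (hq : q % 3 = 1)
include hq

omit [IsAlgClosed K] in
theorem frob_w : frobenius K q w = w := by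
  have : w ^ 3 = 1 := by grind
  rw [frobenius_def, pow_eq_pow_mod q this, hq, pow_one]

omit [Fact q.Prime] [CharP K q] in
theorem gauss9 : ∃ g : K, g ^ 3 = w ∧ g ^ q = w ^ e9 (q % 9) * g := by
  obtain ⟨z, hz⟩ := IsAlgClosed.exists_pow_nat_eq w three_pos
  refine ⟨z, hz, ?_⟩
  have : z ^ 9 = 1 := by grind
  rw [pow_eq_pow_mod q this, ← hz, ← pow_mul, ← pow_succ, e9]
  congr 1
  omega

theorem gauss7 (h7 : q ≠ 7) : ∃ g : K, g ^ 3 = 7 * (1 + 3 * w) ∧ g ^ q = w ^ e7 (q % 7) * g := by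
  obtain ⟨z, hz⟩ := IsAlgClosed.exists_root
    (X ^ 6 + X ^ 5 + X ^ 4 + X ^ 3 + X ^ 2 + X + 1 : K[X]) (by
    have : (X ^ 6 + X ^ 5 + X ^ 4 + X ^ 3 + X ^ 2 + X + 1 : K[X]).degree = 6 := by compute_degree!
    rw [this]; decide)
  simp only [IsRoot.def, eval_add, eval_pow, eval_X, eval_one] at hz
  refine ⟨_, g7_cube hw hz, ?_⟩
  have h1 : z ^ 7 = 1 := by grind
  have h2 : frobenius K q z = z ^ (q % 7) := by rw [frobenius_def, pow_eq_pow_mod q h1]
  rw [← frobenius_def]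
  simp only [map_neg, map_add, map_mul, map_pow, frob_w hw hq, h2]
  have h3 : q % 7 ≠ 0 := fun h =>
    h7 ((Nat.prime_dvd_prime_iff_eq (by norm_num) Fact.out).1 (Nat.dvd_of_mod_eq_zero h)).symm
  have h4 : q % 7 < 7 := Nat.mod_lt _ (by norm_num)
  generalize q % 7 = r at *
  clear hz h2
  interval_cases r <;> simp only [e7, List.getD_cons_succ, List.getD_cons_zero] <;> grind

theorem gauss13 (h7 : q ≠ 13) :
    ∃ g : K, g ^ 3 = 13 * (4 + 3 * w) ∧ g ^ q = w ^ e13 (q % 13) * g := by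
  obtain ⟨z, hz⟩ := IsAlgClosed.exists_root (X ^ 12 + X ^ 11 + X ^ 10 + X ^ 9 + X ^ 8 + X ^ 7 +
    X ^ 6 + X ^ 5 + X ^ 4 + X ^ 3 + X ^ 2 + X + 1 : K[X]) (by
    have : (X ^ 12 + X ^ 11 + X ^ 10 + X ^ 9 + X ^ 8 + X ^ 7 +
      X ^ 6 + X ^ 5 + X ^ 4 + X ^ 3 + X ^ 2 + X + 1 : K[X]).degree = 12 := by compute_degree!
    rw [this]; decide)
  simp only [IsRoot.def, eval_add, eval_pow, eval_X, eval_one] at hz
  refine ⟨_, g13_cube hw hz, ?_⟩
  have h1 : z ^ 13 = 1 := by grind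
  have h2 : frobenius K q z = z ^ (q % 13) := by rw [frobenius_def, pow_eq_pow_mod q h1]
  rw [← frobenius_def]
  simp only [map_neg, map_add, map_mul, map_pow, frob_w hw hq, h2]
  have h3 : q % 13 ≠ 0 := fun h =>
    h7 ((Nat.prime_dvd_prime_iff_eq (by norm_num) Fact.out).1 (Nat.dvd_of_mod_eq_zero h)).symm
  have h4 : q % 13 < 13 := Nat.mod_lt _ (by norm_num)
  generalize q % 13 = r at *
  clear hz h2
  interval_cases r <;> simp only [e13, List.getD_cons_succ, List.getD_cons_zero] <;> grind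

end

theorem cubic_recip {q : ℕ} [Fact q.Prime] (hq : q % 3 = 1) (h7 : q ≠ 7) (h13 : q ≠ 13)
    {w θ : ZMod q} (hw : w ^ 2 + w + 1 = 0) (hθ : θ ≠ 0) {i j k : ℕ}
    (h : θ ^ 3 = w ^ i * (7 * (1 + 3 * w)) ^ j * (13 * (4 + 3 * w)) ^ k) :
    3 ∣ i * e9 (q % 9) + j * e7 (q % 7) + k * e13 (q % 13) := by
  let K := AlgebraicClosure (ZMod q)
  let f := algebraMap (ZMod q) K
  have hw' : f w ^ 2 + f w + 1 = 0 := by simpa using congrArg f hw
  obtain ⟨g1, a1, b1⟩ := gauss9 hw' hq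
  obtain ⟨g2, a2, b2⟩ := gauss7 hw' hq h7
  obtain ⟨g3, a3, b3⟩ := gauss13 hw' hq h13
  have h' := congrArg f h
  simp only [map_mul, map_pow, map_add, map_ofNat, map_one] at h'
  rw [← a2, ← a3, ← a1] at h'
  set g := g1 ^ i * g2 ^ j * g3 ^ k with hg
  have hθ' : f θ ≠ 0 := by simpa using hθ
  have e1 : g ^ 3 = f θ ^ 3 := by rw [h', hg]; ring
  have hg0 : g ≠ 0 := by rintro h0; rw [h0] at e1; exact pow_ne_zero 3 hθ' (by simpa using e1.symm)
  have e2 : ∃ c, g = f c := by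
    have : (g - f θ) * (g - f w * f θ) * (g - f w ^ 2 * f θ) = 0 := by
      linear_combination e1 + (-g ^ 2 * f θ + g * f θ ^ 2 * f w - f θ ^ 3 * (f w - 1)) * hw'
    rcases mul_eq_zero.1 this with h | h
    · rcases mul_eq_zero.1 h with h | h
      · exact ⟨θ, sub_eq_zero.1 h⟩
      · exact ⟨w * θ, by simpa using sub_eq_zero.1 h⟩
    · exact ⟨w ^ 2 * θ, by simpa using sub_eq_zero.1 h⟩
  obtain ⟨c, hc⟩ := e2
  have e3 : g ^ q = g := by rw [hc, ← map_pow, ZMod.pow_card]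
  have e4 : g ^ q = f w ^ (i * e9 (q % 9) + j * e7 (q % 7) + k * e13 (q % 13)) * g := by
    rw [hg, mul_pow, mul_pow, ← pow_mul, ← pow_mul, ← pow_mul, mul_comm i q, mul_comm j q,
      mul_comm k q, pow_mul, pow_mul, pow_mul, b1, b2, b3]
    ring
  have e5 : w ^ (i * e9 (q % 9) + j * e7 (q % 7) + k * e13 (q % 13)) = 1 := by
    apply f.injective
    rw [map_pow, map_one]
    exact mul_right_cancel₀ hg0 (by rw [← e4, e3, one_mul])
  have : Fact (Nat.Prime 3) := ⟨Nat.prime_three⟩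
  have e6 : orderOf w = 3 := orderOf_eq_prime (by grind) (by
    rintro rfl
    have : ((3 : ℕ) : ZMod q) = 0 := by push_cast; linear_combination hw
    rw [ZMod.natCast_eq_zero_iff, Nat.prime_dvd_prime_iff_eq Fact.out Nat.prime_three] at this
    omega)
  rw [← e6]
  exact orderOf_dvd_of_pow_eq_one e5

end Pool.Agent.MP_a43263_nt

end MrgPart2

-- marker of a merged file
example : 731051 + 243888 = 731051 + 243888 := rfl
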