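import Mathlib.NumberTheory.Height.NumberField
import Pool.Agent.MP_a43263_nt.Gauss
import Pool.Agent.MP_a43263_nt.MW

-- ======== part 0: formerly Pool.Agent.MP_a43263_nt.SelB
section MrgPart0

namespace Pool.Agent.MP_a43263_nt

open QuadraticAlgebra

/-- integral form of `HypB` -/
def HypB' (a B : ℤ) : Prop :=
  ∀ β : Eis, β ≠ 0 → (∃ N : ℤ, β.norm = N ^ 3) →
    (∀ (p : ℕ) [Fact p.Prime], p % 3 = 1 →
      ∃ (w : ℚ_[p]) (hw : w ^ 2 + w + 1 = 0), Sol (a : ℚ_[p]) B (evw w hw β)) →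
    ∃ γ δ : Eis, δ ≠ 0 ∧ β * δ ^ 3 = γ ^ 3

theorem HypB'.hypB {a b : ℤ} (h : HypB' a (a ^ 3 - b)) : HypB a b := by
  intro m n N hN e hl
  obtain ⟨D, m', n', hD, hm, hn⟩ : ∃ D m' n' : ℤ, D ≠ 0 ∧ D * m = m' ∧ D * n = n' :=
    ⟨m.den * n.den, m.num * n.den, m.den * n.num, by simp, by
      push_cast; rw [← Rat.mul_den_eq_num m]; ring, by
      push_cast; rw [← Rat.mul_den_eq_num n]; ring⟩
  have hD' : (D : ℚ) ≠ 0 := by exact_mod_cast hD
  set β : Eis := ⟨D ^ 2 * m', D ^ 2 * n'⟩ with hβ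
  have hn1 : (β.norm : ℚ) = (D ^ 2 * N) ^ 3 := by
    rw [Eis.norm_eq, hβ]
    push_cast
    rw [← hm, ← hn]
    linear_combination (D : ℚ) ^ 6 * e
  have hβ0 : β ≠ 0 := by
    intro h0
    rw [h0] at hn1
    exact pow_ne_zero 3 (mul_ne_zero (pow_ne_zero 2 hD') hN) (by simpa using hn1.symm)
  obtain ⟨γ, δ, hδ, hγ⟩ := h β hβ0 (by
    have : ((D : ℚ) ^ 2 * N).den = 1 := by
      have := congrArg Rat.den hn1
      rw [Rat.den_pow, Rat.den_intCast] at this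
      exact (Nat.pow_eq_one.1 this.symm).resolve_right three_ne_zero
    refine ⟨((D : ℚ) ^ 2 * N).num, ?_⟩
    rw [← (Rat.den_eq_one_iff _).1 this] at hn1
    exact_mod_cast hn1) (fun p _ hp => by
    obtain ⟨w, hw, hs⟩ := hl p (exists_w_padic p hp)
    have hD2 : (D : ℚ_[p]) ≠ 0 := by exact_mod_cast hD
    refine ⟨w, hw, Sol.scale (inv_ne_zero hD2) ?_⟩
    have h1 := congrArg (Rat.cast : ℚ → ℚ_[p]) hm
    have h2 := congrArg (Rat.cast : ℚ → ℚ_[p]) hn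
    push_cast at h1 h2 hs ⊢
    convert hs using 1
    rw [evw_apply, hβ]
    push_cast
    rw [← h1, ← h2]
    field_simp)
  have hM : (δ.norm : ℚ) ≠ 0 := by exact_mod_cast (Eis.norm_pos hδ).ne'
  have e1 : β * (δ.norm : ℤ) ^ 3 = (γ * star δ) ^ 3 := by
    rw [← Eis.mul_star', mul_pow, ← mul_assoc, hγ, mul_pow]
  generalize γ * star δ = η at e1
  generalize δ.norm = M at e1 hM
  have e2 := congrArg (fun x : Eis => (x.re : ℚ)) e1
  have e3 := congrArg (fun x : Eis => (x.im : ℚ)) e1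
  simp [hβ, pow_succ, ← hm, ← hn] at e2 e3
  refine ⟨η.re / (D * M), η.im / (D * M), ?_, ?_⟩
  · field_simp
    linear_combination e2
  · field_simp
    linear_combination e3

/-- candidates for the Selmer group of the dual isogeny -/
def GB (β : Eis) : Prop := ∃ (γ δ : Eis) (i j k : ℕ), γ ≠ 0 ∧ δ ≠ 0 ∧
  β * δ ^ 3 = γ ^ 3 * (ω ^ i * (7 * (1 + 3 * ω)) ^ j * (13 * (4 + 3 * ω)) ^ k)

theorem GB.unit (x : Eis) (h : IsUnit x) : GB x := by
  obtain ⟨i, h | h⟩ := Eis.unit_cases h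
  · exact ⟨1, 1, i, 0, 0, one_ne_zero, one_ne_zero, by simp [h]⟩
  · exact ⟨-1, 1, i, 0, 0, by simp, one_ne_zero, by simp [h]⟩

theorem GB.mul (x y : Eis) (h : GB x) (h' : GB y) : GB (x * y) := by
  obtain ⟨γ, δ, i, j, k, h1, h2, h3⟩ := h
  obtain ⟨γ', δ', i', j', k', h1', h2', h3'⟩ := h'
  refine ⟨γ * γ', δ * δ', i + i', j + j', k + k', mul_ne_zero h1 h1', mul_ne_zero h2 h2', ?_⟩
  rw [show x * y * (δ * δ') ^ 3 = (x * δ ^ 3) * (y * δ' ^ 3) by ring, h3, h3', pow_add, pow_add,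
    pow_add]
  ring

theorem GB.div {x y : Eis} (hy : y ≠ 0) (h : GB (x * y ^ 3)) : GB x := by
  obtain ⟨γ, δ, i, j, k, h1, h2, h3⟩ := h
  exact ⟨γ, y * δ, i, j, k, h1, mul_ne_zero hy h2, by rw [← h3]; ring⟩

theorem GB.norm {l : ℕ} (hl : l.Prime) {π0 : Eis} (h0 : π0.norm = l) (h : GB (l * π0)) (π : Eis)
    (hπ : π.norm = l) : GB (l * π) := by
  have hp : Prime π0 := (Eis.irreducible_of_norm (by rw [h0]; exact Nat.prime_iff_prime_int.1 hl)).prime
  have hl0 : (l : ℤ) ≠ 0 := by exact_mod_cast hl.ne_zero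
  have key : ∀ x u : Eis, x.norm = l → x = π0 * u → IsUnit u := by
    rintro _ u hx rfl
    rw [map_mul, h0] at hx
    exact Eis.isUnit_iff.2 (mul_left_cancel₀ hl0 (by rw [hx, mul_one]))
  have hd : π0 ∣ π * star π := ⟨star π0, by rw [Eis.mul_star', Eis.mul_star', h0, hπ]⟩
  rcases hp.dvd_or_dvd hd with ⟨u, hu⟩ | ⟨u, hu⟩
  · have := GB.mul _ _ h (GB.unit u (key _ _ hπ hu))
    rwa [mul_assoc, ← hu] at this
  · have h1 := key _ _ (by rw [QuadraticAlgebra.norm_star, hπ]) hu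
    have h2 : π = star π0 * star u := by rw [← star_mul', ← hu, star_star]
    have h3 : π0 * star π0 = l := by rw [Eis.mul_star', h0]; simp
    refine GB.div hp.ne_zero ?_
    have := GB.mul _ _ (GB.mul _ _ h h) (GB.unit _ h1.star)
    convert this using 1
    rw [h2]
    linear_combination (l * π0 ^ 2 * star u) * h3

theorem GB.seven : GB (((7 : ℕ) : Eis) * (1 + 3 * ω)) :=
  ⟨1, 1, 0, 1, 0, one_ne_zero, one_ne_zero, by simp⟩

theorem GB.thirteen : GB (((13 : ℕ) : Eis) * (4 + 3 * ω)) :=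
  ⟨1, 1, 0, 0, 1, one_ne_zero, one_ne_zero, by simp⟩

theorem norm_int_eq_one {q : ℕ} [Fact q.Prime] {n : ℤ} (hn : ¬(q : ℤ) ∣ n) : ‖(n : ℚ_[q])‖ = 1 :=
  le_antisymm (Padic.norm_int_le_one _) (not_lt.1 fun h => hn (Padic.norm_intCast_lt_one_iff.1 h))

theorem gb_of_sol {a B : ℤ} (hB : ∀ q : ℕ, q.Prime → q % 3 = 1 → (q : ℤ) ∣ B → q = 7 ∨ q = 13)
    {β : Eis} (hβ : β ≠ 0) (hN : ∃ N : ℤ, β.norm = N ^ 3)
    (hl : ∀ (p : ℕ) [Fact p.Prime], p % 3 = 1 →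
      ∃ (w : ℚ_[p]) (hw : w ^ 2 + w + 1 = 0), Sol (a : ℚ_[p]) B (evw w hw β)) : GB β := by
  refine Eis.struct {7, 13} GB GB.unit GB.mul
    (fun x hx => ⟨x, 1, 0, 0, 0, hx, one_ne_zero, by simp⟩) ?_ β hβ hN fun q _ h1 h2 => ?_
  · rintro l (rfl | rfl)
    · exact GB.norm (by norm_num) (by decide) GB.seven
    · exact GB.norm (by norm_num) (by decide) GB.thirteen
  · obtain ⟨w, hw, hs⟩ := hl q h1
    exact ⟨w, hw, hs.val (Padic.norm_int_le_one _) (norm_int_eq_one fun h => h2 (hB q Fact.out h1 h))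
      (evw_ne_zero hw hβ)⟩

theorem recip_of_sol {a B : ℤ} {q : ℕ} [Fact q.Prime] (hq : q % 3 = 1) (h7 : q ≠ 7) (h13 : q ≠ 13)
    (h1 : (q : ℤ) ∣ a ^ 3 - B) (h2 : ¬(q : ℤ) ∣ B) {β γ δ : Eis} {i j k : ℕ} (hγ : γ ≠ 0)
    (hδ : δ ≠ 0) (e : β * δ ^ 3 = γ ^ 3 * (ω ^ i * (7 * (1 + 3 * ω)) ^ j * (13 * (4 + 3 * ω)) ^ k))
    {w : ℚ_[q]} (hw : w ^ 2 + w + 1 = 0) (hs : Sol (a : ℚ_[q]) B (evw w hw β)) :
    3 ∣ i * e9 (q % 9) + j * e7 (q % 7) + k * e13 (q % 13) := by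
  have e' := congrArg (evw w hw) e
  have hω : evw w hw ω = w := by simp [evw_apply]
  simp only [map_mul, map_pow, map_add, map_ofNat, map_one, hω] at e'
  have g0 := evw_ne_zero hw hγ
  have d0 := evw_ne_zero hw hδ
  let w' : ℤ_[q] := ⟨w, (norm_w hw).le⟩
  have hw' : w' ^ 2 + w' + 1 = 0 := Subtype.ext (by simpa using hw)
  have hw0 : PadicInt.toZMod w' ^ 2 + PadicInt.toZMod w' + 1 = 0 := by
    simpa using congrArg PadicInt.toZMod hw'
  have hB : (B : ZMod q) = (a : ZMod q) ^ 3 := by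
    have := (ZMod.intCast_zmod_eq_zero_iff_dvd _ q).2 h1
    push_cast at this
    linear_combination -this
  have hB0 : (B : ZMod q) ≠ 0 := fun h => h2 ((ZMod.intCast_zmod_eq_zero_iff_dvd _ q).1 h)
  obtain ⟨θ, hθ⟩ := Sol.cube_mod (p := q) (A := a) (B := B)
    (β := w' ^ i * (7 * (1 + 3 * w')) ^ j * (13 * (4 + 3 * w')) ^ k)
    (by rw [map_intCast]; rintro h; simp [hB, h] at hB0) (by simpa using hB)
    (Sol.scale (div_ne_zero g0 d0) (by
      convert hs using 1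
      · simp
      · simp
      · rw [div_pow, div_mul_eq_mul_div, div_eq_iff (pow_ne_zero _ d0), e']
        rfl))
  simp only [map_mul, map_pow, map_add, map_ofNat, map_one] at hθ
  refine cubic_recip hq h7 h13 hw0 ?_ hθ
  have n7 : (7 : ZMod q) ≠ 0 := fun h => h7 ((Nat.prime_dvd_prime_iff_eq Fact.out (by norm_num)).1
    ((ZMod.natCast_eq_zero_iff 7 q).1 h))
  have n13 : (13 : ZMod q) ≠ 0 := fun h => h13 ((Nat.prime_dvd_prime_iff_eq Fact.out (by norm_num)).1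
    ((ZMod.natCast_eq_zero_iff 13 q).1 h))
  generalize PadicInt.toZMod w' = v at *
  rintro rfl
  refine mul_ne_zero (mul_ne_zero (pow_ne_zero i ?_) (pow_ne_zero j (mul_ne_zero n7 ?_)))
    (pow_ne_zero k (mul_ne_zero n13 ?_)) (hθ.symm.trans (by simp))
  · rintro rfl
    simp at hw0
  · exact fun h => n7 (by linear_combination 9 * hw0 - (2 + 3 * v) * h)
  · exact fun h => n13 (by linear_combination 9 * hw0 + (1 - 3 * v) * h)

theorem hypB'_of {a B : ℤ} (hB : ∀ q : ℕ, q.Prime → q % 3 = 1 → (q : ℤ) ∣ B → q = 7 ∨ q = 13)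
    (S : Set ℕ) (hS : ∀ q ∈ S, q.Prime ∧ q % 3 = 1 ∧ q ≠ 7 ∧ q ≠ 13 ∧ (q : ℤ) ∣ a ^ 3 - B)
    (H : ∀ i j k : ℕ, (∀ q ∈ S, 3 ∣ i * e9 (q % 9) + j * e7 (q % 7) + k * e13 (q % 13)) →
      3 ∣ i ∧ 3 ∣ j ∧ 3 ∣ k) : HypB' a B := by
  intro β hβ hN hl
  obtain ⟨γ, δ, i, j, k, hγ, hδ, e⟩ := gb_of_sol hB hβ hN hl
  obtain ⟨⟨i, rfl⟩, ⟨j, rfl⟩, ⟨k, rfl⟩⟩ := H i j k fun q hq => by
    obtain ⟨h1, h2, h3, h4, h5⟩ := hS q hq
    have : Fact q.Prime := ⟨h1⟩
    obtain ⟨w, hw, hs⟩ := hl q h2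
    exact recip_of_sol h2 h3 h4 h5 (fun h => (hB q h1 h2 h).elim h3 h4) hγ hδ e hw hs
  refine ⟨γ * (ω ^ i * (7 * (1 + 3 * ω)) ^ j * (13 * (4 + 3 * ω)) ^ k), δ, hδ, ?_⟩
  rw [e, mul_comm 3 i, mul_comm 3 j, mul_comm 3 k, pow_mul, pow_mul, pow_mul]
  ring

end Pool.Agent.MP_a43263_nt

end MrgPart0

-- ======== part 1: formerly Pool.Agent.MP_a43263_nt.SelA
section MrgPart1

namespace Pool.Agent.MP_a43263_nt

theorem nat_cube {n : ℕ} (hn : n ≠ 0) (h : ∀ p, p.Prime → 3 ∣ n.factorization p) :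
    ∃ m : ℕ, n = m ^ 3 := by
  refine ⟨n.factorization.prod fun p k => p ^ (k / 3), ?_⟩
  conv_lhs => rw [← Nat.prod_factorization_pow_eq_self hn]
  rw [Finsupp.prod, Finsupp.prod, ← Finset.prod_pow]
  refine Finset.prod_congr rfl fun p hp => ?_
  rw [← pow_mul, Nat.div_mul_cancel (h p (Nat.prime_of_mem_primeFactors hp))]

theorem cube_of_val {β : ℚ} (hβ : β ≠ 0) (h : ∀ p : ℕ, p.Prime → (3 : ℤ) ∣ padicValRat p β) :
    ∃ γ : ℚ, γ ≠ 0 ∧ β = γ ^ 3 := by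
  have hd : (β.den : ℚ) ≠ 0 := by exact_mod_cast β.den_nz
  have hn : β.num.natAbs ≠ 0 := by simpa using hβ
  obtain ⟨m, hm⟩ := nat_cube (mul_ne_zero hn (pow_ne_zero 2 β.den_nz)) fun p hp => by
    have := h p hp
    rw [padicValRat_def, padicValInt, ← Nat.factorization_def _ hp, ← Nat.factorization_def _ hp]
      at this
    rw [Nat.factorization_mul hn (pow_ne_zero 2 β.den_nz), Nat.factorization_pow]
    simp only [Finsupp.add_apply, Finsupp.smul_apply, smul_eq_mul]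
    omega
  have key : ∃ γ : ℚ, β = γ ^ 3 := by
    have h1 : ((β.num.natAbs : ℤ) : ℚ) * β.den ^ 2 = m ^ 3 := by exact_mod_cast hm
    have h2 := Rat.mul_den_eq_num β
    rcases Int.natAbs_eq β.num with h3 | h3
    · rw [← h3, ← h2] at h1
      exact ⟨m / β.den, by field_simp; linear_combination h1⟩
    · rw [← neg_eq_iff_eq_neg.2 h3, Int.cast_neg, ← h2] at h1
      exact ⟨-m / β.den, by field_simp; linear_combination -h1⟩
  obtain ⟨γ, hγ⟩ := key
  exact ⟨γ, by rintro rfl; exact hβ (by simpa using hγ), hγ⟩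

theorem peel {S : ℕ → Prop} {l : ℕ} (hl : l.Prime) {β : ℚ} (hβ : β ≠ 0)
    (h : ∀ p : ℕ, p.Prime → p ≠ l → S p → (3 : ℤ) ∣ padicValRat p β) :
    ∃ (e : Fin 3) (β' : ℚ), β' ≠ 0 ∧ β = l ^ (e : ℕ) * β' ∧
      ∀ p : ℕ, p.Prime → S p → (3 : ℤ) ∣ padicValRat p β' := by
  have hl0 : (l : ℚ) ≠ 0 := by exact_mod_cast hl.ne_zero
  refine ⟨⟨(padicValRat l β % 3).toNat, by omega⟩, β / l ^ (padicValRat l β % 3).toNat,
    div_ne_zero hβ (pow_ne_zero _ hl0), by field_simp, fun p hp hS => ?_⟩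
  have : Fact p.Prime := ⟨hp⟩
  have : Fact l.Prime := ⟨hl⟩
  rw [padicValRat.div hβ (pow_ne_zero _ hl0), padicValRat.pow]
  by_cases hpl : p = l
  · subst hpl
    rw [padicValRat.self hp.one_lt]
    omega
  · rw [padicValRat.of_nat, padicValNat_primes hpl]
    simpa using h p hp hpl hS

theorem mod9_aux : ∀ τ : ZMod 27, τ = 10 ∨ τ = 19 → ∀ n : Fin 13,
    ¬(τ ^ (n : ℕ) = 10 ∨ τ ^ (n : ℕ) = 19) → 3 ∣ (n : ℕ) := by decide +kernel

theorem mod9_aux' : ∀ x y : ZMod 27, (x + 9 * y) ^ 6 = x ^ 6 := by decide +kernel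

theorem mod13_aux : ∀ (θ : ZMod 13) (e1 e2 e3 e5 e6 : Fin 3),
    θ ^ 3 = 2 ^ (e1 : ℕ) * 4 ^ (e2 : ℕ) * 10 ^ (e3 : ℕ) * 9 ^ (e5 : ℕ) * 5 ^ (e6 : ℕ) →
      3 ∣ (e1 : ℕ) + 2 * e2 + e3 + 2 * e5 := by decide +kernel

theorem mod7_aux : ∀ u v : ZMod 7, u ≠ 0 ∧ v ≠ 0 ∧ u ≠ v ∧ u + v ≠ 0 → ∀ (θ : ZMod 7) (m n : Fin 7),
    θ ^ 3 = u ^ (m : ℕ) * v ^ (n : ℕ) → 3 ∣ (m : ℕ) + n → 3 ∣ (n : ℕ) := by decide +kernel

theorem Sol.cube_mod' {p : ℕ} [Fact p.Prime] {A B β : ℤ} (hA : ¬(p : ℤ) ∣ A)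
    (hB : (p : ℤ) ∣ A ^ 3 - B) (h : Sol (A : ℚ_[p]) B β) : ∃ θ : ZMod p, θ ^ 3 = β := by
  have hB' : (B : ZMod p) = (A : ZMod p) ^ 3 := by
    have := (ZMod.intCast_zmod_eq_zero_iff_dvd _ p).2 hB
    push_cast at this
    linear_combination -this
  simpa using Sol.cube_mod (p := p) (A := A) (B := B) (β := β)
    (by rw [map_intCast]; exact fun h => hA ((ZMod.intCast_zmod_eq_zero_iff_dvd _ p).1 h))
    (by simpa using hB') (by simpa using h)

open Classical WeierstrassCurve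

variable {a b : ℚ}

theorem good_ABC (hb : b ≠ 0) (hc : a ^ 3 - b ≠ 0) {A B C : ℚ} (hs : A + B + C = 3 * a)
    (hp : A * B * C = b) : ∃ P, Good a b (A ^ 2 * B) P := by
  have hA : A ≠ 0 := by rintro rfl; simp [← hp] at hb
  have hB : B ≠ 0 := by rintro rfl; simp [← hp] at hb
  obtain ⟨P, hP⟩ := (isW hb hc ℚ).rep_exists (X := -(A * B)) (Y := A * B ^ 2) (Z := 1) (by
    simp only [Rat.cast_id]
    rw [← hp, ← hs]; ring) (by simp)
  refine ⟨P, good_of_sol hb hc (X := 1) (Y := A⁻¹) (Z := 1) (by positivity) ?_ (by simp) ?_⟩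
  · rw [← hp, ← hs]; field_simp
  · convert hP using 1 <;> field_simp

theorem good_T (hb : b ≠ 0) (hc : a ^ 3 - b ≠ 0) :
    ∃ T, Good a b b T ∧ 3 • T = 0 ∧ ∀ Z, 3 • Z = 0 → Z = 0 ∨ Z = T ∨ Z = -T := by
  have hW := isW hb hc ℚ
  have hW' := isW hb hc Qbar
  obtain ⟨T, hT⟩ := hW.rep_exists (X := 0) (Y := 0) (Z := 1) (by simp) (by simp)
  refine ⟨T, good_of_sol hb hc (X := 1) (Y := 0) (Z := -1) hb (by ring) (by simp)
    (by convert hT.smul (k := -1) (by simp) using 1 <;> norm_num), ?_, fun Z hZ => ?_⟩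
  · have h1 := hW.rep_neg hT
    rcases T with _ | ⟨x, y, h⟩
    · exact absurd hT.2.2 one_ne_zero
    obtain ⟨hx, hy, -⟩ := hT
    obtain rfl : x = 0 := by simpa using hx.symm
    obtain rfl : y = 0 := by simpa using hy.symm
    have h2 : (0 : ℚ) ≠ ((WW a b).baseChange ℚ).toAffine.negY 0 0 := by
      simpa [baseChange] using hb
    rw [show 3 • Affine.Point.some 0 0 h = .some 0 0 h + .some 0 0 h + .some 0 0 h by abel,
      add_eq_zero_iff_eq_neg, Affine.Point.add_self_of_Y_ne h2]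
    refine Rep.unique ?_ h1
    rw [rep_some, Affine.slope_of_Y_ne rfl h2]
    simp [baseChange, Affine.addY]
  · have h3 : 3 • inc _ Z = 0 := by rw [← map_nsmul, hZ, map_zero]
    obtain ⟨w, hw⟩ := exists_w (F := Qbar)
    obtain ⟨u, hu, hu'⟩ := hW'.tr_ex hw h3
    obtain ⟨q, rfl⟩ := rat_of_fixed (x := u) fun σ => by
      have h1 := hu.pm hb hc (σ : Qbar →+* Qbar) h3
      rw [show ptMap _ (σ : Qbar →+* Qbar) (inc _ Z) = inc _ Z from ac_inc σ Z] at h1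
      exact hW'.tr_unique h1 hu
    have h4 : q ^ 3 = 1 := by exact_mod_cast hu.1
    obtain rfl : q = 1 := (pow_eq_one_iff_of_ne_zero three_ne_zero).1 h4 |>.resolve_right
      (fun h => absurd h.2 (by decide))
    obtain ⟨v, hv⟩ := hu' (by simp)
    rcases hW'.tr'_rep hw hv with h | h | h
    · exact .inl (pm_inj (Rat.castHom Qbar) (h.eq_zero_iff.2 rfl))
    · exact .inr (.inl (pm_inj (Rat.castHom Qbar) (h.unique (by simpa using hT.pm (Rat.castHom Qbar)))))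
    · exact .inr (.inr (pm_inj (Rat.castHom Qbar)
        (h.unique (by simpa using (hW.rep_neg hT).pm (Rat.castHom Qbar)))))

end Pool.Agent.MP_a43263_nt

end MrgPart1

-- ======== part 2: formerly Pool.Agent.MP_a43263_nt.Fam
section MrgPart2

namespace Pool.Agent.MP_a43263_nt

/-- admissible parameters -/
structure Fam (s l1 l2 l3 l4 l5 l6 : ℕ) (a b : ℤ) : Prop where
  e1 : l1 = l4 + 14 * s
  e2 : l2 = l4 + 16 * s
  e3 : l3 = l4 + 9 * s
  e5 : l5 = l4 + 21 * s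
  e6 : l6 = l4 + 30 * s
  ea : a = l4 ^ 2 + 30 * l4 * s + 252 * s ^ 2
  eb : b = l1 * l2 * l3 * l4 * l5 * l6
  h9 : 9 ∣ s
  h7 : ¬7 ∣ s
  h7' : ¬7 ∣ l4 + s
  h13 : 13 ∣ l4 + 12 * s
  hr : l4 % 9 = 4 ∨ l4 % 9 = 7
  p1 : l1.Prime
  p2 : l2.Prime
  p3 : l3.Prime
  p4 : l4.Prime
  p5 : l5.Prime
  p6 : l6.Prime
  hq : ∀ q : ℕ, q.Prime → q % 3 = 1 → q ∣ s * (l4 + 12 * s) * (l4 + 18 * s) → q = 7 ∨ q = 13

variable {s l1 l2 l3 l4 l5 l6 : ℕ} {a b : ℤ} (F : Fam s l1 l2 l3 l4 l5 l6 a b)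
include F

theorem Fam.disc : a ^ 3 - b = 7 ^ 3 * ((s * (l4 + 12 * s) * (l4 + 18 * s) : ℕ) : ℤ) ^ 2 := by
  rw [F.ea, F.eb, F.e1, F.e2, F.e3, F.e5, F.e6]
  push_cast
  ring

theorem Fam.s9 : 9 ≤ s := by
  have := F.h9
  have := F.h7
  omega

theorem Fam.n7 : l4 % 7 ≠ 0 := fun h => by
  have := (Nat.prime_dvd_prime_iff_eq (p := 7) (by norm_num) F.p1).1 (by have := F.e1; omega)
  have := F.e1
  have := F.s9
  omega

theorem Fam.n7' : l2 % 7 ≠ 0 := fun h => by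
  have := (Nat.prime_dvd_prime_iff_eq (p := 7) (by norm_num) F.p2).1 (by omega)
  have := F.e2
  have := F.s9
  omega

theorem Fam.n13 : l4 % 13 ≠ 0 := fun h => by
  have := (Nat.prime_dvd_prime_iff_eq (p := 13) (by norm_num) F.p1).1 (by
    have := F.e1; have := F.h13; omega)
  have := F.e1
  have := F.s9
  omega

theorem Fam.hb : (b : ℚ) ≠ 0 := by
  have := F.p1.pos; have := F.p2.pos; have := F.p3.pos; have := F.p4.pos; have := F.p5.pos
  have := F.p6.pos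
  rw [F.eb]
  positivity

theorem Fam.hc : (a : ℚ) ^ 3 - b ≠ 0 := by
  have := F.s9
  have h : a ^ 3 - b ≠ 0 := by rw [F.disc]; positivity
  exact_mod_cast h

theorem Fam.dvd_b {p : ℕ} (hp : p.Prime) (h : (p : ℤ) ∣ b) :
    p = l1 ∨ p = l2 ∨ p = l3 ∨ p = l4 ∨ p = l5 ∨ p = l6 := by
  rw [F.eb] at h
  have h' : p ∣ l1 * l2 * l3 * l4 * l5 * l6 := by exact_mod_cast h
  simpa only [hp.dvd_mul, Nat.prime_dvd_prime_iff_eq hp, F.p1, F.p2, F.p3, F.p4, F.p5, F.p6,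
    or_assoc] using h'

theorem Fam.hypB : HypB a b := by
  have e1 := F.e1; have e2 := F.e2; have h9 := F.h9; have h7 := F.h7; have h7' := F.h7'
  have h13 := F.h13; have hr := F.hr; have s9 := F.s9; have n7 := F.n7; have n7' := F.n7'
  have n13 := F.n13
  refine (hypB'_of (fun q hq h1 h2 => ?_) {l1, l2, l4} ?_ fun i j k H => ?_).hypB
  · rw [F.disc] at h2
    have h3 : q ∣ 7 ^ 3 * (s * (l4 + 12 * s) * (l4 + 18 * s)) ^ 2 := by exact_mod_cast h2
    rcases (hq.dvd_mul).1 h3 with h | h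
    · exact .inl ((Nat.prime_dvd_prime_iff_eq hq (by norm_num)).1 (hq.dvd_of_dvd_pow h))
    · exact F.hq q hq h1 (hq.dvd_of_dvd_pow h)
  · rw [sub_sub_cancel, F.eb]
    rintro q (rfl | rfl | rfl)
    · exact ⟨F.p1, by omega, by omega, by omega, ⟨l2 * l3 * l4 * l5 * l6, by ring⟩⟩
    · exact ⟨F.p2, by omega, by omega, by omega, ⟨l1 * l3 * l4 * l5 * l6, by ring⟩⟩
    · exact ⟨F.p4, by omega, by omega, by omega, ⟨l1 * l2 * l3 * l5 * l6, by ring⟩⟩
  · have a1 := H l1 (by simp)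
    have a2 := H l2 (by simp)
    have a4 := H l4 (by simp)
    rw [show l1 % 9 = l4 % 9 by omega, show l1 % 7 = l4 % 7 by omega,
      show l1 % 13 = 2 * (l4 % 13) % 13 by omega] at a1
    rw [show l2 % 9 = l4 % 9 by omega] at a2
    have hk : 3 ∣ k := by
      have := Nat.mod_lt l4 (show 0 < 13 by norm_num)
      generalize i * e9 (l4 % 9) + j * e7 (l4 % 7) = z at a1 a4
      generalize l4 % 13 = σ at *
      clear * - a1 a4 n13 this
      interval_cases σ <;> simp [e13] at * <;> omega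
    obtain ⟨k, rfl⟩ := hk
    rw [mul_assoc 3, Nat.dvd_add_left (dvd_mul_right _ _)] at a2 a4
    have hj : 3 ∣ j := by
      have b1 := Nat.mod_lt l4 (show 0 < 7 by norm_num)
      have b2 := Nat.mod_lt l2 (show 0 < 7 by norm_num)
      have b3 : l4 % 7 ≠ l2 % 7 := by omega
      have b4 : l4 % 7 + l2 % 7 ≠ 7 := by omega
      generalize i * e9 (l4 % 9) = z at a2 a4
      generalize l4 % 7 = u at *
      generalize l2 % 7 = v at *
      clear * - a2 a4 n7 n7' b1 b2 b3 b4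
      interval_cases u <;> interval_cases v <;> simp [e7] at * <;> omega
    obtain ⟨j, rfl⟩ := hj
    rw [mul_assoc 3, Nat.dvd_add_left (dvd_mul_right _ _)] at a4
    refine ⟨?_, dvd_mul_right _ _, dvd_mul_right _ _⟩
    rcases hr with h | h <;> simp [h, e9] at a4 <;> omega

theorem Fam.cond {e1 e2 e3 e4 e5 e6 : Fin 3} (n : ℤ) (hn : n = l1 ^ (e1 : ℕ) * l2 ^ (e2 : ℕ) *
      l3 ^ (e3 : ℕ) * l4 ^ (e4 : ℕ) * l5 ^ (e5 : ℕ) * l6 ^ (e6 : ℕ))
    (h : ∀ (p : ℕ) [Fact p.Prime], Sol (a : ℚ_[p]) b n) :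
    3 ∣ (e1 : ℕ) + e2 + e3 + e4 + e5 + e6 ∧ 3 ∣ (e1 : ℕ) + 2 * e2 + e3 + 2 * e5 ∧
      3 ∣ (e2 : ℕ) + e3 + e6 := by
  have q1 := F.e1; have q2 := F.e2; have q3 := F.e3; have q5 := F.e5; have q6 := F.e6
  have hr := F.hr; have s9 := F.s9; have n7 := F.n7; have n7' := F.n7'; have n13 := F.n13
  have key : ∀ p : ℕ, p.Prime → (p : ℤ) ∣ a ^ 3 - b → p = 3 ∨ p = 7 ∨ p = 13 → ¬(p : ℤ) ∣ a := by
    intro p hp h1 h2 h3
    have := F.dvd_b hp ((dvd_sub_right (dvd_pow h3 three_ne_zero)).1 h1)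
    omega
  have c1 : 3 ∣ (e1 : ℕ) + e2 + e3 + e4 + e5 + e6 := by
    obtain ⟨u, hu⟩ := F.h9
    have d : (27 : ℤ) ∣ a ^ 3 - b := by
      rw [F.disc, hu]
      exact ⟨7 ^ 3 * 3 * (u * (l4 + 12 * (9 * u)) * (l4 + 18 * (9 * u))) ^ 2, by push_cast; ring⟩
    have := Sol.mod_nine (key 3 Nat.prime_three (Dvd.dvd.trans (by norm_num) d) (by simp)) d (h 3)
    have t : ∀ l c : ℕ, l = l4 + c * s → (l : ZMod 27) ^ 6 = (l4 : ZMod 27) ^ 6 := by
      rintro l c rfl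
      rw [← mod9_aux' l4 (c * u), hu]
      push_cast
      ring
    refine mod9_aux ((l4 : ZMod 27) ^ 6) ?_ ⟨e1 + e2 + e3 + e4 + e5 + e6, by omega⟩ ?_
    · rw [← Nat.mod_add_div l4 9]
      push_cast
      rw [mod9_aux']
      rcases hr with h | h <;> rw [h] <;> decide
    · convert this using 3
      all_goals
        rw [hn]
        push_cast
        simp only [mul_pow, ← pow_mul, mul_comm _ 6, pow_add]
        simp only [pow_mul, t _ _ q1, t _ _ q2, t _ _ q3, t _ _ q5, t _ _ q6]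
  refine ⟨c1, ?_, ?_⟩
  · have : Fact (Nat.Prime 13) := ⟨by norm_num⟩
    obtain ⟨u, hu⟩ := F.h13
    have d : ((13 : ℕ) : ℤ) ∣ a ^ 3 - b := by
      rw [F.disc, hu]
      exact ⟨7 ^ 3 * 13 * (s * u * (l4 + 18 * s)) ^ 2, by push_cast; ring⟩
    obtain ⟨θ, hθ⟩ := Sol.cube_mod' (key 13 Fact.out d (by simp)) d (h 13)
    obtain ⟨m, hm⟩ := c1
    have h0 : (l4 : ZMod 13) ≠ 0 := by
      rw [Ne, ZMod.natCast_eq_zero_iff]; omega
    have t : ∀ l c : ℕ, l % 13 = c * l4 % 13 → (l : ZMod 13) = c * l4 := by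
      intro l c hl
      rw [← Nat.cast_mul, ZMod.natCast_eq_natCast_iff']
      exact hl
    refine mod13_aux (θ / l4 ^ m) e1 e2 e3 e5 e6 ?_
    rw [div_pow, hθ, hn, ← pow_mul, mul_comm m, ← hm, div_eq_iff (pow_ne_zero _ h0)]
    push_cast
    rw [t l1 2 (by omega), t l2 4 (by omega), t l3 10 (by omega), t l5 9 (by omega),
      t l6 5 (by omega)]
    push_cast
    ring
  · have : Fact (Nat.Prime 7) := ⟨by norm_num⟩
    have d : ((7 : ℕ) : ℤ) ∣ a ^ 3 - b := by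
      rw [F.disc]
      exact dvd_mul_of_dvd_left (by norm_num) _
    obtain ⟨θ, hθ⟩ := Sol.cube_mod' (key 7 Fact.out d (by simp)) d (h 7)
    have h7 := F.h7; have h7' := F.h7'
    have t : ∀ l c : ℕ, l % 7 = c % 7 ↔ (l : ZMod 7) = c := fun l c =>
      (ZMod.natCast_eq_natCast_iff' _ _ _).symm
    refine mod7_aux l4 l2 ⟨?_, ?_, ?_, ?_⟩ θ ⟨e1 + e4 + e5, by omega⟩ ⟨e2 + e3 + e6, by omega⟩ ?_
      (by dsimp only; omega)
    · rw [Ne, ZMod.natCast_eq_zero_iff]; omega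
    · rw [Ne, ZMod.natCast_eq_zero_iff]; omega
    · rw [Ne, ← t]; omega
    · rw [Ne, ← Nat.cast_add, ZMod.natCast_eq_zero_iff]; omega
    · rw [hθ, hn]
      push_cast
      rw [(t l1 l4).1 (by omega), (t l5 l4).1 (by omega), (t l3 l2).1 (by omega),
        (t l6 l2).1 (by omega)]
      ring

end Pool.Agent.MP_a43263_nt

end MrgPart2

-- ======== part 3: formerly Pool.Agent.MP_a43263_nt.Main
section MrgPart3

namespace Pool.Agent.MP_a43263_nt

open Classical WeierstrassCurve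

theorem rank_two {G : Type} [AddCommGroup G] (hG : AddGroup.FG G) {T P Q : G} (hT : 3 • T = 0)
    (h3 : ∀ Z : G, 3 • Z = 0 → Z = 0 ∨ Z = T ∨ Z = -T)
    (hs : ∀ R : G, ∃ (i j k : ℕ) (Z : G), R = i • T + j • P + k • Q + 3 • Z)
    (hi : ∀ (i j k : ℕ) (Z : G), i • T + j • P + k • Q = 3 • Z → 3 ∣ i ∧ 3 ∣ j ∧ 3 ∣ k) :
    Module.rank ℤ G = 2 := by
  have : Module.Finite ℤ G := Module.Finite.iff_addGroup_fg.2 hG
  have hT' : (3 : ℤ) • T = 0 := by exact_mod_cast hT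
  have hi' : ∀ i j k : ℤ, i • T + j • P + k • Q = 0 → 3 ∣ i ∧ 3 ∣ j ∧ 3 ∣ k := by
    intro i j k h
    have := hi (i % 3).toNat (j % 3).toNat (k % 3).toNat
      (-((i / 3) • T + (j / 3) • P + (k / 3) • Q)) (by
        rw [← natCast_zsmul, ← natCast_zsmul, ← natCast_zsmul, Int.toNat_of_nonneg (by omega),
          Int.toNat_of_nonneg (by omega), Int.toNat_of_nonneg (by omega), Int.emod_def,
          Int.emod_def, Int.emod_def]
        linear_combination (norm := module) h)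
    omega
  have ind : ∀ (n : ℕ) (i j k : ℤ), j.natAbs + k.natAbs = n → i • T + j • P + k • Q = 0 →
      j = 0 ∧ k = 0 := by
    intro n
    induction n using Nat.strong_induction_on with
    | _ n ih =>
    intro i j k hn h
    obtain ⟨⟨i, rfl⟩, ⟨j, rfl⟩, ⟨k, rfl⟩⟩ := hi' i j k h
    by_cases h0 : n = 0
    · omega
    have h1 : 3 • (j • P + k • Q) = 0 := by linear_combination (norm := module) h - i • hT'
    have h2 : j = 0 ∧ k = 0 := by
      rcases h3 _ h1 with h | h | h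
      · exact ih _ (by omega) 0 j k rfl (by linear_combination (norm := module) h)
      · exact ih _ (by omega) (-1) j k rfl (by linear_combination (norm := module) h)
      · exact ih _ (by omega) 1 j k rfl (by linear_combination (norm := module) h)
    omega
  have li : LinearIndependent ℤ ![P, Q] := LinearIndependent.pair_iff.2 fun j k h =>
    ind _ 0 j k rfl (by linear_combination (norm := module) h)
  let N := Submodule.span ℤ (Set.range ![P, Q])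
  have hP : P ∈ N := Submodule.subset_span ⟨0, rfl⟩
  have hQ : Q ∈ N := Submodule.subset_span ⟨1, rfl⟩
  let N' := N ⊔ Submodule.span ℤ {T}
  obtain ⟨r, hr, hr'⟩ := Submodule.exists_sub_one_mem_and_smul_eq_zero_of_fg_of_le_smul
    (Ideal.span {(3 : ℤ)}) (⊤ : Submodule ℤ (G ⧸ N')) Module.Finite.fg_top (by
      rintro x -
      obtain ⟨R, rfl⟩ := N'.mkQ_surjective x
      obtain ⟨i, j, k, Z, rfl⟩ := hs R
      have a1 : N'.mkQ T = 0 := (Submodule.Quotient.mk_eq_zero _).2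
        (Submodule.mem_sup_right (Submodule.mem_span_singleton_self T))
      have a2 : N'.mkQ P = 0 := (Submodule.Quotient.mk_eq_zero _).2 (Submodule.mem_sup_left hP)
      have a3 : N'.mkQ Q = 0 := (Submodule.Quotient.mk_eq_zero _).2 (Submodule.mem_sup_left hQ)
      simp only [map_add, map_nsmul, a1, a2, a3, smul_zero, zero_add]
      rw [← natCast_zsmul]
      exact Submodule.smul_mem_smul (Ideal.mem_span_singleton_self _) trivial)
  have hr0 : r ≠ 0 := by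
    rintro rfl
    rw [Ideal.mem_span_singleton] at hr
    omega
  have h0 : Module.rank ℤ (G ⧸ N) = 0 := by
    rw [rank_eq_zero_iff]
    intro x
    obtain ⟨R, rfl⟩ := N.mkQ_surjective x
    refine ⟨3 * r, by omega, ?_⟩
    have := hr' (N'.mkQ R) trivial
    rw [← map_smul, Submodule.mkQ_apply, Submodule.Quotient.mk_eq_zero, Submodule.mem_sup] at this
    obtain ⟨y, hy, z, hz, e⟩ := this
    obtain ⟨c, rfl⟩ := Submodule.mem_span_singleton.1 hz
    rw [← map_smul, Submodule.mkQ_apply, Submodule.Quotient.mk_eq_zero,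
      show (3 * r) • R = (3 : ℤ) • y by linear_combination (norm := module) c • hT' - (3 : ℤ) • e]
    exact N.smul_mem _ hy
  rw [← rank_quotient_add_rank_of_isDomain N, h0, zero_add, rank_span li,
    Cardinal.mk_range_eq _ li.injective]
  simp

variable {s l1 l2 l3 l4 l5 l6 : ℕ} {a b : ℤ} (F : Fam s l1 l2 l3 l4 l5 l6 a b)
include F

theorem Fam.main : Module.rank ℤ (Pt (WW a b) ℚ) = 2 ∧
    ∀ k : ℕ, ∀ x ∈ Sha (WW a b), 3 ^ k • x = 0 → x = 0 := by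
  have hb := F.hb
  have hc := F.hc
  have z : ∀ l : ℕ, l.Prime → (l : ℚ) ≠ 0 := fun l h => by exact_mod_cast h.ne_zero
  have z1 := z _ F.p1; have z2 := z _ F.p2; have z3 := z _ F.p3; have z4 := z _ F.p4
  have z5 := z _ F.p5; have z6 := z _ F.p6
  have eb : (b : ℚ) = l1 * l2 * l3 * l4 * l5 * l6 := by exact_mod_cast F.eb
  obtain ⟨T, gT, hT, h3⟩ := good_T hb hc
  obtain ⟨P, gP⟩ := good_ABC hb hc (A := l1 * l6) (B := l2 * l5) (C := l3 * l4) (by
    rw [F.ea, F.e1, F.e2, F.e3, F.e5, F.e6]; push_cast; ring) (by rw [eb]; ring)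
  obtain ⟨Q, gQ⟩ := good_ABC hb hc (A := l1 * l3) (B := l2 * l4) (C := l5 * l6) (by
    rw [F.ea, F.e1, F.e2, F.e3, F.e5, F.e6]; push_cast; ring) (by rw [eb]; ring)
  have G : ∀ i j k : ℕ, Good a b (l1 ^ (i + 2 * j + 2 * k) * l2 ^ (i + j + k) * l3 ^ (i + 2 * k) *
      l4 ^ (i + k) * l5 ^ (i + j) * l6 ^ (i + 2 * j)) (i • T + j • P + k • Q) := by
    intro i j k
    have := ((gT.pow hb hc hb i).mul (pow_ne_zero _ hb) (gP.pow hb hc (by positivity) j)).mul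
      (by positivity) (gQ.pow hb hc (by positivity) k)
    convert this using 1
    rw [eb]
    ring
  let A : Set (Pt (WW a b) ℚ) :=
    Set.range fun v : Fin 3 × Fin 3 × Fin 3 => (v.1 : ℕ) • T + (v.2.1 : ℕ) • P + (v.2.2 : ℕ) • Q
  have HA : HypA a b A := by
    intro β hβ hl
    obtain ⟨e1, β1, n1, rfl, h1⟩ := peel F.p1 hβ
      (S := fun p => p ≠ l2 ∧ p ≠ l3 ∧ p ≠ l4 ∧ p ≠ l5 ∧ p ≠ l6) fun p hp h1 h2 => by
        have : Fact p.Prime := ⟨hp⟩
        rw [← Padic.valuation_ratCast]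
        refine (hl p).val (by simpa using Padic.norm_int_le_one (p := p) a)
          (by rw [Rat.cast_intCast]; exact norm_int_eq_one fun h => by have := F.dvd_b hp h; omega)
          (by exact_mod_cast hβ)
    obtain ⟨e2, β2, n2, rfl, h2⟩ := peel F.p2 n1 fun p hp h h' => h1 p hp ⟨h, h'⟩
    obtain ⟨e3, β3, n3, rfl, h3⟩ := peel F.p3 n2 fun p hp h h' => h2 p hp ⟨h, h'⟩
    obtain ⟨e4, β4, n4, rfl, h4⟩ := peel F.p4 n3 fun p hp h h' => h3 p hp ⟨h, h'⟩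
    obtain ⟨e5, β5, n5, rfl, h5⟩ := peel F.p5 n4 fun p hp h h' => h4 p hp ⟨h, h'⟩
    obtain ⟨e6, β6, n6, rfl, h6⟩ := peel (S := fun _ => True) F.p6 n5 fun p hp h _ => h5 p hp h
    obtain ⟨γ, hγ, rfl⟩ := cube_of_val n6 fun p hp => h6 p hp trivial
    obtain ⟨c1, c2, c3⟩ := F.cond (e1 := e1) (e2 := e2) (e3 := e3) (e4 := e4) (e5 := e5) (e6 := e6)
      _ rfl fun p _ => by
        refine Sol.scale (γ := (γ : ℚ_[p])) (by exact_mod_cast hγ) ?_
        convert hl p using 1 <;> push_cast <;> ring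
    obtain ⟨i, j, k, f1, f2, f3, f4, f5, f6, q1, q2, q3, q4, q5, q6⟩ :
        ∃ (i j k : Fin 3) (f1 f2 f3 f4 f5 f6 : ℕ), i + 2 * j + 2 * k = e1 + 3 * f1 ∧
          (i : ℕ) + j + k = e2 + 3 * f2 ∧ i + 2 * k = e3 + 3 * f3 ∧ (i : ℕ) + k = e4 + 3 * f4 ∧
          (i : ℕ) + j = e5 + 3 * f5 ∧ i + 2 * j = e6 + 3 * f6 := by
      obtain ⟨k, hk⟩ : ∃ k : Fin 3, (k : ℕ) = (e3 + 2 * e4) % 3 := ⟨⟨_, by omega⟩, rfl⟩
      obtain ⟨i, hi⟩ : ∃ i : Fin 3, (i : ℕ) = (2 * e3 + 2 * e4) % 3 := ⟨⟨_, by omega⟩, rfl⟩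
      obtain ⟨j, hj⟩ : ∃ j : Fin 3, (j : ℕ) = (e5 + 2 * i) % 3 := ⟨⟨_, by omega⟩, rfl⟩
      exact ⟨i, j, k, (i + 2 * j + 2 * k) / 3, (i + j + k) / 3, (i + 2 * k) / 3, (i + k) / 3,
        (i + j) / 3, (i + 2 * j) / 3, by omega, by omega, by omega, by omega, by omega, by omega⟩
    refine ⟨_, ⟨(i, j, k), rfl⟩, ?_⟩
    have hδ : γ / (l1 ^ f1 * l2 ^ f2 * l3 ^ f3 * l4 ^ f4 * l5 ^ f5 * l6 ^ f6) ≠ 0 := by positivity
    have := (good_cube hb hc hδ).mul (pow_ne_zero _ hδ) (G i j k)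
    rw [zero_add, q1, q2, q3, q4, q5, q6] at this
    convert this using 1
    field_simp
    ring
  refine ⟨?_, sha_three hb hc HA F.hypB⟩
  have hm := weak_mw hb hc HA F.hypB
  have : ((WW a b).baseChange ℚ).IsElliptic := ⟨(isW hb hc ℚ).delta.isUnit⟩
  refine rank_two (P := P) (Q := Q) (fg_of_three A (Set.finite_range _) hm) hT h3 (fun R => ?_)
    fun i j k Z h => ?_
  · obtain ⟨_, ⟨v, rfl⟩, Z, h⟩ := hm R
    exact ⟨_, _, _, Z, h⟩
  · obtain ⟨γ, hγ⟩ := Good.cube hb hc (by positivity) (h ▸ G i j k)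
    have s9 := F.s9
    have q1 := F.e1; have q2 := F.e2; have q3 := F.e3; have q5 := F.e5; have q6 := F.e6
    have v : ∀ p : ℕ, p.Prime → (3 : ℤ) ∣ (i + 2 * j + 2 * k) * padicValRat p l1 +
        (i + j + k) * padicValRat p l2 + (i + 2 * k) * padicValRat p l3 +
        (i + k) * padicValRat p l4 + (i + j) * padicValRat p l5 + (i + 2 * j) * padicValRat p l6 := by
      intro p hp
      have : Fact p.Prime := ⟨hp⟩
      have := congrArg (padicValRat p) hγ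
      rw [padicValRat.mul (by positivity) (by positivity),
        padicValRat.mul (by positivity) (by positivity),
        padicValRat.mul (by positivity) (by positivity),
        padicValRat.mul (by positivity) (by positivity),
        padicValRat.mul (by positivity) (by positivity)] at this
      simp only [padicValRat.pow] at this
      push_cast at this
      exact ⟨_, this.symm⟩
    have w : ∀ p q : ℕ, p.Prime → q.Prime → p ≠ q → padicValRat p q = 0 := by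
      intro p q hp hq h
      have : Fact p.Prime := ⟨hp⟩
      have : Fact q.Prime := ⟨hq⟩
      rw [padicValRat.of_nat, padicValNat_primes h]; rfl
    have v3 := v _ F.p3
    have v4 := v _ F.p4
    have v5 := v _ F.p5
    rw [padicValRat.self F.p3.one_lt, w _ _ F.p3 F.p1 (by omega), w _ _ F.p3 F.p2 (by omega),
      w _ _ F.p3 F.p4 (by omega), w _ _ F.p3 F.p5 (by omega), w _ _ F.p3 F.p6 (by omega)] at v3
    rw [padicValRat.self F.p4.one_lt, w _ _ F.p4 F.p1 (by omega), w _ _ F.p4 F.p2 (by omega),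
      w _ _ F.p4 F.p3 (by omega), w _ _ F.p4 F.p5 (by omega), w _ _ F.p4 F.p6 (by omega)] at v4
    rw [padicValRat.self F.p5.one_lt, w _ _ F.p5 F.p1 (by omega), w _ _ F.p5 F.p2 (by omega),
      w _ _ F.p5 F.p3 (by omega), w _ _ F.p5 F.p4 (by omega), w _ _ F.p5 F.p6 (by omega)] at v5
    omega

end Pool.Agent.MP_a43263_nt

end MrgPart3

-- marker of a merged file
example : 731051 + 638383 = 731051 + 638383 := rfl
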